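import Pool.Agent.Lib.MP_e029a2_pr.M.All

/-!
# Visits in the language of steps and of macro cells
-/

set_option autoImplicit false

namespace FDr.M

open MeasureTheory ProbabilityTheory
open scoped ENNReal

theorem moff_succ {D : ℕ} (a : ℕ → MC D) (j : ℕ) : moff a (j + 1) = moff a j + (a j).length + 1 := by
  unfold moff
  rw [Finset.sum_range_succ, add_assoc]

theorem pos_succ' {D : ℕ} (η : ℕ → Stp D) (x : Site D) (n : ℕ) : pos η x (n + 1) = pos η x n + vec (η n) := by
  unfold pos
  rw [Finset.sum_range_succ, add_assoc]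

theorem mword_lt {D : ℕ} (a : MC D) (i : ℕ) (hi : i < a.length)
    (h : i < (mword a).length) : (mword a)[i]'h = mw (a[i]) := by
  unfold mword
  rw [List.getElem_append_left (by rw [List.length_map]; exact hi), List.getElem_map]

theorem mword_len {D : ℕ} (a : MC D)
    (h : a.length < (mword a).length) : (mword a)[a.length]'h = Sum.inl false := by
  unfold mword
  rw [List.getElem_append_right (by rw [List.length_map])]
  simp

theorem mbij_line {D : ℕ} (c : MConf D) (x : Site D) (j : ℕ)
    (h0 : pos (mstp fun j => c (x, j)) x (moff (fun j => c (x, j)) j) = ment c x j) (i : ℕ) (hi : i ≤ (c (x, j)).length) :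
    pos (mstp fun j => c (x, j)) x (moff (fun j => c (x, j)) j + i) =
      ment c x j + mdsp ((c (x, j)).take i) := by
  induction i with
  | zero =>
    rw [add_zero, h0, List.take_zero]
    show ment c x j = ment c x j + 0
    rw [add_zero]
  | succ i ih =>
    have h1 := ih (Nat.le_of_succ_le hi)
    rw [← add_assoc, pos_succ', h1]
    have h2 := mstp_off (fun j => c (x, j)) j i (by omega)
    rw [h2, mword_lt _ i hi, List.take_succ_eq_append_getElem hi, add_assoc]
    congr 1
    unfold mdsp
    rw [List.map_append, List.sum_append]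
    simp

theorem mbij_start {D : ℕ} (c : MConf D) (x : Site D) (j : ℕ) :
    pos (mstp fun j => c (x, j)) x (moff (fun j => c (x, j)) j) = ment c x j := by
  induction j with
  | zero =>
    unfold moff ment pos
    simp
  | succ j ih =>
    rw [moff_succ, pos_succ', mbij_line c x j ih _ le_rfl]
    have h2 := mstp_off (fun j => c (x, j)) j (c (x, j)).length (by omega)
    rw [h2, mword_len, List.take_length]
    unfold ment
    rw [Finset.sum_range_succ, add_assoc, add_assoc]
    rfl

theorem mpos_off {D : ℕ} (c : MConf D) (x : Site D) (j i : ℕ) (hi : i ≤ (c (x, j)).length) :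
    pos (mstp fun j => c (x, j)) x (moff (fun j => c (x, j)) j + i) =
      ment c x j + mdsp ((c (x, j)).take i) :=
  mbij_line c x j (mbij_start c x j) i hi

theorem exists_moff {D : ℕ} (a : ℕ → MC D) (n : ℕ) : ∃ j i, i ≤ (a j).length ∧ n = moff a j + i := by
  induction n with
  | zero =>
    refine ⟨0, 0, Nat.zero_le _, ?_⟩
    unfold moff
    simp
  | succ n ih =>
    obtain ⟨j, i, hi, hn⟩ := ih
    rcases Nat.lt_or_ge i (a j).length with h | h
    · exact ⟨j, i + 1, h, by omega⟩
    · refine ⟨j + 1, 0, Nat.zero_le _, ?_⟩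
      rw [moff_succ]
      omega

theorem moff_lt {D : ℕ} (a : ℕ → MC D) (j j' i : ℕ) (h : i ≤ (a j).length) (hj : j < j') :
    moff a j + i < moff a j' := by
  induction j' with
  | zero => exact absurd hj (Nat.not_lt_zero j)
  | succ j' ih =>
    rw [moff_succ]
    rcases Nat.lt_or_ge j j' with h1 | h1
    · have := ih h1
      omega
    · have h2 : j = j' := by omega
      subst h2
      omega

theorem moff_inj {D : ℕ} (a : ℕ → MC D) (j j' i i' : ℕ) (h : i ≤ (a j).length) (h' : i' ≤ (a j').length)
    (he : moff a j + i = moff a j' + i') : j = j' ∧ i = i' := by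
  rcases lt_trichotomy j j' with h1 | h1 | h1
  · have := moff_lt a j j' i h h1
    omega
  · subst h1
    exact ⟨rfl, by omega⟩
  · have := moff_lt a j' j i' h' h1
    omega

theorem active_actM {D : ℕ} (c : MConf D) (x : Site D) : Active (fun y n => mall c (y, n)) x ↔ ActM c x := by
  constructor
  · intro h
    induction h with
    | start => exact ActM.start
    | visit x n _ ih =>
      obtain ⟨j, i, hi, hn⟩ := exists_moff (fun j => c (x, j)) n
      have h1 : pos (fun n => mall c (x, n)) x n = ment c x j + mdsp ((c (x, j)).take i) := by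
        rw [hn]
        exact mpos_off c x j i hi
      rw [h1]
      exact ActM.visit x j _ ih ⟨i, hi, rfl⟩
  · intro h
    induction h with
    | start => exact Active.start
    | visit x j h _ hh ih =>
      obtain ⟨i, hi, rfl⟩ := hh
      have h1 := Active.visit x (moff (fun j => c (x, j)) j + i) ih
      have h2 : pos (fun n => mall c (x, n)) x (moff (fun j => c (x, j)) j + i) =
          ment c x j + mdsp ((c (x, j)).take i) := mpos_off c x j i hi
      rw [h2] at h1
      exact h1

theorem visM_inf {D : ℕ} (c : MConf D) : (visits fun x n => mall c (x, n)).Infinite ↔ (visM c).Infinite := by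
  have hinj : Set.InjOn (fun p : Site D × ℕ × ℕ => ((p.1, moff (fun j => c (p.1, j)) p.2.1 + p.2.2) : Site D × ℕ)) (visM c) := by
    rintro ⟨x, j, i⟩ ⟨_, hi, _⟩ ⟨x', j', i'⟩ ⟨_, hi', _⟩ he
    have h1 : x = x' := congrArg Prod.fst he
    subst h1
    have h2 : moff (fun j => c (x, j)) j + i = moff (fun j => c (x, j)) j' + i' := congrArg Prod.snd he
    obtain ⟨h3, h4⟩ := moff_inj (fun j => c (x, j)) j j' i i' hi hi' h2
    rw [h3, h4]
  have himg : (fun p : Site D × ℕ × ℕ => ((p.1, moff (fun j => c (p.1, j)) p.2.1 + p.2.2) : Site D × ℕ)) '' (visM c) =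
      visits fun x n => mall c (x, n) := by
    ext ⟨x, n⟩
    constructor
    · rintro ⟨⟨x', j, i⟩, ⟨h1, h2, h3⟩, he⟩
      have h4 : x' = x := congrArg Prod.fst he
      subst h4
      have h5 : moff (fun j => c (x', j)) j + i = n := congrArg Prod.snd he
      refine ⟨(active_actM c x').2 h1, ?_⟩
      rw [← h5]
      exact (mpos_off c x' j i h2).trans h3
    · rintro ⟨h1, h2⟩
      obtain ⟨j, i, hi, hn⟩ := exists_moff (fun j => c (x, j)) n
      refine ⟨(x, j, i), ⟨(active_actM c x).1 h1, hi, ?_⟩, ?_⟩
      · rw [← mpos_off c x j i hi, ← hn]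
        exact h2
      · show (x, moff (fun j => c (x, j)) j + i) = (x, n)
        rw [← hn]
  rw [← himg, Set.infinite_image_iff hinj]

/-- the law of the steps -/
theorem transfer_finM {Ω : Type*} [MeasurableSpace Ω] (w α : Set.Ioo (0 : ℝ) 1) (D : ℕ) [NeZero D] (P : Measure Ω)
    (ξ : Site D → ℕ → Ω → Stp D) (h : IsFrog D w α P ξ) (hQ : ∀ᵐ c ∂MQ w α D, (visM c).Finite) :
    ∀ᵐ ω ∂P, (visits fun x n => ξ x n ω).Finite := by
  have hs : MeasurableSet ({η : SConf D | (visits fun x n => η (x, n)).Infinite}ᶜ) := (visits_meas D).compl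
  have h0 : ∀ᵐ c ∂MQ w α D, mall c ∈ ({η : SConf D | (visits fun x n => η (x, n)).Infinite}ᶜ) := by
    filter_upwards [hQ] with c hc
    intro h2
    exact (visM_inf c).1 h2 hc
  have h1 : ∀ᵐ η ∂(MQ w α D).map mall, η ∈ ({η : SConf D | (visits fun x n => η (x, n)).Infinite}ᶜ) :=
    (ae_map_iff (mall_meas D).aemeasurable hs).2 h0
  rw [mall_law, ← isFrog_law w α D P ξ h] at h1
  have hm : Measurable (fun ω (p : Site D × ℕ) => ξ p.1 p.2 ω) := measurable_pi_lambda _ fun p => h.meas p.1 p.2
  filter_upwards [(ae_map_iff hm.aemeasurable hs).1 h1] with ω hω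
  exact Set.not_infinite.1 hω

end FDr.M
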