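import Pool.Agent.Lib.MP_e029a2_pr.M.TF
import Pool.Agent.Lib.MP_e029a2_pr.TG

/-!
# Transience with macro cells, part G: the theorem
-/

set_option autoImplicit false

namespace FDr.MT

open MeasureTheory ProbabilityTheory
open scoped ENNReal
open FDr.M
open FDr.TR (ind ind_true ind_false ind_mono ind_and ind_congr measurable_ind lintegral_ind tsum_ind_and tsum_opt
  lintegral_mul_of_disj lintegral_reindex lintegral_coord)

/-! ### The constants -/

theorem kapM_ne_zero (w α : Set.Ioo (0 : ℝ) 1) (D : ℕ) [NeZero D] {s : ℝ} (hs : 0 < s) : kapM w α D s ≠ 0 := by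
  intro h
  unfold kapM at h
  rw [lintegral_eq_zero_iff (measurable_of_countable _)] at h
  have h1 : ∀ᵐ _ : MC D ∂mcLaw w α D, False := by
    filter_upwards [h] with a ha
    have h2 : ENNReal.ofReal (s ^ (mvec a).1) = 0 := ha
    rw [ENNReal.ofReal_eq_zero] at h2
    exact absurd (zpow_pos hs (mvec a).1) (not_lt.2 h2)
  rw [Filter.eventually_false_iff_eq_bot, ae_eq_bot] at h1
  exact IsProbabilityMeasure.ne_zero (mcLaw w α D) h1

theorem UgM_ne_top (w α : Set.Ioo (0 : ℝ) 1) (D : ℕ) [NeZero D] {s : ℝ} (hs : 0 < s) (h : mfunM w α D s < 1) :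
    UgM w α D s ≠ ⊤ := by
  intro hU
  unfold mfunM at h
  rw [hU, add_top, ENNReal.mul_top (kapM_ne_zero w α D hs)] at h
  exact not_top_lt h

theorem exists_bound (w α : Set.Ioo (0 : ℝ) 1) (D : ℕ) [NeZero D] {s : ℝ} (hs : 0 < s) (hs1 : mfunM w α D s < 1) :
    ∃ K : ℝ≥0∞, K ≠ ⊤ ∧
    ∀ n : ℕ, UgM w α D s * (1 + UgM w α D s) * (∑ g ∈ Finset.range (n + 1), mfunM w α D s ^ g) ≤ K := by
  have hU := UgM_ne_top w α D hs hs1
  refine ⟨UgM w α D s * (1 + UgM w α D s) * (1 - mfunM w α D s)⁻¹, ?_, fun n => ?_⟩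
  · refine ENNReal.mul_ne_top (ENNReal.mul_ne_top hU (ENNReal.add_ne_top.2 ⟨ENNReal.one_ne_top, hU⟩)) ?_
    rw [Ne, ENNReal.inv_eq_top, tsub_eq_zero_iff_le, not_le]
    exact hs1
  · refine mul_le_mul_right ?_ _
    rw [← ENNReal.tsum_geometric]
    exact ENNReal.sum_le_tsum _

/-! ### The configurations without the additional frog -/

variable {D : ℕ}

/-- The frog `0` is called `none`. -/
noncomputable def oo (x : Site D) : Option (Site D) := open Classical in if x = 0 then none else some x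

theorem oo_zero : oo (0 : Site D) = none := by simp [oo]

theorem oo_ne {x : Site D} (h : x ≠ 0) : oo x = some x := by simp [oo, h]

theorem oo_getD (x : Site D) : (oo x).getD 0 = x := by
  by_cases h : x = 0
  · rw [h, oo_zero, Option.getD_none]
  · rw [oo_ne h, Option.getD_some]

/-- A configuration with the additional frog from a configuration without it. -/
def ext0 (c : MConf D) : OConf D := fun i => c (i.1.getD 0, i.2)

theorem measurable_ext0 : Measurable (ext0 : MConf D → OConf D) :=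
  measurable_pi_lambda _ fun _ => measurable_pi_apply _

theorem ext0_oo (c : MConf D) (x : Site D) (j : ℕ) : ext0 c (oo x, j) = c (x, j) := by
  unfold ext0
  rw [oo_getD]

theorem oent_ext0 (c : MConf D) (x : Site D) (j : ℕ) : oent 0 (ext0 c) (oo x) j = ment c x j := by
  unfold oent ment
  rw [oo_getD]
  congr 1
  exact Finset.sum_congr rfl fun i _ => by rw [ext0_oo]

theorem lintegral_ext0 (w α : Set.Ioo (0 : ℝ) 1) [NeZero D] {F : Set (Site D)} (hF : (0 : Site D) ∉ F) (n : ℕ) :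
    ∫⁻ c, NN F 0 n (ext0 c) ∂MQ w α D = ∫⁻ c, NN F 0 n c ∂OQ w α D := by
  have hinj : Function.Injective fun p : Site D × ℕ => ((oo p.1, p.2) : Ix D) := by
    rintro ⟨x, i⟩ ⟨y, j⟩ h
    simp only [Prod.mk.injEq] at h
    have h1 := congrArg (fun o => o.getD 0) h.1
    simp only [oo_getD] at h1
    rw [h1, h.2]
  have h1 := lintegral_reindex (mcLaw w α D) hinj (g := fun c : MConf D => NN F 0 n (ext0 c))
    ((measurable_NN F 0 n).comp measurable_ext0)
  unfold MQ OQ
  rw [← h1]
  refine lintegral_congr fun c => NN_congr fun e he => ?_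
  obtain ⟨o, j⟩ := e
  cases o with
  | none =>
    show c (oo ((none : Option (Site D)).getD 0), j) = c (none, j)
    rw [Option.getD_none, oo_zero]
  | some x =>
    have hx : x ≠ 0 := by
      rintro rfl
      exact hF (he _ rfl)
    show c (oo ((some x).getD 0), j) = c (some x, j)
    rw [Option.getD_some, oo_ne hx]

theorem actM_ent {c : MConf D} {x : Site D} (h : ActM c x) : ∃ n, Ent {0}ᶜ 0 (ext0 c) n (oo x, 0) := by
  induction h with
  | start => exact ⟨0, by rw [oo_zero]; exact Ent.src _⟩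
  | visit x j h _ hh ih =>
    obtain ⟨n, hn⟩ := ih
    have h1 : Ent {0}ᶜ 0 (ext0 c) (n + j) (oo x, j) := by
      clear hh
      induction j with
      | zero => exact hn
      | succ j ih => exact Ent.cont _ _ _ ih
    by_cases hy : ment c x j + h = 0
    · exact ⟨0, by rw [hy, oo_zero]; exact Ent.src _⟩
    · refine ⟨n + j, ?_⟩
      rw [oo_ne hy]
      refine Ent.wake _ _ _ h1 hy ⟨h, ?_, ?_⟩
      · rw [ext0_oo]
        exact hh
      · simp only
        rw [oent_ext0]

theorem exists_exhaustion : ∃ G : ℕ → Finset (Site D), Monotone G ∧ (∀ k, (0 : Site D) ∉ G k) ∧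
    ∀ x : Site D, x ≠ 0 → ∃ k, x ∈ G k := by
  obtain ⟨f, hf⟩ := exists_injective_nat (Site D)
  have hfin : ∀ k : ℕ, {x : Site D | f x < k ∧ x ≠ 0}.Finite := by
    intro k
    refine ((Set.finite_Iio k).preimage hf.injOn).subset ?_
    intro x hx
    exact hx.1
  refine ⟨fun k => (hfin k).toFinset, ?_, ?_, ?_⟩
  · intro a b hab x hx
    rw [Set.Finite.mem_toFinset] at hx ⊢
    exact ⟨hx.1.trans_le hab, hx.2⟩
  · intro k hk
    rw [Set.Finite.mem_toFinset] at hk
    exact hk.2 rfl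
  · intro x hx
    refine ⟨f x + 1, ?_⟩
    rw [Set.Finite.mem_toFinset]
    exact ⟨Nat.lt_succ_self _, hx⟩

theorem ent_exhaustion {G : ℕ → Finset (Site D)} (hG : Monotone G) (hG1 : ∀ x : Site D, x ≠ 0 → ∃ k, x ∈ G k)
    {c : OConf D} {z : Site D} {n : ℕ} {e : Ix D} (h : Ent {0}ᶜ z c n e) : ∃ k, Ent (↑(G k) : Set (Site D)) z c k e := by
  induction h with
  | src n => exact ⟨0, Ent.src _⟩
  | cont n o j _ ih =>
    obtain ⟨k, hk⟩ := ih
    exact ⟨k + 1, Ent.mono (Ent.cont _ _ _ hk) (Finset.coe_subset.2 (hG (Nat.le_succ k))) le_rfl⟩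
  | wake n e y _ hy hv ih =>
    obtain ⟨k, hk⟩ := ih
    obtain ⟨k', hk'⟩ := hG1 y hy
    refine ⟨max k k', Ent.wake _ _ _ (hk.mono (Finset.coe_subset.2 (hG (le_max_left _ _))) (le_max_left _ _)) ?_ hv⟩
    exact Finset.mem_coe.2 (hG (le_max_right _ _) hk')

/-- If the number of cells which visit the origin is finite, the number of visits is finite. -/
theorem finite_visM {G : ℕ → Finset (Site D)} (hG : Monotone G) (hG1 : ∀ x : Site D, x ≠ 0 → ∃ k, x ∈ G k)
    {c : MConf D} (h : (⨆ k, NN (↑(G k) : Set (Site D)) 0 k (ext0 c)) ≠ ⊤) : (visM c).Finite := by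
  have hT : {e : Ix D | (∃ k, Ent (↑(G k) : Set (Site D)) 0 (ext0 c) k e) ∧ OVis 0 (ext0 c) e 0}.Finite := by
    have h1 : ∑' e : Ix D, ind ((∃ k, Ent (↑(G k) : Set (Site D)) 0 (ext0 c) k e) ∧ OVis 0 (ext0 c) e 0) ≠ ⊤ := by
      refine ne_top_of_le_ne_top h ?_
      rw [ENNReal.tsum_eq_iSup_sum]
      refine iSup_le fun s => ?_
      have h2 : ∃ k, ∀ e ∈ s, (∃ k, Ent (↑(G k) : Set (Site D)) 0 (ext0 c) k e) →
          Ent (↑(G k) : Set (Site D)) 0 (ext0 c) k e := by
        induction s using Finset.induction_on with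
        | empty => exact ⟨0, fun e he => absurd he (Finset.notMem_empty e)⟩
        | insert a s _ ih =>
          obtain ⟨k, hk⟩ := ih
          by_cases ha : ∃ k, Ent (↑(G k) : Set (Site D)) 0 (ext0 c) k a
          · obtain ⟨k', hk'⟩ := ha
            refine ⟨max k k', fun e he h' => ?_⟩
            rcases Finset.mem_insert.1 he with rfl | he
            · exact hk'.mono (Finset.coe_subset.2 (hG (le_max_right _ _))) (le_max_right _ _)
            · exact (hk e he h').mono (Finset.coe_subset.2 (hG (le_max_left _ _))) (le_max_left _ _)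
          · refine ⟨k, fun e he h' => ?_⟩
            rcases Finset.mem_insert.1 he with rfl | he
            · exact absurd h' ha
            · exact hk e he h'
      obtain ⟨k, hk⟩ := h2
      refine le_trans ?_ (le_iSup _ k)
      refine le_trans (Finset.sum_le_sum fun e he => ?_) (ENNReal.sum_le_tsum s)
      exact ind_mono fun h => ⟨hk e he h.1, h.2⟩
    refine (ENNReal.finite_const_le_of_tsum_ne_top h1 one_ne_zero).subset fun e he => ?_
    exact le_of_eq (ind_true he).symm
  refine (hT.biUnion fun e _ => ((Set.finite_Iic ((ext0 c) e).length).image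
    fun i : ℕ => ((e.1.getD 0, e.2, i) : Site D × ℕ × ℕ))).subset ?_
  rintro ⟨x, j, i⟩ ⟨h1, h2, h3⟩
  simp only at h1 h2 h3
  rw [Set.mem_iUnion₂]
  obtain ⟨n, hn⟩ := actM_ent h1
  have h4 : Ent {0}ᶜ 0 (ext0 c) (n + j) (oo x, j) := by
    clear h2 h3
    induction j with
    | zero => exact hn
    | succ j ih => exact Ent.cont _ _ _ ih
  refine ⟨(oo x, j), ⟨ent_exhaustion hG hG1 h4, mdsp ((c (x, j)).take i), ?_, ?_⟩, i, ?_, ?_⟩
  · rw [ext0_oo]
    exact ⟨i, h2, rfl⟩
  · simp only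
    rw [oent_ext0]
    exact h3
  · rw [ext0_oo]
    exact h2
  · simp only [oo_getD]

/-- **Transience for `m(s) < 1`.** -/
theorem trans (w α : Set.Ioo (0 : ℝ) 1) (D : ℕ) [NeZero D] {s : ℝ} (hs : 0 < s) (h : mfunM w α D s < 1) :
    ∀ᵐ c ∂MQ w α D, (visM c).Finite := by
  obtain ⟨K, hK, hb⟩ := exists_bound w α D hs h
  obtain ⟨G, hG, hG0, hG1⟩ := exists_exhaustion (D := D)
  have hmono : Monotone fun (k : ℕ) (c : MConf D) => NN (↑(G k) : Set (Site D)) 0 k (ext0 c) := by
    intro a b hab c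
    refine ENNReal.tsum_le_tsum fun e => ind_mono fun h => ⟨h.1.mono (Finset.coe_subset.2 (hG hab)) hab, h.2⟩
  have hm : ∀ k : ℕ, Measurable fun c : MConf D => NN (↑(G k) : Set (Site D)) 0 k (ext0 c) :=
    fun k => (measurable_NN _ 0 k).comp measurable_ext0
  have h1 : ∫⁻ c, ⨆ k, NN (↑(G k) : Set (Site D)) 0 k (ext0 c) ∂MQ w α D ≤ K := by
    rw [lintegral_iSup hm hmono]
    refine iSup_le fun k => ?_
    rw [lintegral_ext0 w α (fun h => hG0 k (Finset.mem_coe.1 h)) k]
    refine (NN_bound w α hs k (G k) 0).trans ?_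
    rw [Prod.fst_zero, zpow_zero, ENNReal.ofReal_one, mul_one]
    exact hb k
  have h2 : ∀ᵐ c ∂MQ w α D, (⨆ k, NN (↑(G k) : Set (Site D)) 0 k (ext0 c)) < ⊤ :=
    ae_lt_top (Measurable.iSup hm) (ne_top_of_le_ne_top hK h1)
  filter_upwards [h2] with c hc
  exact finite_visM hG hG1 hc.ne

end FDr.MT
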