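import Pool.Agent.Lib.MP_e029a2_pr.M.UD

/-!
# The columns of the process with macro cells: the mean of the exits
-/

set_option autoImplicit false

namespace FDr.MT

open MeasureTheory ProbabilityTheory
open scoped ENNReal
open FDr.M

variable (w α : Set.Ioo (0 : ℝ) 1)

/-- the factor of a step -/
theorem vec_pow {s : ℝ} (hs : 0 < s) (a : MC 1) :
    ENNReal.ofReal (s ^ (mvec a).1) = ENNReal.ofReal s⁻¹ * (a.map fun x => ENNReal.ofReal (s ^ (vec (mw x)).1)).prod := by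
  have h1 : (mvec a).1 = -1 + (mdsp a).1 := by
    unfold mvec
    rw [Prod.fst_add]
    ring
  rw [h1, ofReal_zpow_add hs, zpow_neg_one]
  congr 1
  induction a with
  | nil =>
    rw [mdsp_nil, List.map_nil, List.prod_nil]
    simp
  | cons x a ih =>
    have h2 : (mvec a).1 = -1 + (mdsp a).1 := by
      unfold mvec
      rw [Prod.fst_add]
      ring
    rw [mdsp_cons, Prod.fst_add, ofReal_zpow_add hs, List.map_cons, List.prod_cons, ih h2]

theorem map_mul_prod (f g : MS 1 → ℝ≥0∞) (a : MC 1) :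
    (a.map f).prod * (a.map g).prod = (a.map fun x => f x * g x).prod := by
  induction a with
  | nil => simp
  | cons x a ih =>
    rw [List.map_cons, List.prod_cons, List.map_cons, List.prod_cons, List.map_cons, List.prod_cons, ← ih]
    ring

theorem kap_le : kapM w α 1 (1 / 10) ≤ ENNReal.ofReal (50 / 9 * (1 - α)) := by
  have hw := w.2.1
  have hw1 := w.2.2
  have ha := α.2.1
  have ha1 := α.2.2
  unfold kapM
  have h1 : ∀ g : MC 1 → ℝ≥0∞, ∫⁻ a, g a ∂mcLaw w α 1 = ∑' a, ENNReal.ofReal (mcW w α 1 a) * g a := by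
    intro g
    unfold mcLaw
    rw [lintegral_sum_measure]
    refine tsum_congr fun a => ?_
    rw [lintegral_smul_measure, lintegral_dirac, smul_eq_mul]
  rw [h1]
  have h2 : ∀ a : MC 1, ENNReal.ofReal (mcW w α 1 a) * ENNReal.ofReal ((1 / 10 : ℝ) ^ (mvec a).1) =
      ENNReal.ofReal (wt w α 1 (Sum.inl false)) * ENNReal.ofReal ((1 / 10 : ℝ)⁻¹) *
        (a.map fun x => ENNReal.ofReal (mwt w α 1 x) * ENNReal.ofReal ((1 / 10 : ℝ) ^ (vec (mw x)).1)).prod := by
    intro a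
    rw [mcW_ofReal, vec_pow (by norm_num), ← map_mul_prod]
    ring
  rw [tsum_congr h2, ENNReal.tsum_mul_left, tsum_list, ENNReal.tsum_geometric]
  have h3 : ∑ x : MS 1, ENNReal.ofReal (mwt w α 1 x) * ENNReal.ofReal ((1 / 10 : ℝ) ^ (vec (mw x)).1) =
      ENNReal.ofReal (w * (1 + α) / 20 + (1 - w)) := by
    rw [Fintype.sum_option]
    have h4 : ∀ d : Dir 1, ENNReal.ofReal (mwt w α 1 (some d)) *
        ENNReal.ofReal ((1 / 10 : ℝ) ^ (vec (mw (some d : MS 1))).1) = ENNReal.ofReal ((1 - w) / 2) := by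
      intro d
      rw [vec_some, mwt_some]
      simp
    rw [Finset.sum_congr rfl fun d _ => h4 d, Finset.sum_const, Finset.card_univ, Fintype.card_prod,
      Fintype.card_fin, Fintype.card_bool, one_mul, vec_none]
    have h5 : mwt (w : ℝ) α 1 none = w * (1 + α) / 2 := rfl
    rw [h5, two_nsmul, ← ENNReal.ofReal_add (by linarith) (by linarith), ← ENNReal.ofReal_mul (by positivity),
      ← ENNReal.ofReal_add (by positivity) (by linarith)]
    congr 1
    norm_num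
    ring
  rw [h3]
  have h6 : 0 < (w : ℝ) - w * (1 + α) / 20 := by nlinarith
  have h7 : (1 : ℝ≥0∞) - ENNReal.ofReal (w * (1 + α) / 20 + (1 - w)) = ENNReal.ofReal (w - w * (1 + α) / 20) := by
    rw [← ENNReal.ofReal_one, ← ENNReal.ofReal_sub _ (by
      have : 0 ≤ (w : ℝ) * (1 + α) / 20 := by positivity
      linarith)]
    congr 1
    ring
  rw [h7, ← ENNReal.ofReal_mul (wt_pos w.2 α.2 1 _).le, ← ENNReal.ofReal_inv_of_pos h6, ← ENNReal.ofReal_mul (by
    have := (wt_pos w.2 α.2 1 (Sum.inl false)).le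
    positivity)]
  refine ENNReal.ofReal_le_ofReal ?_
  have h8 : wt (w : ℝ) α 1 (Sum.inl false) = w * (1 - α) / 2 := rfl
  rw [h8, ← div_eq_mul_inv, div_le_iff₀ h6]
  have h9 : 0 ≤ (w : ℝ) * (1 - α) := mul_nonneg hw.le (by linarith)
  have h10 : (w : ℝ) * (9 / 10) ≤ w - w * (1 + α) / 20 := by nlinarith
  have h11 : 0 ≤ 50 / 9 * (1 - (α : ℝ)) := by linarith
  have h12 := mul_le_mul_of_nonneg_left h10 h11
  refine le_trans (le_of_eq ?_) h12
  norm_num
  ring

/-- **The mean is small.** -/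
theorem mfun_lt {r : ℝ} (hr0 : 0 < r) (hr1 : r < 1) (hr : (1 - w) / 2 * (1 + r ^ 2) ≤ r) {k : ℕ}
    (hk : r ^ (k + 1) / (1 - r) ≤ (∏ j ∈ Finset.Icc 1 k, (1 - r ^ j)) / 2)
    (h8 : 8 * (1 - (α : ℝ)) * (1 + 2 * (3 + 8 * k / (∏ j ∈ Finset.Icc 1 k, (1 - r ^ j)) + 2 / (1 - r))) < 1) :
    mfunM w α 1 (1 / 10) < 1 := by
  have ha1 := α.2.2
  unfold mfunM
  have h1 := kap_le w α
  have h2 := Ug_le w α hr0 hr1 hr hk
  obtain ⟨A, hA⟩ : ∃ A, A = 8 * k / (∏ j ∈ Finset.Icc 1 k, (1 - r ^ j)) + 2 / (1 - r) := ⟨_, rfl⟩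
  have hr2 : 0 < 1 - r := by linarith
  have h3 : 2 ≤ A := by
    rw [hA]
    have h4 : 2 ≤ 2 / (1 - r) := by
      rw [le_div_iff₀ hr2]
      linarith
    have h5 : 0 ≤ ∏ j ∈ Finset.Icc 1 k, (1 - r ^ j) := Finset.prod_nonneg fun j _ => by
      have := pow_le_one₀ (n := j) hr0.le hr1.le
      linarith
    have h6 : 0 ≤ 8 * (k : ℝ) / (∏ j ∈ Finset.Icc 1 k, (1 - r ^ j)) := by positivity
    linarith
  have h4 : 5 + 8 * k / (∏ j ∈ Finset.Icc 1 k, (1 - r ^ j)) + 2 / (1 - r) = 5 + A := by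
    rw [hA]
    ring
  have h5 : 3 + 8 * k / (∏ j ∈ Finset.Icc 1 k, (1 - r ^ j)) + 2 / (1 - r) = 3 + A := by
    rw [hA]
    ring
  rw [h4] at h2
  rw [h5] at h8
  calc kapM w α 1 (1 / 10) * (1 + UgM w α 1 (1 / 10))
      ≤ ENNReal.ofReal (50 / 9 * (1 - α)) * (ENNReal.ofReal 1 + ENNReal.ofReal (2 * (5 + A))) := by
        rw [ENNReal.ofReal_one]
        gcongr
    _ = ENNReal.ofReal (50 / 9 * (1 - α) * (1 + 2 * (5 + A))) := by
        rw [← ENNReal.ofReal_add (by norm_num) (by positivity), ← ENNReal.ofReal_mul (by linarith)]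
    _ < 1 := by
        rw [← ENNReal.ofReal_one, ENNReal.ofReal_lt_ofReal_iff (by norm_num)]
        refine lt_of_le_of_lt ?_ h8
        have h6 : 50 / 9 * (1 + 2 * (5 + A)) ≤ 8 * (1 + 2 * (3 + A)) := by linarith
        have h7 := mul_le_mul_of_nonneg_right h6 (by linarith : 0 ≤ 1 - (α : ℝ))
        linarith

end FDr.MT
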