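import Pool.Agent.Lib.MP_e029a2_pr.M.One

/-!
# The law of the steps of all the frogs, from the macro cells
-/

set_option autoImplicit false

namespace FDr.M

open MeasureTheory ProbabilityTheory
open scoped ENNReal

private theorem MAll_eq (D : ℕ) : (mall (D := D)) =
    (MeasurableEquiv.curry (Site D) ℕ (Stp D)).symm ∘ (fun (F : Site D → ℕ → MC D) (x : Site D) (n : ℕ) => mstp (F x) n) ∘
      (MeasurableEquiv.curry (Site D) ℕ (MC D)) := rfl

private theorem MAll_meas (D : ℕ) [NeZero D] :
    Measurable (fun (F : Site D → ℕ → MC D) (x : Site D) (n : ℕ) => mstp (F x) n) :=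
  measurable_pi_lambda _ fun x => (mstp_meas D).comp (measurable_pi_apply x)

private theorem MAll_congr {ι X : Type*} [MeasurableSpace X] {μ ν : ι → Measure X}
    (hμ : ∀ i, IsProbabilityMeasure (μ i)) (hν : ∀ i, IsProbabilityMeasure (ν i)) (h : μ = ν) :
    Measure.infinitePi μ = Measure.infinitePi ν := by
  subst h
  rfl

theorem mall_meas (D : ℕ) [NeZero D] : Measurable (mall (D := D)) := by
  rw [MAll_eq]
  exact (MeasurableEquiv.measurable _).comp ((MAll_meas D).comp (MeasurableEquiv.measurable _))

theorem mall_law (w α : Set.Ioo (0 : ℝ) 1) (D : ℕ) [NeZero D] :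
    (MQ w α D).map mall = Measure.infinitePi (fun _ : Site D × ℕ => stepLaw w α D) := by
  rw [MAll_eq, ← Measure.map_map (MeasurableEquiv.measurable _) ((MAll_meas D).comp (MeasurableEquiv.measurable _)),
    ← Measure.map_map (MAll_meas D) (MeasurableEquiv.measurable _)]
  have h1 : (MQ w α D).map (MeasurableEquiv.curry (Site D) ℕ (MC D)) =
      Measure.infinitePi fun _ : Site D => Measure.infinitePi fun _ : ℕ => mcLaw w α D :=
    Measure.infinitePi_map_curry (fun (_ : Site D) (_ : ℕ) => mcLaw w α D)
  rw [h1]
  have hp : ∀ _ : Site D, IsProbabilityMeasure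
      ((Measure.infinitePi fun _ : ℕ => mcLaw w α D).map (fun a n => mstp a n)) := fun _ =>
    Measure.isProbabilityMeasure_map (mstp_meas D).aemeasurable
  have h2 : (Measure.infinitePi fun _ : Site D => Measure.infinitePi fun _ : ℕ => mcLaw w α D).map
      (fun (F : Site D → ℕ → MC D) (x : Site D) (n : ℕ) => mstp (F x) n) =
      Measure.infinitePi fun _ : Site D => (Measure.infinitePi fun _ : ℕ => mcLaw w α D).map (fun a n => mstp a n) :=
    Measure.infinitePi_map_pi (fun _ : Site D => Measure.infinitePi fun _ : ℕ => mcLaw w α D)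
      (f := fun _ a n => mstp a n) fun _ => mstp_meas D
  rw [h2]
  have h3 : (Measure.infinitePi fun _ : Site D => (Measure.infinitePi fun _ : ℕ => mcLaw w α D).map
      (fun a n => mstp a n)) = Measure.infinitePi fun _ : Site D => Measure.infinitePi fun _ : ℕ => stepLaw w α D :=
    MAll_congr hp (fun _ => inferInstance) (funext fun _ => mstp_law w α D)
  rw [h3]
  exact Measure.infinitePi_map_curry_symm (fun (_ : Site D) (_ : ℕ) => stepLaw w α D)

end FDr.M
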