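import Pool.Agent.Lib.MP_e029a2_pr.MLaw
import Pool.Agent.Lib.MP_e029a2_pr.MMeas

/-!
# Macro cells

A macro cell: the steps of a frog up to (and including) the next step `-e_1`.  The steps before the last one are
`none` (the step `e_1`) and `some d` (a step in the direction `d`).
-/

set_option autoImplicit false

namespace FDr.M

open MeasureTheory ProbabilityTheory
open scoped ENNReal

/-- the steps other than `-e_1` -/
abbrev MS (D : ℕ) : Type := Option (Dir D)

/-- a macro cell: the steps before the next step `-e_1` -/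
abbrev MC (D : ℕ) : Type := List (MS D)

instance (D : ℕ) : MeasurableSpace (MS D) := ⊤
instance (D : ℕ) : MeasurableSpace (MC D) := ⊤

/-- the step -/
def mw {D : ℕ} : MS D → Stp D
  | none => Sum.inl true
  | some d => Sum.inr d

/-- the word of a macro cell -/
def mword {D : ℕ} (a : MC D) : List (Stp D) := a.map mw ++ [Sum.inl false]

/-- the steps of a frog from its macro cells -/
def mstp {D : ℕ} (a : ℕ → MC D) (n : ℕ) : Stp D :=
  (((List.range (n + 1)).flatMap fun j => mword (a j))[n]?).getD (Sum.inl true)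

/-- the weight of a step -/
noncomputable def mwt (w α : ℝ) (D : ℕ) (x : MS D) : ℝ := wt w α D (mw x)

/-- the weight of a macro cell -/
noncomputable def mcW (w α : ℝ) (D : ℕ) (a : MC D) : ℝ := wt w α D (Sum.inl false) * (a.map (mwt w α D)).prod

/-- the law of a macro cell -/
noncomputable def mcLaw (w α : Set.Ioo (0 : ℝ) 1) (D : ℕ) : Measure (MC D) :=
  Measure.sum fun a => ENNReal.ofReal (mcW w α D a) • Measure.dirac a

/-- the sum of the vectors of the steps -/
def mdsp {D : ℕ} (a : MC D) : Site D := (a.map fun x => vec (mw x)).sum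

/-- the positions which are visited, relative to the starting point -/
def mvis {D : ℕ} (a : MC D) : Set (Site D) := {h | ∃ i, i ≤ a.length ∧ mdsp (a.take i) = h}

/-- the vector of a macro cell -/
def mvec {D : ℕ} (a : MC D) : Site D := mdsp a + (-1, 0)

/-- configurations of macro cells -/
abbrev MConf (D : ℕ) : Type := Site D × ℕ → MC D

/-- the steps of all the frogs -/
def mall {D : ℕ} (c : MConf D) : SConf D := fun p => mstp (fun j => c (p.1, j)) p.2

/-- the number of steps before the `j`-th macro cell -/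
def moff {D : ℕ} (a : ℕ → MC D) (j : ℕ) : ℕ := ∑ t ∈ Finset.range j, ((a t).length + 1)

/-- the point where the frog `x` starts its `j`-th macro cell -/
def ment {D : ℕ} (c : MConf D) (x : Site D) (j : ℕ) : Site D := x + ∑ i ∈ Finset.range j, mvec (c (x, i))

/-- the frogs which are activated, in the language of macro cells -/
inductive ActM {D : ℕ} (c : MConf D) : Site D → Prop
  | start : ActM c 0
  | visit (x : Site D) (j : ℕ) (h : Site D) : ActM c x → h ∈ mvis (c (x, j)) → ActM c (ment c x j + h)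

/-- the visits to the origin, in the language of macro cells -/
def visM {D : ℕ} (c : MConf D) : Set (Site D × ℕ × ℕ) :=
  {p | ActM c p.1 ∧ p.2.2 ≤ (c (p.1, p.2.1)).length ∧ ment c p.1 p.2.1 + mdsp ((c (p.1, p.2.1)).take p.2.2) = 0}

/-! ### The law of a macro cell is a probability measure -/

theorem wt_pos {w α : ℝ} (hw : w ∈ Set.Ioo (0 : ℝ) 1) (ha : α ∈ Set.Ioo (0 : ℝ) 1) (D : ℕ) [NeZero D] (s : Stp D) :
    0 < wt w α D s := by
  have h1 := hw.1
  have h2 := hw.2
  have h3 := ha.1
  have h4 := ha.2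
  have h5 : 0 < 1 - α := by linarith
  have h6 : 0 < 1 + α := by linarith
  have h7 : 0 < 1 - w := by linarith
  have hD : (0 : ℝ) < D := Nat.cast_pos.2 (Nat.pos_of_ne_zero (NeZero.ne D))
  rcases s with b | p
  · cases b
    · show 0 < w * (1 - α) / 2
      positivity
    · show 0 < w * (1 + α) / 2
      positivity
  · show 0 < (1 - w) / (2 * D)
    positivity

theorem mwt_pos {w α : ℝ} (hw : w ∈ Set.Ioo (0 : ℝ) 1) (ha : α ∈ Set.Ioo (0 : ℝ) 1) (D : ℕ) [NeZero D] (x : MS D) :
    0 < mwt w α D x := wt_pos hw ha D (mw x)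

theorem mwt_sum (w α : ℝ) (D : ℕ) [NeZero D] : ∑ x : MS D, mwt w α D x = 1 - wt w α D (Sum.inl false) := by
  rw [Fintype.sum_option]
  have h1 : ∀ d : Dir D, mwt w α D (some d) = (1 - w) / (2 * D) := fun _ => rfl
  have h2 : mwt w α D none = w * (1 + α) / 2 := rfl
  have h3 : wt w α D (Sum.inl false) = w * (1 - α) / 2 := rfl
  rw [Finset.sum_congr rfl fun d _ => h1 d, h2, h3, Finset.sum_const, Finset.card_univ, Fintype.card_prod,
    Fintype.card_fin, Fintype.card_bool, nsmul_eq_mul]
  have hD : (D : ℝ) ≠ 0 := Nat.cast_ne_zero.2 (NeZero.ne D)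
  push_cast
  field_simp
  ring

/-- sums over lists by length -/
theorem tsum_list {A : Type} [Fintype A] (f : A → ℝ≥0∞) : ∑' l : List A, (l.map f).prod = ∑' n : ℕ, (∑ a, f a) ^ n := by
  rw [← (List.equivSigmaTuple (α := A)).symm.tsum_eq]
  rw [ENNReal.tsum_sigma']
  refine tsum_congr fun n => ?_
  classical
  rw [tsum_fintype]
  have h1 : ∀ v : Fin n → A, (((List.equivSigmaTuple (α := A)).symm ⟨n, v⟩).map f).prod = ∏ i, f (v i) := by
    intro v
    simp only [List.equivSigmaTuple, Equiv.coe_fn_symm_mk]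
    rw [List.map_ofFn, List.prod_ofFn]
    rfl
  rw [Finset.sum_congr rfl fun v _ => h1 v]
  have h2 := (Finset.prod_univ_sum (fun _ : Fin n => (Finset.univ : Finset A)) (fun _ b => f b)).symm
  rw [Fintype.piFinset_univ] at h2
  rw [h2, Finset.prod_const, Finset.card_univ, Fintype.card_fin]

theorem mc_one (w α : Set.Ioo (0 : ℝ) 1) (D : ℕ) (a : MC D) : mcLaw w α D {a} = ENNReal.ofReal (mcW w α D a) := by
  rw [mcLaw, Measure.sum_apply _ (measurableSet_singleton _), tsum_eq_single a]
  · rw [Measure.smul_apply, Measure.dirac_apply_of_mem (Set.mem_singleton _), smul_eq_mul, mul_one]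
  · intro l hl
    rw [Measure.smul_apply, Measure.dirac_apply' _ (measurableSet_singleton _), Set.indicator_of_notMem, smul_zero]
    exact fun h => hl (Set.mem_singleton_iff.1 h)

theorem mcW_ofReal (w α : Set.Ioo (0 : ℝ) 1) (D : ℕ) [NeZero D] (a : MC D) :
    ENNReal.ofReal (mcW w α D a) =
      ENNReal.ofReal (wt w α D (Sum.inl false)) * (a.map fun x => ENNReal.ofReal (mwt w α D x)).prod := by
  unfold mcW
  rw [ENNReal.ofReal_mul (wt_pos w.2 α.2 D _).le]
  congr 1
  induction a with
  | nil => simp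
  | cons b l ih =>
    rw [List.map_cons, List.prod_cons, List.map_cons, List.prod_cons, ENNReal.ofReal_mul (mwt_pos w.2 α.2 D _).le, ih]

instance mcLaw_prob (w α : Set.Ioo (0 : ℝ) 1) (D : ℕ) [NeZero D] : IsProbabilityMeasure (mcLaw w α D) := by
  constructor
  unfold mcLaw
  rw [Measure.sum_apply _ MeasurableSet.univ]
  have h1 : ∀ a : MC D, (ENNReal.ofReal (mcW w α D a) • Measure.dirac a : Measure (MC D)) Set.univ =
      ENNReal.ofReal (wt w α D (Sum.inl false)) * (a.map fun x => ENNReal.ofReal (mwt w α D x)).prod := by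
    intro a
    rw [Measure.smul_apply, Measure.dirac_apply_of_mem (Set.mem_univ _), smul_eq_mul, mul_one, mcW_ofReal]
  have h0 := wt_pos w.2 α.2 D (Sum.inl false)
  have h2 : wt (w : ℝ) α D (Sum.inl false) < 1 := by
    show (w : ℝ) * (1 - α) / 2 < 1
    have h3 : (w : ℝ) * (1 - α) ≤ 1 := mul_le_one₀ w.2.2.le (by linarith [α.2.2]) (by linarith [α.2.1])
    linarith
  rw [tsum_congr h1, ENNReal.tsum_mul_left, tsum_list, ← ENNReal.ofReal_sum_of_nonneg fun x _ => (mwt_pos w.2 α.2 D x).le,
    mwt_sum, ENNReal.tsum_geometric, ENNReal.ofReal_sub _ h0.le, ENNReal.ofReal_one,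
    ENNReal.sub_sub_cancel ENNReal.one_ne_top (ENNReal.ofReal_le_one.2 h2.le)]
  exact ENNReal.mul_inv_cancel (ENNReal.ofReal_pos.2 h0).ne' ENNReal.ofReal_ne_top

/-- the law of the configurations of macro cells -/
noncomputable def MQ (w α : Set.Ioo (0 : ℝ) 1) (D : ℕ) [NeZero D] : Measure (MConf D) :=
  Measure.infinitePi fun _ => mcLaw w α D

instance MQ_prob (w α : Set.Ioo (0 : ℝ) 1) (D : ℕ) [NeZero D] : IsProbabilityMeasure (MQ w α D) := by
  unfold MQ
  infer_instance

end FDr.M
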