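import Pool.Agent.Lib.MP_e029a2_pr.M.TD

/-!
# Macro cells in dimension two: prefixes, vertical movements
-/

set_option autoImplicit false

namespace FDr.M

open MeasureTheory ProbabilityTheory
open scoped ENNReal
open FDr.TR (ind ind_true ind_false ind_mono ind_and ind_congr measurable_ind lintegral_ind)

/-! ### Displacements -/

theorem mdsp_append {D : ℕ} (a b : MC D) : mdsp (a ++ b) = mdsp a + mdsp b := by
  unfold mdsp
  rw [List.map_append, List.sum_append]

theorem mdsp_nil {D : ℕ} : mdsp ([] : MC D) = 0 := rfl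

theorem mdsp_cons {D : ℕ} (x : MS D) (a : MC D) : mdsp (x :: a) = vec (mw x) + mdsp a := by
  unfold mdsp
  rw [List.map_cons, List.sum_cons]

theorem vec_none {D : ℕ} : vec (mw (none : MS D)) = (1, 0) := rfl

theorem vec_some (d : Dir 1) : vec (mw (some d : MS 1)) = (0, fun _ => sg d.2) := by
  refine Prod.ext rfl ?_
  funext t
  show (Pi.single d.1 (sg d.2) : Fin 1 → ℤ) t = sg d.2
  rw [Subsingleton.elim t d.1, Pi.single_eq_same]

theorem vec_fst_nonneg {D : ℕ} (x : MS D) : 0 ≤ (vec (mw x)).1 := by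
  cases x with
  | none => exact zero_le_one
  | some d => exact le_rfl

theorem mdsp_fst_nonneg {D : ℕ} (a : MC D) : 0 ≤ (mdsp a).1 := by
  induction a with
  | nil => exact le_rfl
  | cons x a ih =>
    rw [mdsp_cons, Prod.fst_add]
    exact add_nonneg (vec_fst_nonneg x) ih

theorem mdsp_fst_zero {D : ℕ} (a : MC D) (h : ∀ x ∈ a, x ≠ none) : (mdsp a).1 = 0 := by
  induction a with
  | nil => rfl
  | cons x a ih =>
    rw [mdsp_cons, Prod.fst_add, ih fun y hy => h y (List.mem_cons_of_mem _ hy)]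
    cases x with
    | none => exact absurd rfl (h none List.mem_cons_self)
    | some d => rfl

theorem vert_of_fst_zero {D : ℕ} (a : MC D) (h : (mdsp a).1 = 0) : ∀ x ∈ a, x ≠ none := by
  induction a with
  | nil => exact fun x hx => absurd hx (List.not_mem_nil)
  | cons y a ih =>
    rw [mdsp_cons, Prod.fst_add] at h
    have h1 := vec_fst_nonneg y
    have h2 := mdsp_fst_nonneg a
    intro x hx
    rcases List.mem_cons.1 hx with rfl | hx
    · rintro rfl
      rw [vec_none] at h
      have h3 : (1 : ℤ) + (mdsp a).1 = 0 := h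
      omega
    · exact ih (by omega) x hx

/-- the last step `e_1` -/
theorem split_last {D : ℕ} (b : MC D) : (∀ x ∈ b, x ≠ none) ∨ ∃ l1 l3, b = l1 ++ none :: l3 ∧ ∀ x ∈ l3, x ≠ none := by
  induction b with
  | nil => exact Or.inl fun x hx => absurd hx (List.not_mem_nil)
  | cons y b ih =>
    rcases ih with h | ⟨l1, l3, h1, h2⟩
    · cases y with
      | none => exact Or.inr ⟨[], b, rfl, h⟩
      | some d =>
        refine Or.inl fun x hx => ?_
        rcases List.mem_cons.1 hx with rfl | hx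
        · simp
        · exact h x hx
    · exact Or.inr ⟨y :: l1, l3, by rw [h1]; rfl, h2⟩

/-- the vertical displacement -/
def vs (a : MC 1) : ℤ := (mdsp a).2 0

theorem vs_append (a b : MC 1) : vs (a ++ b) = vs a + vs b := by
  unfold vs
  rw [mdsp_append]
  rfl

theorem vs_cons (x : MS 1) (a : MC 1) : vs (x :: a) = (vec (mw x)).2 0 + vs a := by
  unfold vs
  rw [mdsp_cons]
  rfl

theorem vec_snd (x : MS 1) : (vec (mw x)).2 0 = 0 ∨ (vec (mw x)).2 0 = 1 ∨ (vec (mw x)).2 0 = -1 := by
  cases x with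
  | none => exact Or.inl rfl
  | some d =>
    rw [vec_some]
    obtain ⟨i, b⟩ := d
    cases b
    · exact Or.inr (Or.inr rfl)
    · exact Or.inr (Or.inl rfl)

/-- the intermediate value theorem -/
theorem ivt (a : MC 1) : ∀ m : ℤ, (0 ≤ m ∧ m ≤ vs a) ∨ (vs a ≤ m ∧ m ≤ 0) → ∃ a1 a2, a = a1 ++ a2 ∧ vs a1 = m := by
  induction a with
  | nil =>
    intro m hm
    have h1 : vs ([] : MC 1) = 0 := rfl
    rw [h1] at hm
    exact ⟨[], [], rfl, by rw [h1]; omega⟩
  | cons x a ih =>
    intro m hm
    by_cases h0 : m = 0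
    · exact ⟨[], x :: a, rfl, h0.symm⟩
    · rw [vs_cons] at hm
      obtain ⟨a1, a2, h1, h2⟩ := ih (m - (vec (mw x)).2 0) (by
        rcases vec_snd x with h3 | h3 | h3
        · rw [h3] at hm ⊢
          omega
        · rw [h3] at hm ⊢
          omega
        · rw [h3] at hm ⊢
          omega)
      refine ⟨x :: a1, a2, by rw [h1]; rfl, ?_⟩
      rw [vs_cons, h2]
      ring

/-- the cell starts with vertical steps which reach the height `m` -/
def RV (a : MC 1) (m : ℤ) : Prop := ∃ a1 a2, a = a1 ++ a2 ∧ (∀ x ∈ a1, x ≠ none) ∧ vs a1 = m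

theorem rv_of {a b : MC 1} {m : ℤ} (hb : ∀ x ∈ a, x ≠ none) (hm : (0 ≤ m ∧ m ≤ vs a) ∨ (vs a ≤ m ∧ m ≤ 0)) :
    RV (a ++ b) m := by
  obtain ⟨a1, a2, h1, h2⟩ := ivt a m hm
  refine ⟨a1, a2 ++ b, by rw [h1, List.append_assoc], fun x hx => hb x ?_, h2⟩
  rw [h1]
  exact List.mem_append_left _ hx

/-! ### Weights -/

section law

variable (w α : Set.Ioo (0 : ℝ) 1) {D : ℕ}

theorem mc_apply (S : Set (MC D)) : mcLaw w α D S = ∑' a : MC D, ENNReal.ofReal (mcW w α D a) * ind (a ∈ S) := by
  classical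
  unfold mcLaw
  rw [Measure.sum_apply _ (MeasurableSet.of_discrete)]
  refine tsum_congr fun a => ?_
  rw [Measure.smul_apply, smul_eq_mul]
  congr 1
  by_cases h : a ∈ S
  · rw [Measure.dirac_apply_of_mem h, ind_true h]
  · rw [Measure.dirac_apply' _ MeasurableSet.of_discrete, Set.indicator_of_notMem h, ind_false h]

variable [NeZero D]

theorem mc_cons (x : MS D) (B : MC D → Prop) :
    mcLaw w α D {a | ∃ l, a = x :: l ∧ B l} = ENNReal.ofReal (mwt w α D x) * mcLaw w α D {l | B l} := by
  rw [mc_apply, mc_apply, ← ENNReal.tsum_mul_left]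
  have hinj : Function.Injective fun l : MC D => x :: l := fun l l' h => (List.cons.inj h).2
  have hsup : Function.support (fun a : MC D => ENNReal.ofReal (mcW w α D a) * ind (a ∈ {a | ∃ l, a = x :: l ∧ B l})) ⊆
      Set.range fun l : MC D => x :: l := by
    intro a ha
    by_contra hno
    refine ha ?_
    show ENNReal.ofReal (mcW w α D a) * ind (a ∈ {a | ∃ l, a = x :: l ∧ B l}) = 0
    rw [ind_false, mul_zero]
    rintro ⟨l, hl, -⟩
    exact hno ⟨l, hl.symm⟩
  rw [← Function.Injective.tsum_eq hinj hsup]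
  refine tsum_congr fun l => ?_
  rw [mcW_ofReal, mcW_ofReal, List.map_cons, List.prod_cons]
  have h1 : ind ((x :: l) ∈ {a | ∃ l, a = x :: l ∧ B l}) = ind (l ∈ {l | B l}) :=
    ind_congr ⟨fun ⟨l', h1, h2⟩ => by rw [(List.cons.inj h1).2]; exact h2, fun h => ⟨l, rfl, h⟩⟩
  rw [h1]
  ring

/-- the weight of a prefix -/
noncomputable def pw (l1 : MC D) : ℝ≥0∞ := (l1.map fun x => ENNReal.ofReal (mwt w α D x)).prod

theorem mc_prefix (l1 : MC D) (B : MC D → Prop) :
    mcLaw w α D {a | ∃ l2, a = l1 ++ l2 ∧ B l2} = pw w α l1 * mcLaw w α D {l | B l} := by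
  induction l1 with
  | nil =>
    unfold pw
    rw [List.map_nil, List.prod_nil, one_mul]
    congr 1
    ext a
    exact ⟨fun ⟨l, h1, h2⟩ => by rw [List.nil_append] at h1; rw [h1]; exact h2, fun h => ⟨a, rfl, h⟩⟩
  | cons x l1 ih =>
    have h1 : {a : MC D | ∃ l2, a = x :: l1 ++ l2 ∧ B l2} = {a | ∃ l, a = x :: l ∧ ∃ l2, l = l1 ++ l2 ∧ B l2} := by
      ext a
      constructor
      · rintro ⟨l2, h1, h2⟩
        exact ⟨l1 ++ l2, h1, l2, rfl, h2⟩
      · rintro ⟨l, h1, l2, h2, h3⟩
        exact ⟨l2, by rw [h1, h2]; rfl, h3⟩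
    rw [h1, mc_cons w α x fun l => ∃ l2, l = l1 ++ l2 ∧ B l2, ih]
    unfold pw
    rw [List.map_cons, List.prod_cons, mul_assoc]

end law

/-! ### The probability to reach a height -/

/-- reach the height `m` after at most `n` vertical steps -/
def RVn : ℕ → ℤ → MC 1 → Prop
  | 0, m => fun _ => m = 0
  | n + 1, m => fun a => m = 0 ∨ ∃ d l, a = some d :: l ∧ RVn n (m - sg d.2) l

theorem rv_rvn {a : MC 1} {m : ℤ} (h : RV a m) : ∃ n, RVn n m a := by
  obtain ⟨a1, a2, h1, h2, h3⟩ := h
  refine ⟨a1.length, ?_⟩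
  induction a1 generalizing a m with
  | nil => exact h3.symm
  | cons x a1 ih =>
    cases x with
    | none => exact absurd rfl (h2 none List.mem_cons_self)
    | some d =>
      refine Or.inr ⟨d, a1 ++ a2, h1, ?_⟩
      refine ih (a := a1 ++ a2) (m := m - sg d.2) rfl (fun y hy => h2 y (List.mem_cons_of_mem _ hy)) ?_
      rw [vs_cons, vec_some] at h3
      have h4 : sg d.2 + vs a1 = m := h3
      linarith

theorem rvn_succ {n : ℕ} : ∀ {m : ℤ} {a : MC 1}, RVn n m a → RVn (n + 1) m a := by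
  induction n with
  | zero => exact fun h => Or.inl h
  | succ n ih =>
    rintro m a (h | ⟨d, l, h1, h2⟩)
    · exact Or.inl h
    · exact Or.inr ⟨d, l, h1, ih h2⟩

theorem mwt_some (w α : ℝ) (d : Dir 1) : mwt w α 1 (some d) = (1 - w) / 2 := by
  show (1 - w) / (2 * ((1 : ℕ) : ℝ)) = (1 - w) / 2
  rw [Nat.cast_one, mul_one]

theorem rvn_prob (w α : Set.Ioo (0 : ℝ) 1) {r : ℝ} (hr0 : 0 < r) (hr : (1 - w) / 2 * (1 + r ^ 2) ≤ r)
    (n : ℕ) (m : ℤ) : mcLaw w α 1 {a | RVn n m a} ≤ ENNReal.ofReal (r ^ m.natAbs) := by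
  have hw : 0 ≤ 1 - (w : ℝ) := by linarith [w.2.2]
  induction n generalizing m with
  | zero =>
    by_cases hm : m = 0
    · rw [hm, Int.natAbs_zero, pow_zero, ENNReal.ofReal_one]
      exact prob_le_one
    · have h1 : {a : MC 1 | RVn 0 m a} = ∅ := Set.eq_empty_iff_forall_notMem.2 fun a ha => hm ha
      rw [h1, measure_empty]
      exact zero_le
  | succ n ih =>
    by_cases hm : m = 0
    · rw [hm, Int.natAbs_zero, pow_zero, ENNReal.ofReal_one]
      exact prob_le_one
    · have h1 : {a : MC 1 | RVn (n + 1) m a} ⊆ ⋃ b : Bool, {a | ∃ l, a = some (0, b) :: l ∧ RVn n (m - sg b) l} := by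
        rintro a (h | ⟨⟨i, b⟩, l, h2, h3⟩)
        · exact absurd h hm
        · refine Set.mem_iUnion.2 ⟨b, l, ?_, h3⟩
          rw [h2, Subsingleton.elim i 0]
      have hb : ∀ b : Bool, mcLaw w α 1 {a | ∃ l, a = some (0, b) :: l ∧ RVn n (m - sg b) l} ≤
          ENNReal.ofReal ((1 - w) / 2 * r ^ (m - sg b).natAbs) := by
        intro b
        rw [mc_cons w α (some (0, b)) fun l => RVn n (m - sg b) l, mwt_some, ENNReal.ofReal_mul (by linarith)]
        exact mul_le_mul_right (ih _) _
      obtain ⟨j, hj⟩ : ∃ j : ℕ, m.natAbs = j + 1 := ⟨m.natAbs - 1, by omega⟩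
      calc mcLaw w α 1 {a | RVn (n + 1) m a}
          ≤ ∑ b : Bool, mcLaw w α 1 {a | ∃ l, a = some (0, b) :: l ∧ RVn n (m - sg b) l} :=
            (measure_mono h1).trans (measure_iUnion_fintype_le _ _)
        _ ≤ ∑ b : Bool, ENNReal.ofReal ((1 - w) / 2 * r ^ (m - sg b).natAbs) := Finset.sum_le_sum fun b _ => hb b
        _ = ENNReal.ofReal ((1 - w) / 2 * (r ^ (m - sg true).natAbs + r ^ (m - sg false).natAbs)) := by
            rw [Fintype.sum_bool, ← ENNReal.ofReal_add (by positivity) (by positivity)]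
            congr 1
            ring
        _ ≤ ENNReal.ofReal (r ^ m.natAbs) := by
            refine ENNReal.ofReal_le_ofReal ?_
            have h2 : r ^ (m - sg true).natAbs + r ^ (m - sg false).natAbs = r ^ j + r ^ (j + 2) := by
              have e1 : sg true = 1 := rfl
              have e2 : sg false = -1 := rfl
              rw [e1, e2]
              rcases lt_or_gt_of_ne hm with h | h
              · have h3 : (m - 1).natAbs = j + 2 := by omega
                have h4 : (m - -1).natAbs = j := by omega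
                rw [h3, h4, add_comm]
              · have h3 : (m - 1).natAbs = j := by omega
                have h4 : (m - -1).natAbs = j + 2 := by omega
                rw [h3, h4]
            rw [h2, hj]
            have h3 := mul_le_mul_of_nonneg_left hr (pow_nonneg hr0.le j)
            calc (1 - (w : ℝ)) / 2 * (r ^ j + r ^ (j + 2)) = r ^ j * ((1 - w) / 2 * (1 + r ^ 2)) := by ring
              _ ≤ r ^ j * r := h3
              _ = r ^ (j + 1) := (pow_succ r j).symm

/-- **The probability to reach a height.** -/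
theorem rv_prob (w α : Set.Ioo (0 : ℝ) 1) {r : ℝ} (hr0 : 0 < r) (hr : (1 - w) / 2 * (1 + r ^ 2) ≤ r)
    (m : ℤ) : mcLaw w α 1 {a | RV a m} ≤ ENNReal.ofReal (r ^ m.natAbs) := by
  have h1 : {a : MC 1 | RV a m} ⊆ ⋃ n : ℕ, {a | RVn n m a} := by
    intro a ha
    obtain ⟨n, hn⟩ := rv_rvn ha
    exact Set.mem_iUnion.2 ⟨n, hn⟩
  have hmono : Monotone fun n : ℕ => {a : MC 1 | RVn n m a} := monotone_nat_of_le_succ fun n a ha => rvn_succ ha
  refine (measure_mono h1).trans ?_
  rw [hmono.measure_iUnion]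
  exact iSup_le fun n => rvn_prob w α hr0 hr n m

/-! ### The entries into a column -/

/-- the prefixes which end with the step `e_1` in the column number `x` -/
theorem entry_unique {D : ℕ} : ∀ (l1 l1' l2 l2' : MC D), l1 ++ none :: l2 = l1' ++ none :: l2' →
    (mdsp l1).1 = (mdsp l1').1 → l1 = l1' := by
  intro l1
  induction l1 with
  | nil =>
    intro l1' l2 l2' h1 h2
    cases l1' with
    | nil => rfl
    | cons y l1' =>
      have h3 := (List.cons.inj h1).1
      rw [← h3, mdsp_cons, vec_none, mdsp_nil, Prod.fst_add] at h2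
      have h4 := mdsp_fst_nonneg l1'
      have h5 : (0 : ℤ) = 1 + (mdsp l1').1 := h2
      omega
  | cons x l1 ih =>
    intro l1' l2 l2' h1 h2
    cases l1' with
    | nil =>
      have h3 := (List.cons.inj h1).1
      rw [h3, mdsp_cons, vec_none, mdsp_nil, Prod.fst_add] at h2
      have h4 := mdsp_fst_nonneg l1
      have h5 : 1 + (mdsp l1).1 = (0 : ℤ) := h2
      omega
    | cons y l1' =>
      have h3 := List.cons.inj h1
      rw [h3.1, mdsp_cons, mdsp_cons, Prod.fst_add, Prod.fst_add] at h2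
      rw [h3.1, ih l1' l2 l2' h3.2 (by linarith)]

theorem sum_pw_le (w α : Set.Ioo (0 : ℝ) 1) {D : ℕ} [NeZero D] (n : ℤ) :
    ∑' l1 : MC D, ind ((mdsp l1).1 = n) * pw w α (l1 ++ [none]) ≤ 1 := by
  classical
  have h1 : ∀ l1 : MC D, ind ((mdsp l1).1 = n) * pw w α (l1 ++ [none]) =
      mcLaw w α D (if (mdsp l1).1 = n then {a | ∃ l2, a = l1 ++ none :: l2} else ∅) := by
    intro l1
    by_cases h : (mdsp l1).1 = n
    · rw [ind_true h, one_mul, if_pos h]
      have h2 := mc_prefix w α (l1 ++ [none]) fun _ => True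
      have h3 : {l : MC D | True} = Set.univ := Set.eq_univ_of_forall fun _ => trivial
      rw [h3, measure_univ, mul_one] at h2
      rw [← h2]
      congr 1
      ext a
      constructor
      · rintro ⟨l2, h4, -⟩
        exact ⟨l2, by rw [h4, List.append_assoc]; rfl⟩
      · rintro ⟨l2, h4⟩
        exact ⟨l2, by rw [h4, List.append_assoc]; rfl, trivial⟩
    · rw [ind_false h, zero_mul, if_neg h, measure_empty]
  rw [tsum_congr h1, ← measure_iUnion]
  · exact prob_le_one
  · intro l1 l1' hne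
    show Disjoint _ _
    rw [Set.disjoint_left]
    intro a ha ha'
    by_cases h : (mdsp l1).1 = n
    · by_cases h' : (mdsp l1').1 = n
      · simp only [if_pos h, if_pos h'] at ha ha'
        obtain ⟨l2, h2⟩ := ha
        obtain ⟨l2', h2'⟩ := ha'
        exact hne (entry_unique l1 l1' l2 l2' (h2.symm.trans h2') (h.trans h'.symm))
      · simp only [if_neg h'] at ha'
        exact ha'
    · simp only [if_neg h] at ha
      exact ha
  · exact fun _ => MeasurableSet.of_discrete

end FDr.M
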