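import Pool.Agent.Lib.MP_e029a2_pr.M.Rec

/-!
# The law of the steps of one frog, from the macro cells
-/

set_option autoImplicit false

namespace FDr.M

open MeasureTheory ProbabilityTheory
open scoped ENNReal

theorem mw_ne {D : ℕ} (x : MS D) : mw x ≠ Sum.inl false := by
  cases x with
  | none => simp [mw]
  | some d => simp [mw]

theorem mw_inj {D : ℕ} {x y : MS D} (h : mw x = mw y) : x = y := by
  cases x with
  | none =>
    cases y with
    | none => rfl
    | some d => simp [mw] at h
  | some d =>
    cases y with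
    | none => simp [mw] at h
    | some d' =>
      have h1 : d = d' := by simpa [mw] using h
      rw [h1]

private theorem mOne_dep {D : ℕ} (n : ℕ) : Dep (Set.Iic n) (fun a : ℕ → MC D => mstp a n) := by
  intro a a' h
  have h1 : (List.range (n + 1)).map (fun j => mword (a j)) = (List.range (n + 1)).map (fun j => mword (a' j)) :=
    List.map_congr_left fun j hj => by
      rw [h j (Nat.lt_succ_iff.1 (List.mem_range.1 hj))]
  show mstp a n = mstp a' n
  unfold mstp
  rw [List.flatMap_def, List.flatMap_def, h1]

/-- the steps `η` start with the list -/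
private def mOneE {D : ℕ} : List (Stp D) → (ℕ → Stp D) → Prop
  | [] => fun _ => True
  | s :: u => fun η => η 0 = s ∧ mOneE u (fun n => η (n + 1))

private theorem mOneE_congr {D : ℕ} (u : List (Stp D)) : ∀ (η η' : ℕ → Stp D), (∀ i < u.length, η i = η' i) →
    (mOneE u η = mOneE u η') := by
  induction u with
  | nil => intro η η' _; rfl
  | cons s u ih =>
    intro η η' h
    show (η 0 = s ∧ mOneE u (fun n => η (n + 1))) = (η' 0 = s ∧ mOneE u (fun n => η' (n + 1)))
    rw [h 0 (by simp), ih (fun n => η (n + 1)) (fun n => η' (n + 1)) fun i hi => h (i + 1) (by simpa using hi)]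

private theorem mOneE_dep {D : ℕ} (u : List (Stp D)) : Dep (Set.Iio u.length) (fun a : ℕ → MC D => mOneE u (mstp a)) := by
  intro a a' h
  exact mOneE_congr u _ _ fun i hi => mOne_dep i a a' fun p hp => h p (lt_of_le_of_lt hp hi)

private theorem mOneE_ofFn {D : ℕ} : ∀ (N : ℕ) (v : Fin N → Stp D) (η : ℕ → Stp D),
    mOneE (List.ofFn v) η ↔ ∀ i : Fin N, η i = v i := by
  intro N
  induction N with
  | zero =>
    intro v η
    rw [List.ofFn_zero]
    exact ⟨fun _ i => i.elim0, fun _ => trivial⟩
  | succ N ih =>
    intro v η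
    rw [List.ofFn_succ]
    show (η 0 = v 0 ∧ mOneE (List.ofFn fun i => v i.succ) (fun n => η (n + 1))) ↔ _
    rw [ih, Fin.forall_fin_succ]
    rfl

theorem mstp_meas (D : ℕ) [NeZero D] : Measurable (fun (a : ℕ → MC D) (n : ℕ) => mstp a n) := by
  refine measurable_pi_lambda _ fun n => ?_
  exact Dep.measurable (Set.finite_Iic n) (mOne_dep n)

private theorem mOne_cons {D : ℕ} [NeZero D] (w α : Set.Ioo (0 : ℝ) 1) (b : MS D) (c : MC D) :
    mcLaw w α D {b :: c} = ENNReal.ofReal (mwt w α D b) * mcLaw w α D {c} := by
  rw [mc_one, mc_one, mcW_ofReal, mcW_ofReal, List.map_cons, List.prod_cons]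
  ring

private theorem mOne_head {D : ℕ} [NeZero D] (w α : Set.Ioo (0 : ℝ) 1) (c : MC D) {Q' : (ℕ → MC D) → Prop}
    (hQ : MeasurableSet {a | Q' a}) (hd : Dep ({0}ᶜ) Q') :
    Measure.infinitePi (fun _ : ℕ => mcLaw w α D) {a | a 0 = c ∧ Q' a} =
      mcLaw w α D {c} * Measure.infinitePi (fun _ : ℕ => mcLaw w α D) {a | Q' a} := by
  have hm : MeasurableSet ((fun a : ℕ → MC D => a 0) ⁻¹' {c}) :=
    (measurable_pi_apply (0 : ℕ)) (measurableSet_singleton c)
  have h1 := prob_and_dep (mcLaw w α D) (S := {0}) (T := {0}ᶜ) disjoint_compl_right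
    (P := fun a : ℕ → MC D => a 0 = c) (P' := Q') hm hQ (fun a a' h => by
      show (a 0 = c) = (a' 0 = c)
      rw [h 0 (Set.mem_singleton _)]) hd
  have h2 : Measure.infinitePi (fun _ : ℕ => mcLaw w α D) {a | a 0 = c} = mcLaw w α D {c} := by
    have h3 := map_eval (ι := ℕ) (mcLaw w α D) 0
    have h4 : ((Measure.infinitePi fun _ : ℕ => mcLaw w α D).map fun a => a 0) {c} = mcLaw w α D {c} :=
      congrArg (fun ν : Measure (MC D) => ν {c}) h3
    rw [Measure.map_apply (measurable_pi_apply (0 : ℕ)) (measurableSet_singleton c)] at h4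
    exact h4
  rw [h1, h2]

private theorem mOne_upd {D : ℕ} (u : List (Stp D)) (c : MC D) :
    Dep ({0}ᶜ) (fun a : ℕ → MC D => mOneE u (mstp (Function.update a 0 c))) := by
  intro a a' h
  have h1 : Function.update a 0 c = Function.update a' 0 c := by
    funext j
    rcases eq_or_ne j 0 with hj | hj
    · rw [hj, Function.update_self, Function.update_self]
    · rw [Function.update_of_ne hj, Function.update_of_ne hj, h j hj]
  show mOneE u (mstp (Function.update a 0 c)) = mOneE u (mstp (Function.update a' 0 c))
  rw [h1]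

private theorem mOne_updm {D : ℕ} [NeZero D] (u : List (Stp D)) (c : MC D) :
    MeasurableSet {a : ℕ → MC D | mOneE u (mstp (Function.update a 0 c))} := by
  refine Dep.measurableSet (S := Set.Iio u.length) (Set.finite_Iio _) ?_
  intro a a' h
  refine mOneE_dep u _ _ fun p hp => ?_
  rcases eq_or_ne p 0 with hj | hj
  · rw [hj, Function.update_self, Function.update_self]
  · rw [Function.update_of_ne hj, Function.update_of_ne hj, h p hp]

private theorem mOne_sum {D : ℕ} [NeZero D] (μ : Measure (ℕ → MC D)) (g : MC D → MC D) (hg : Function.Injective g)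
    (A : MC D → (ℕ → MC D) → Prop) (hA : ∀ c, MeasurableSet {a | A c a}) :
    μ {a | ∃ c, a 0 = g c ∧ A c a} = ∑' c, μ {a | a 0 = g c ∧ A c a} := by
  have h1 : {a : ℕ → MC D | ∃ c, a 0 = g c ∧ A c a} = ⋃ c, {a | a 0 = g c ∧ A c a} := by
    ext a
    simp
  rw [h1, measure_iUnion]
  · intro c c' hcc
    refine Set.disjoint_left.2 ?_
    rintro a ⟨h2, -⟩ ⟨h3, -⟩
    exact hcc (hg (h2.symm.trans h3))
  · intro c
    exact ((measurable_pi_apply 0) (measurableSet_singleton (g c))).inter (hA c)

private theorem mOne_f {D : ℕ} [NeZero D] (w α : Set.Ioo (0 : ℝ) 1) (u : List (Stp D)) :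
    Measure.infinitePi (fun _ : ℕ => mcLaw w α D) {a | mOneE u (mstp a)} =
      (u.map fun s => ENNReal.ofReal (wt w α D s)).prod := by
  induction u with
  | nil =>
    have h1 : {a : ℕ → MC D | mOneE [] (mstp a)} = Set.univ := Set.eq_univ_of_forall fun _ => trivial
    rw [h1, measure_univ]
    rfl
  | cons s u ih =>
    rw [List.map_cons, List.prod_cons, ← ih]
    have hcons : ∀ x : MS D, s = mw x → Measure.infinitePi (fun _ : ℕ => mcLaw w α D) {a | mOneE (s :: u) (mstp a)} =
        ENNReal.ofReal (wt w α D s) * Measure.infinitePi (fun _ : ℕ => mcLaw w α D) {a | mOneE u (mstp a)} := by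
      intro x hx
      have hE : {a : ℕ → MC D | mOneE (s :: u) (mstp a)} =
          {a | ∃ c : MC D, a 0 = x :: c ∧ mOneE u (mstp (Function.update a 0 c))} := by
        ext a
        show (mstp a 0 = s ∧ mOneE u (fun n => mstp a (n + 1))) ↔ _
        rcases ha : a 0 with _ | ⟨b', l⟩
        · obtain ⟨h1, -⟩ := mstp_nil a ha
          refine ⟨fun h => ?_, ?_⟩
          · rw [h1, hx] at h
            exact absurd h.1.symm (mw_ne x)
          · rintro ⟨c, hc, -⟩
            rw [ha] at hc
            exact absurd hc (by simp)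
        · obtain ⟨h1, h2⟩ := mstp_cons a b' l ha
          have h3 : (fun n => mstp a (n + 1)) = mstp (Function.update a 0 l) := funext h2
          rw [h1, h3]
          constructor
          · rintro ⟨h4, h5⟩
            refine ⟨l, ?_, h5⟩
            rw [ha, mw_inj (h4.trans hx)]
          · rintro ⟨c, hc, h5⟩
            rw [ha] at hc
            have h6 := List.cons.inj hc
            obtain ⟨rfl, rfl⟩ := h6
            exact ⟨hx.symm, h5⟩
      have hE' : {a : ℕ → MC D | mOneE u (mstp a)} =
          {a | ∃ c : MC D, a 0 = id c ∧ mOneE u (mstp (Function.update a 0 c))} := by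
        ext a
        constructor
        · intro h
          refine ⟨a 0, rfl, ?_⟩
          rw [Function.update_eq_self]
          exact h
        · rintro ⟨c, hc, h⟩
          have h9 : Function.update a 0 c = a := by
            have : c = a 0 := hc.symm
            rw [this, Function.update_eq_self]
          rw [h9] at h
          exact h
      rw [hE, hE', mOne_sum _ (fun c : MC D => x :: c) (fun c c' h => (List.cons.inj h).2)
          (fun c a => mOneE u (mstp (Function.update a 0 c))) (fun c => mOne_updm u c),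
        mOne_sum _ id Function.injective_id (fun c a => mOneE u (mstp (Function.update a 0 c))) (fun c => mOne_updm u c),
        ← ENNReal.tsum_mul_left]
      refine tsum_congr fun c => ?_
      rw [mOne_head w α _ (mOne_updm u c) (mOne_upd u c), mOne_head w α _ (mOne_updm u c) (mOne_upd u c), mOne_cons,
        id, mul_assoc, hx]
      rfl
    rcases s with b | d
    · cases b
      · have hE : {a : ℕ → MC D | mOneE (Sum.inl false :: u) (mstp a)} =
            {a | a 0 = [] ∧ mOneE u (mstp fun j => a (j + 1))} := by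
          ext a
          show (mstp a 0 = Sum.inl false ∧ mOneE u (fun n => mstp a (n + 1))) ↔ _
          rcases ha : a 0 with _ | ⟨b', l⟩
          · obtain ⟨h1, h2⟩ := mstp_nil a ha
            have h3 : (fun n => mstp a (n + 1)) = mstp (fun j => a (j + 1)) := funext h2
            rw [h1, h3]
            exact ⟨fun h => ⟨ha, h.2⟩, fun h => ⟨rfl, h.2⟩⟩
          · obtain ⟨h1, -⟩ := mstp_cons a b' l ha
            refine ⟨fun h => ?_, ?_⟩
            · rw [h1] at h
              exact absurd h.1 (mw_ne b')
            · rintro ⟨hc, -⟩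
              rw [ha] at hc
              exact absurd hc (by simp)
        have hm : MeasurableSet {a : ℕ → MC D | mOneE u (mstp a)} :=
          Dep.measurableSet (S := Set.Iio u.length) (Set.finite_Iio _) (mOneE_dep u)
        have hsh : Measurable (fun (a : ℕ → MC D) (j : ℕ) => a (j + 1)) :=
          measurable_pi_lambda _ fun j => measurable_pi_apply _
        rw [hE, mOne_head w α [] (Q' := fun a => mOneE u (mstp fun j => a (j + 1))) (hsh hm) (fun a a' h => by
          show mOneE u (mstp fun j => a (j + 1)) = mOneE u (mstp fun j => a' (j + 1))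
          have h1 : (fun j => a (j + 1)) = fun j => a' (j + 1) := funext fun j => h (j + 1) (Nat.succ_ne_zero j)
          rw [h1])]
        have h2 : Measure.infinitePi (fun _ : ℕ => mcLaw w α D) {a | mOneE u (mstp fun j => a (j + 1))} =
            Measure.infinitePi (fun _ : ℕ => mcLaw w α D) {a | mOneE u (mstp a)} := by
          have h3 := map_inj (mcLaw w α D) (fun j : ℕ => j + 1) (fun i j h => Nat.succ.inj h)
          rw [← h3, Measure.map_apply hsh hm, h3]
          rfl
        rw [h2, mc_one]
        congr 1
        unfold mcW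
        rw [List.map_nil, List.prod_nil, mul_one]
      · exact hcons none rfl
    · exact hcons (some d) rfl

theorem mstp_law (w α : Set.Ioo (0 : ℝ) 1) (D : ℕ) [NeZero D] :
    (Measure.infinitePi (fun _ : ℕ => mcLaw w α D)).map (fun a n => mstp a n) =
      Measure.infinitePi (fun _ : ℕ => stepLaw w α D) := by
  classical
  have hdisc : DiscreteMeasurableSpace (Stp D) := ⟨fun s =>
    measurableSet_sum_iff.2 ⟨MeasurableSet.of_discrete, MeasurableSet.of_discrete⟩⟩
  refine Measure.eq_infinitePi _ fun s t ht => ?_
  obtain ⟨N, hN⟩ : ∃ N : ℕ, s ⊆ Finset.range N := by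
    refine ⟨s.sup id + 1, fun i hi => ?_⟩
    rw [Finset.mem_range]
    exact Nat.lt_succ_of_le (Finset.le_sup (f := id) hi)
  have hr : Measurable (fun (η : ℕ → Stp D) (i : Fin N) => η i) :=
    measurable_pi_lambda _ fun i => measurable_pi_apply _
  have hfin : ((Measure.infinitePi (fun _ : ℕ => mcLaw w α D)).map (fun a n => mstp a n)).map
      (fun (η : ℕ → Stp D) (i : Fin N) => η i) = Measure.pi (fun _ : Fin N => stepLaw w α D) := by
    refine Measure.ext_of_singleton fun v => ?_
    rw [Measure.map_apply hr (measurableSet_singleton v), Measure.map_apply (mstp_meas D) (hr (measurableSet_singleton v)),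
      Measure.pi_singleton]
    have h1 : (fun (a : ℕ → MC D) (n : ℕ) => mstp a n) ⁻¹'
        ((fun (η : ℕ → Stp D) (i : Fin N) => η i) ⁻¹' {v}) = {a | mOneE (List.ofFn v) (mstp a)} := by
      ext a
      show ((fun i : Fin N => mstp a i) = v) ↔ mOneE (List.ofFn v) (mstp a)
      rw [mOneE_ofFn]
      exact funext_iff
    rw [h1, mOne_f, List.map_ofFn, List.prod_ofFn]
    refine Finset.prod_congr rfl fun i _ => ?_
    rw [stepLaw_single]
    rfl
  have hset : Set.pi (s : Set ℕ) t = (fun (η : ℕ → Stp D) (i : Fin N) => η i) ⁻¹'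
      Set.pi Set.univ (fun i : Fin N => if (i : ℕ) ∈ s then t i else Set.univ) := by
    ext η
    constructor
    · intro h i _
      show η i ∈ (if (i : ℕ) ∈ s then t i else Set.univ)
      by_cases hi : (i : ℕ) ∈ s
      · rw [if_pos hi]
        exact h i hi
      · rw [if_neg hi]
        trivial
    · intro h i hi
      have h2 := h ⟨i, Finset.mem_range.1 (hN hi)⟩ (Set.mem_univ _)
      change η i ∈ (if i ∈ s then t i else Set.univ) at h2
      rw [if_pos (Finset.mem_coe.1 hi)] at h2
      exact h2
  have hms : MeasurableSet (Set.pi Set.univ (fun i : Fin N => if (i : ℕ) ∈ s then t i else (Set.univ : Set (Stp D)))) :=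
    MeasurableSet.univ_pi fun i => by
      by_cases hi : (i : ℕ) ∈ s
      · rw [if_pos hi]
        exact ht i
      · rw [if_neg hi]
        exact MeasurableSet.univ
  rw [hset, ← Measure.map_apply hr hms, hfin, Measure.pi_pi]
  have h5 : ∀ i : ℕ, stepLaw w α D (if i ∈ s then t i else Set.univ) = if i ∈ s then stepLaw w α D (t i) else 1 := by
    intro i
    by_cases hi : i ∈ s
    · rw [if_pos hi, if_pos hi]
    · rw [if_neg hi, if_neg hi, measure_univ]
  rw [Fin.prod_univ_eq_prod_range (fun i : ℕ => stepLaw w α D (if i ∈ s then t i else Set.univ)) N,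
    Finset.prod_congr rfl fun i _ => h5 i, ← Finset.prod_filter]
  refine Finset.prod_congr ?_ fun _ _ => rfl
  ext i
  rw [Finset.mem_filter]
  exact ⟨fun h => h.2, fun h => ⟨hN h, h⟩⟩

end FDr.M
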