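import Pool.Agent.Lib.MP_e029a2_pr.M.Def

/-!
# The steps from the macro cells: recursion
-/

set_option autoImplicit false

namespace FDr.M

/-- the concatenation of the first `m` mwords -/
private def mrW {D : ℕ} (a : ℕ → MC D) (m : ℕ) : List (Stp D) :=
  (List.range m).flatMap fun j => mword (a j)

private theorem mrW_succ {D : ℕ} (a : ℕ → MC D) (m : ℕ) : mrW a (m + 1) = mrW a m ++ mword (a m) := by
  unfold mrW
  rw [List.range_succ, List.flatMap_append, List.flatMap_singleton]

private theorem mrW_succ' {D : ℕ} (a : ℕ → MC D) (m : ℕ) :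
    mrW a (m + 1) = mword (a 0) ++ mrW (fun j => a (j + 1)) m := by
  unfold mrW
  rw [List.range_succ_eq_map, List.flatMap_cons, List.flatMap_map]

private theorem mr_len {D : ℕ} (c : MC D) : (mword c).length = c.length + 1 := by
  unfold mword
  rw [List.length_append, List.length_map, List.length_singleton]

private theorem mrW_len {D : ℕ} (a : ℕ → MC D) (m : ℕ) : m ≤ (mrW a m).length := by
  induction m with
  | zero => exact Nat.zero_le _
  | succ m ih =>
    rw [mrW_succ, List.length_append, mr_len]
    omega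

private theorem mrW_get' {D : ℕ} (a : ℕ → MC D) (k m m' : ℕ) (h : k < (mrW a m).length)
    (h' : m ≤ m') : k < (mrW a m').length ∧ (mrW a m')[k]? = (mrW a m)[k]? := by
  induction m', h' using Nat.le_induction with
  | base => exact ⟨h, rfl⟩
  | succ m' hm ih =>
    rw [mrW_succ, List.getElem?_append_left ih.1, ih.2, List.length_append]
    exact ⟨by have := ih.1; omega, rfl⟩

private theorem mrW_get {D : ℕ} (a : ℕ → MC D) (k m m' : ℕ) (h : k < m) (h' : m ≤ m') :
    (mrW a m')[k]? = (mrW a m)[k]? :=
  (mrW_get' a k m m' (lt_of_lt_of_le h (mrW_len a m)) h').2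

private theorem mstp_eq {D : ℕ} (a : ℕ → MC D) (n m : ℕ) (h : n < m) :
    mstp a n = ((mrW a m)[n]?).getD (Sum.inl true) := by
  rw [mrW_get a n (n + 1) m (Nat.lt_succ_self n) h]
  rfl

theorem mstp_nil {D : ℕ} (a : ℕ → MC D) (h : a 0 = []) :
    mstp a 0 = Sum.inl false ∧ ∀ n, mstp a (n + 1) = mstp (fun j => a (j + 1)) n := by
  have hw : mword (a 0) = [Sum.inl false] := by
    rw [h]
    rfl
  refine ⟨?_, fun n => ?_⟩
  · rw [mstp_eq a 0 1 Nat.one_pos, mrW_succ', hw]
    rfl
  · rw [mstp_eq a (n + 1) (n + 1 + 1) (Nat.lt_succ_self _), mrW_succ', hw,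
      mstp_eq (fun j => a (j + 1)) n (n + 1) (Nat.lt_succ_self _)]
    rfl

theorem mstp_cons {D : ℕ} (a : ℕ → MC D) (b : MS D) (l : MC D) (h : a 0 = b :: l) :
    mstp a 0 = mw b ∧ ∀ n, mstp a (n + 1) = mstp (Function.update a 0 l) n := by
  have hw : mword (a 0) = mw b :: mword l := by
    rw [h]
    rfl
  refine ⟨?_, fun n => ?_⟩
  · rw [mstp_eq a 0 1 Nat.one_pos, mrW_succ', hw]
    rfl
  · have h1 : (fun j => Function.update a 0 l (j + 1)) = fun j => a (j + 1) := by
      funext j
      exact Function.update_of_ne (Nat.succ_ne_zero j) _ _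
    rw [mstp_eq a (n + 1) (n + 1 + 1) (Nat.lt_succ_self _), mrW_succ' a (n + 1), hw,
      mstp_eq (Function.update a 0 l) n (n + 1 + 1) (by omega),
      mrW_succ' (Function.update a 0 l) (n + 1), h1, Function.update_self]
    rfl

theorem mstp_off {D : ℕ} (a : ℕ → MC D) (j i : ℕ) (hi : i < (a j).length + 1) :
    mstp a (moff a j + i) = (mword (a j))[i]'(by unfold mword; rw [List.length_append, List.length_map]; exact hi) := by
  have hoff : ∀ m, moff a m = (mrW a m).length := by
    intro m
    induction m with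
    | zero => rfl
    | succ m ih =>
      rw [mrW_succ, List.length_append, ← ih, mr_len]
      exact Finset.sum_range_succ _ m
  have h1 : moff a j + i < (mrW a (j + 1)).length := by
    rw [mrW_succ, List.length_append, ← hoff, mr_len]
    omega
  have h2 : j ≤ moff a j := by
    rw [hoff]
    exact mrW_len a j
  have h3 : i < (mword (a j)).length := by
    rw [mr_len]
    exact hi
  rw [mstp_eq a (moff a j + i) (moff a j + i + 1) (Nat.lt_succ_self _),
    (mrW_get' a (moff a j + i) (j + 1) (moff a j + i + 1) h1 (by omega)).2, mrW_succ,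
    List.getElem?_append_right (by rw [← hoff]; omega), ← hoff, Nat.add_sub_cancel_left,
    List.getElem?_eq_getElem h3]
  rfl

end FDr.M
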