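import Pool.Agent.Lib.MP_e029a2_pr.M.Bij
import Pool.Agent.Lib.MP_e029a2_pr.TB

/-!
# Transience, part A: entries of lines and the decomposition at the first line

Configurations with one additional frog `none`, which starts at a point `z`; `F` is the set of the sleeping frogs
which are present.  `Ent F z c n (o, j)`: the `j`-th line of the frog `o` is entered after at most `n` changes of
lines.
-/

set_option autoImplicit false

namespace FDr.MT

open MeasureTheory ProbabilityTheory
open scoped ENNReal
open FDr.M

/-- The cells: `none` is the additional frog, `some x` is the frog `x`. -/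
abbrev Ix (D : ℕ) : Type := Option (Site D) × ℕ

/-- Configurations with an additional frog. -/
abbrev OConf (D : ℕ) : Type := Ix D → MC D

/-- The point where the frog `o` enters its `j`-th line. -/
def oent {D : ℕ} (z : Site D) (c : OConf D) (o : Option (Site D)) (j : ℕ) : Site D :=
  o.getD z + ∑ i ∈ Finset.range j, mvec (c (o, i))

/-- The cell `e` visits the site `y`. -/
def OVis {D : ℕ} (z : Site D) (c : OConf D) (e : Ix D) (y : Site D) : Prop :=
  ∃ h ∈ mvis (c e), oent z c e.1 e.2 + h = y

/-- The cells which are used, after at most `n` changes of lines, if only the sleeping frogs in `F` are present. -/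
inductive Ent {D : ℕ} (F : Set (Site D)) (z : Site D) (c : OConf D) : ℕ → Ix D → Prop
  | src (n : ℕ) : Ent F z c n (none, 0)
  | cont (n : ℕ) (o : Option (Site D)) (j : ℕ) : Ent F z c n (o, j) → Ent F z c (n + 1) (o, j + 1)
  | wake (n : ℕ) (e : Ix D) (y : Site D) : Ent F z c n e → y ∈ F → OVis z c e y → Ent F z c n (some y, 0)

variable {D : ℕ}

theorem Ent.succ {F : Set (Site D)} {z : Site D} {c : OConf D} {n : ℕ} {e : Ix D} (h : Ent F z c n e) :
    Ent F z c (n + 1) e := by
  induction h with
  | src n => exact Ent.src _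
  | cont n o j _ ih => exact Ent.cont _ _ _ ih
  | wake n e y _ hy hv ih => exact Ent.wake _ _ _ ih hy hv

theorem Ent.mono {F G : Set (Site D)} {z : Site D} {c : OConf D} {n m : ℕ} {e : Ix D} (h : Ent F z c n e)
    (hFG : F ⊆ G) (hnm : n ≤ m) : Ent G z c m e := by
  have h1 : Ent G z c n e := by
    induction h with
    | src n => exact Ent.src _
    | cont n o j _ ih => exact Ent.cont _ _ _ (ih (by omega))
    | wake n e y _ hy hv ih => exact Ent.wake _ _ _ (ih hnm) (hFG hy) hv
  obtain ⟨k, rfl⟩ := Nat.exists_eq_add_of_le hnm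
  clear hnm h
  induction k with
  | zero => exact h1
  | succ k ih => exact ih.succ

/-- The frogs of the cells which are used. -/
theorem Ent.frog {F : Set (Site D)} {z : Site D} {c : OConf D} {n : ℕ} {e : Ix D} (h : Ent F z c n e) :
    (∀ y, e.1 = some y → y ∈ F) ∧ e.2 ≤ n := by
  induction h with
  | src n => exact ⟨fun y hy => (by simp at hy), Nat.zero_le _⟩
  | cont n o j _ ih => exact ⟨ih.1, Nat.succ_le_succ ih.2⟩
  | wake n e y _ hy hv ih =>
    refine ⟨fun y' hy' => ?_, Nat.zero_le _⟩
    obtain rfl : y = y' := by simpa using hy'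
    exact hy

theorem ovis_congr {z : Site D} {c c' : OConf D} {e : Ix D} (h : ∀ i ≤ e.2, c (e.1, i) = c' (e.1, i)) (y : Site D) :
    OVis z c e y ↔ OVis z c' e y := by
  have h1 : oent z c e.1 e.2 = oent z c' e.1 e.2 := by
    unfold oent
    congr 1
    refine Finset.sum_congr rfl fun i hi => ?_
    rw [h i (Finset.mem_range.1 hi).le]
  have h2 : c e = c' e := h e.2 le_rfl
  unfold OVis
  rw [h1, h2]

/-- `Ent F z c n` depends only on the cells `(o, j)` with `j ≤ n`, `o ∈ F ∪ {none}`. -/
theorem ent_congr {F : Set (Site D)} {z : Site D} {c c' : OConf D} {n : ℕ}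
    (h : ∀ e : Ix D, (∀ y, e.1 = some y → y ∈ F) → e.2 ≤ n → c e = c' e) {e : Ix D} (he : Ent F z c n e) :
    Ent F z c' n e := by
  induction he with
  | src n => exact Ent.src _
  | cont n o j _ ih => exact Ent.cont _ _ _ (ih fun e h1 h2 => h e h1 (by omega))
  | wake n e y he hy hv ih =>
    refine Ent.wake _ _ _ (ih h) hy ((ovis_congr (fun i hi => ?_) y).1 hv)
    exact h _ he.frog.1 (hi.trans he.frog.2)

theorem ent_congr_iff {F : Set (Site D)} {z : Site D} {c c' : OConf D} {n : ℕ}
    (h : ∀ e : Ix D, (∀ y, e.1 = some y → y ∈ F) → e.2 ≤ n → c e = c' e) (e : Ix D) :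
    Ent F z c n e ↔ Ent F z c' n e :=
  ⟨ent_congr h, ent_congr fun e h1 h2 => (h e h1 h2).symm⟩

/-- The frogs which are activated on the first line. -/
def clu (F : Set (Site D)) (z : Site D) (c : OConf D) : Set (Site D) := {y | Ent F z c 0 (some y, 0)}

theorem clu_subset (F : Set (Site D)) (z : Site D) (c : OConf D) : clu F z c ⊆ F :=
  fun y hy => (Ent.frog hy).1 y rfl

/-- the event `clu = C` depends only on the cells `(o, 0)` with `o ∈ C ∪ {none}` -/
theorem clu_congr {F C : Set (Site D)} {z : Site D} {c c' : OConf D}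
    (h : ∀ o : Option (Site D), (∀ y, o = some y → y ∈ C) → c (o, 0) = c' (o, 0)) (hC : clu F z c = C) :
    clu F z c' = C := by
  have key : ∀ e : Ix D, Ent F z c' 0 e → (∀ y, e.1 = some y → y ∈ C) ∧ e.2 = 0 ∧ Ent F z c 0 e := by
    have : ∀ n, ∀ e : Ix D, Ent F z c' n e → n = 0 → (∀ y, e.1 = some y → y ∈ C) ∧ e.2 = 0 ∧ Ent F z c 0 e := by
      intro n e he
      induction he with
      | src n => exact fun _ => ⟨fun y hy => (by simp at hy), rfl, Ent.src _⟩
      | cont n o j _ ih => exact fun h0 => absurd h0 (Nat.succ_ne_zero n)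
      | wake n e y he hy hv ih =>
        intro h0
        obtain ⟨h1, h2, h3⟩ := ih h0
        have h4 : OVis z c e y := by
          refine (ovis_congr (fun i hi => ?_) y).2 hv
          rw [h2] at hi
          obtain rfl : i = 0 := by omega
          exact h e.1 h1
        have h5 : Ent F z c 0 (some y, 0) := Ent.wake _ _ _ h3 hy h4
        refine ⟨fun y' hy' => ?_, rfl, h5⟩
        obtain rfl : y = y' := by simpa using hy'
        rw [← hC]
        exact h5
    exact fun e he => this 0 e he rfl
  have key2 : ∀ n, ∀ e : Ix D, Ent F z c n e → n = 0 → Ent F z c' 0 e := by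
    intro n e he
    induction he with
    | src n => exact fun _ => Ent.src _
    | cont n o j _ ih => exact fun h0 => absurd h0 (Nat.succ_ne_zero n)
    | wake n e y he hy hv ih =>
      intro h0
      subst h0
      have h1 : e.2 = 0 := Nat.le_zero.1 he.frog.2
      refine Ent.wake _ _ _ (ih rfl) hy ((ovis_congr (fun i hi => ?_) y).1 hv)
      rw [h1] at hi
      obtain rfl : i = 0 := by omega
      refine h e.1 fun y' hy' => ?_
      rw [← hC]
      show Ent F z c 0 (some y', 0)
      have h3 : ((some y', 0) : Ix D) = e := Prod.ext hy'.symm h1.symm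
      rw [h3]
      exact he
  ext y
  constructor
  · intro hy
    exact (key _ hy).1 y rfl
  · intro hy
    rw [← hC] at hy
    exact key2 0 _ hy rfl

/-! ### The change of the source -/

/-- The cells of the process which starts with the frog `o` at the end of its first cell: `none` and `o` are
exchanged, and their first cells are removed. -/
def psi (o : Option (Site D)) (e : Ix D) : Ix D :=
  if e.1 = none then (o, e.2 + 1) else if e.1 = o then (none, e.2 + 1) else e

theorem psi_none (o : Option (Site D)) (j : ℕ) : psi o (none, j) = (o, j + 1) := by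
  simp [psi]

theorem psi_some {o : Option (Site D)} {x : Site D} (h : some x ≠ o) (j : ℕ) : psi o (some x, j) = (some x, j) := by
  simp [psi, h]

theorem psi_inj (o : Option (Site D)) : Function.Injective (psi o) := by
  rintro ⟨a, i⟩ ⟨b, j⟩ h
  unfold psi at h
  simp only at h
  split_ifs at h with h1 h2 h3 h4 h5 h6 <;> simp only [Prod.mk.injEq] at h ⊢ <;> first | (constructor <;> [skip; omega]) | skip
  all_goals aesop

theorem oent_psi {z : Site D} {c : OConf D} {o : Option (Site D)} {e : Ix D} (he : ∀ x, e.1 = some x → some x ≠ o) :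
    oent (oent z c o 1) (fun i => c (psi o i)) e.1 e.2 = oent z c (psi o e).1 (psi o e).2 := by
  obtain ⟨a, j⟩ := e
  cases a with
  | none =>
    rw [psi_none]
    simp only [oent, psi_none, Option.getD_none]
    rw [Finset.sum_range_succ' (fun i => mvec (c (o, i))) j]
    simp only [Finset.sum_range_one]
    abel
  | some x =>
    have h1 : ∀ j, psi o (some x, j) = (some x, j) := psi_some (he x rfl)
    rw [h1]
    simp only [oent, h1, Option.getD_some]

theorem ovis_psi {z : Site D} {c : OConf D} {o : Option (Site D)} {e : Ix D} (he : ∀ x, e.1 = some x → some x ≠ o)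
    (y : Site D) : OVis (oent z c o 1) (fun i => c (psi o i)) e y ↔ OVis z c (psi o e) y := by
  unfold OVis
  rw [oent_psi he]

/-- **The decomposition at the first line.** -/
theorem ent_decomp {F : Set (Site D)} {z : Site D} {c : OConf D} {n : ℕ} {e : Ix D} (h : Ent F z c n e) :
    (e.2 = 0 ∧ Ent F z c 0 e) ∨ ∃ m, n = m + 1 ∧ ∃ o, Ent F z c 0 (o, 0) ∧
      ∃ e', Ent (F \ clu F z c) (oent z c o 1) (fun i => c (psi o i)) m e' ∧ psi o e' = e := by
  induction h with
  | src n => exact Or.inl ⟨rfl, Ent.src _⟩
  | cont n o j _ ih =>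
    right
    rcases ih with ⟨h1, h2⟩ | ⟨m, rfl, o', h2, e', h3, h4⟩
    · simp only at h1
      subst h1
      refine ⟨n, rfl, o, h2, (none, 0), Ent.src _, ?_⟩
      rw [psi_none]
    · refine ⟨m + 1, rfl, o', h2, (e'.1, e'.2 + 1), Ent.cont _ _ _ h3, ?_⟩
      unfold psi at h4 ⊢
      simp only
      split_ifs at h4 ⊢ <;> simp_all
  | wake n e y he hy hv ih =>
    by_cases hyC : y ∈ clu F z c
    · exact Or.inl ⟨rfl, hyC⟩
    · rcases ih with ⟨h1, h2⟩ | ⟨m, rfl, o', h2, e', h3, h4⟩
      · exact absurd (Ent.wake _ _ _ h2 hy hv) hyC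
      · right
        have h6 : ∀ x, some x = o' → x ∈ clu F z c := by
          rintro x rfl
          exact h2
        have h5 : ∀ x, e'.1 = some x → some x ≠ o' := fun x hx hx' => (h3.frog.1 x hx).2 (h6 x hx')
        refine ⟨m, rfl, o', h2, (some y, 0), Ent.wake _ e' _ h3 ⟨hy, hyC⟩ ?_, ?_⟩
        · rw [ovis_psi h5, h4]
          exact hv
        · exact psi_some (fun h7 => hyC (h6 y h7)) 0

end FDr.MT
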