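import Pool.Agent.Lib.MP_e029a2_pr.M.TA

/-!
# Transience with macro cells, part B: measurability
-/

set_option autoImplicit false

namespace FDr.MT

open MeasureTheory ProbabilityTheory
open scoped ENNReal
open FDr.M

/-! ### Measurability -/

variable {D : ℕ}

theorem measurable_oent (z : Site D) (o : Option (Site D)) (j : ℕ) :
    Measurable fun c : OConf D => oent z c o j := by
  unfold oent
  refine Measurable.add measurable_const (Finset.measurable_sum _ fun i _ => ?_)
  exact (measurable_of_countable mvec).comp (measurable_pi_apply _)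

theorem measurable_ovis (z : Site D) (e : Ix D) (y : Site D) : Measurable fun c : OConf D => OVis z c e y := by
  have h1 : ∀ c : OConf D, OVis z c e y ↔ ∃ h : Site D, h ∈ mvis (c e) ∧ oent z c e.1 e.2 + h = y := fun c => Iff.rfl
  rw [funext fun c => propext (h1 c)]
  refine Measurable.exists fun h => Measurable.and ?_ ?_
  · exact (measurable_of_countable fun a : MC D => h ∈ mvis a).comp (measurable_pi_apply e)
  · exact (measurable_of_countable fun x : Site D => x + h = y).comp (measurable_oent z e.1 e.2)

/-- The cells which are used after at most `k` steps of the construction. -/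
def EK (F : Set (Site D)) (z : Site D) (c : OConf D) : ℕ → ℕ → Ix D → Prop
  | 0, _, e => e = (none, 0)
  | k + 1, n, e => EK F z c k n e ∨ (∃ (m : ℕ) (o : Option (Site D)) (j : ℕ), EK F z c k m (o, j) ∧ n = m + 1 ∧
      e = (o, j + 1)) ∨ ∃ (e' : Ix D) (y : Site D), EK F z c k n e' ∧ y ∈ F ∧ OVis z c e' y ∧ e = (some y, 0)

theorem ent_iff_ek {F : Set (Site D)} {z : Site D} {c : OConf D} {n : ℕ} {e : Ix D} :
    Ent F z c n e ↔ ∃ k, EK F z c k n e := by
  constructor
  · intro h
    induction h with
    | src n => exact ⟨0, rfl⟩
    | cont n o j _ ih =>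
      obtain ⟨k, hk⟩ := ih
      exact ⟨k + 1, Or.inr (Or.inl ⟨n, o, j, hk, rfl, rfl⟩)⟩
    | wake n e y _ hy hv ih =>
      obtain ⟨k, hk⟩ := ih
      exact ⟨k + 1, Or.inr (Or.inr ⟨e, y, hk, hy, hv, rfl⟩)⟩
  · rintro ⟨k, hk⟩
    induction k generalizing n e with
    | zero =>
      obtain rfl : e = (none, 0) := hk
      exact Ent.src _
    | succ k ih =>
      rcases hk with h | ⟨m, o, j, h, rfl, rfl⟩ | ⟨e', y, h, hy, hv, rfl⟩
      · exact ih h
      · exact Ent.cont _ _ _ (ih h)
      · exact Ent.wake _ _ _ (ih h) hy hv

theorem measurable_ent (F : Set (Site D)) (z : Site D) (n : ℕ) (e : Ix D) :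
    Measurable fun c : OConf D => Ent F z c n e := by
  rw [funext fun c : OConf D => propext (ent_iff_ek (F := F) (z := z) (c := c) (n := n) (e := e))]
  refine Measurable.exists fun k => ?_
  induction k generalizing n e with
  | zero => exact measurable_const
  | succ k ih =>
    refine Measurable.or (ih n e) (Measurable.or ?_ ?_)
    · refine Measurable.exists fun m => Measurable.exists fun o => Measurable.exists fun j => ?_
      exact (ih m (o, j)).and measurable_const
    · refine Measurable.exists fun e' => Measurable.exists fun y => ?_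
      exact (ih n e').and (measurable_const.and ((measurable_ovis z e' y).and measurable_const))

theorem measurable_clu (F C : Set (Site D)) (z : Site D) : Measurable fun c : OConf D => clu F z c = C := by
  have h1 : ∀ c : OConf D, clu F z c = C ↔ ∀ y, Ent F z c 0 (some y, 0) ↔ y ∈ C := fun c => Set.ext_iff
  rw [funext fun c => propext (h1 c)]
  exact Measurable.forall fun y => (measurable_ent F z 0 (some y, 0)).iff measurable_const

end FDr.MT
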