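import Pool.Agent.Lib.MP_e029a2_pr.M.TC

/-!
# Transience, part D: the first line
-/

set_option autoImplicit false

namespace FDr.MT

open MeasureTheory ProbabilityTheory
open scoped ENNReal
open FDr.M
open FDr.TR (ind ind_true ind_false ind_mono ind_and ind_congr measurable_ind lintegral_ind tsum_ind_and tsum_opt
  lintegral_mul_of_disj lintegral_reindex lintegral_coord)

variable {D : ℕ}

/-- The law of the configurations with an additional frog. -/
noncomputable def OQ (w α : Set.Ioo (0 : ℝ) 1) (D : ℕ) [NeZero D] : Measure (OConf D) :=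
  Measure.infinitePi fun _ => mcLaw w α D

instance OQ_prob (w α : Set.Ioo (0 : ℝ) 1) (D : ℕ) [NeZero D] : IsProbabilityMeasure (OQ w α D) := by
  unfold OQ
  infer_instance

/-- A frog is activated on the first line if it is visited by a frog which is activated without it. -/
theorem ent_zero_iff {F : Set (Site D)} {z y : Site D} {c : OConf D} :
    Ent F z c 0 (some y, 0) ↔ y ∈ F ∧ ∃ e, Ent (F \ {y}) z c 0 e ∧ OVis z c e y := by
  constructor
  · intro h
    have key : ∀ n e, Ent F z c n e → n = 0 → Ent (F \ {y}) z c 0 e ∨ (y ∈ F ∧ ∃ e', Ent (F \ {y}) z c 0 e' ∧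
        OVis z c e' y) := by
      intro n e he
      induction he with
      | src n => exact fun _ => Or.inl (Ent.src _)
      | cont n o j _ ih => exact fun h0 => absurd h0 (Nat.succ_ne_zero n)
      | wake n e y' he hy hv ih =>
        intro h0
        rcases ih h0 with h1 | h1
        · by_cases hyy : y' = y
          · subst hyy
            exact Or.inr ⟨hy, e, h1, hv⟩
          · exact Or.inl (Ent.wake _ _ _ h1 ⟨hy, hyy⟩ hv)
        · exact Or.inr h1
    rcases key 0 _ h rfl with h1 | h1
    · exact absurd rfl (h1.frog.1 y rfl).2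
    · exact h1
  · rintro ⟨hy, e, he, hv⟩
    exact Ent.wake _ _ _ (he.mono Set.sdiff_subset le_rfl) hy hv

theorem ent_zero_indep {F : Set (Site D)} {z y : Site D} {c c' : OConf D}
    (h : ∀ i, i ∉ ({(some y, 0)} : Set (Ix D)) → c i = c' i) :
    Ent F z c 0 (some y, 0) ↔ Ent F z c' 0 (some y, 0) := by
  rw [ent_zero_iff, ent_zero_iff]
  refine and_congr_right fun _ => exists_congr fun e => ?_
  have h0 : ∀ e : Ix D, (∀ y', e.1 = some y' → y' ∈ F \ {y}) → c e = c' e := by
    intro e he
    refine h e fun h1 => ?_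
    rw [Set.mem_singleton_iff] at h1
    exact (he y (by rw [h1])).2 rfl
  have h1 := ent_congr_iff (F := F \ {y}) (z := z) (c := c) (c' := c') (n := 0) (fun e h1 _ => h0 e h1) e
  constructor
  · rintro ⟨h2, h3⟩
    exact ⟨h1.1 h2, (ovis_congr (fun i _ => h0 _ h2.frog.1) y).1 h3⟩
  · rintro ⟨h2, h3⟩
    exact ⟨h1.2 h2, (ovis_congr (fun i _ => h0 _ h2.frog.1) y).2 h3⟩

variable (w α : Set.Ioo (0 : ℝ) 1) [NeZero D]

/-- sums over the frogs of the first line -/
theorem lintegral_first (F : Set (Site D)) (z : Site D) (g : Option (Site D) → MC D → ℝ≥0∞) :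
    ∫⁻ c, ∑' o : Option (Site D), ind (Ent F z c 0 (o, 0)) * g o (c (o, 0)) ∂OQ w α D =
      ∫⁻ a, g none a ∂mcLaw w α D +
        ∑' y : Site D, OQ w α D {c | Ent F z c 0 (some y, 0)} * ∫⁻ a, g (some y) a ∂mcLaw w α D := by
  have hg : ∀ o, Measurable (g o) := fun o => measurable_of_countable _
  have hm : ∀ o : Option (Site D), Measurable fun c : OConf D => g o (c (o, 0)) :=
    fun o => (hg o).comp (measurable_pi_apply _)
  have hmm : ∀ o : Option (Site D), Measurable fun c : OConf D => ind (Ent F z c 0 (o, 0)) * g o (c (o, 0)) :=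
    fun o => (measurable_ind (measurable_ent F z 0 (o, 0))).mul (hm o)
  rw [lintegral_tsum fun o => (hmm o).aemeasurable, tsum_opt]
  congr 1
  · have h1 : ∀ c : OConf D, ind (Ent F z c 0 (none, 0)) * g none (c (none, 0)) = g none (c (none, 0)) := by
      intro c
      rw [ind_true (Ent.src _), one_mul]
    rw [lintegral_congr h1]
    exact lintegral_coord (mcLaw w α D) (none, 0) (hg none)
  · refine tsum_congr fun y => ?_
    have h1 : ∀ c : OConf D, ind (Ent F z c 0 (some y, 0)) * g (some y) (c (some y, 0)) =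
        g (some y) (c (some y, 0)) * ind (Ent F z c 0 (some y, 0)) := fun c => mul_comm _ _
    rw [lintegral_congr h1]
    unfold OQ
    rw [lintegral_mul_of_disj (mcLaw w α D) {(some y, 0)} (hm (some y))
      (measurable_ind (measurable_ent F z 0 (some y, 0))), lintegral_coord (mcLaw w α D) (some y, 0) (hg (some y)),
      lintegral_ind _ (measurable_ent F z 0 (some y, 0)), mul_comm]
    · intro c c' h
      rw [h _ rfl]
    · intro c c' h
      exact ind_congr (ent_zero_indep h)

/-- The probability that the site `h` is activated by the first macro cells, if a frog starts at the origin and there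
are sleeping frogs at all the sites. -/
noncomputable def actM (h : Site D) : ℝ≥0∞ := OQ w α D {c | Ent Set.univ 0 c 0 (some h, 0)}

/-- the shift of a configuration -/
def sh (z : Site D) (c : OConf D) : OConf D := fun e => c (e.1.map fun x => z + x, e.2)

omit [NeZero D] in
theorem sh_oent (z : Site D) (c : OConf D) (o : Option (Site D)) (j : ℕ) :
    z + oent 0 (sh z c) o j = oent z c (o.map fun x => z + x) j := by
  unfold oent sh
  cases o with
  | none => simp
  | some x =>
    simp only [Option.getD_some, Option.map_some]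
    rw [add_assoc]

omit [NeZero D] in
theorem sh_ovis (z : Site D) (c : OConf D) (e : Ix D) (y : Site D) :
    OVis 0 (sh z c) e y ↔ OVis z c (e.1.map (fun x => z + x), e.2) (z + y) := by
  constructor
  · rintro ⟨h, h1, h2⟩
    refine ⟨h, h1, ?_⟩
    simp only
    rw [← sh_oent, add_assoc, h2]
  · rintro ⟨h, h1, h2⟩
    refine ⟨h, h1, ?_⟩
    simp only at h2
    rw [← sh_oent, add_assoc] at h2
    exact add_left_cancel h2

omit [NeZero D] in
theorem sh_ent (z : Site D) (c : OConf D) {n : ℕ} {e : Ix D} (h : Ent Set.univ z c n e) :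
    ∃ e' : Ix D, e = (e'.1.map (fun x => z + x), e'.2) ∧ Ent Set.univ 0 (sh z c) n e' := by
  induction h with
  | src n => exact ⟨(none, 0), rfl, Ent.src _⟩
  | cont n o j _ ih =>
    obtain ⟨e', h1, h2⟩ := ih
    simp only [Prod.mk.injEq] at h1
    refine ⟨(e'.1, e'.2 + 1), ?_, Ent.cont _ _ _ h2⟩
    rw [h1.1, h1.2]
  | wake n e y _ _ hv ih =>
    obtain ⟨e', h1, h2⟩ := ih
    refine ⟨(some (y - z), 0), ?_, Ent.wake _ _ _ h2 (Set.mem_univ _) ?_⟩
    · simp
    · rw [sh_ovis, add_sub_cancel, ← h1]
      exact hv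

omit [NeZero D] in
theorem ind_meas_ent (F : Set (Site D)) (z : Site D) (n : ℕ) (e : Ix D) : MeasurableSet {c : OConf D | Ent F z c n e} :=
  measurableSet_setOfPred.2 (measurable_ent F z n e)

/-- The probability that the frog `y` is activated on the first line. -/
theorem prob_first_le (F : Set (Site D)) (z y : Site D) :
    OQ w α D {c | Ent F z c 0 (some y, 0)} ≤ actM w α (y - z) := by
  have hinj : Function.Injective fun e : Ix D => ((e.1.map (fun x => z + x), e.2) : Ix D) := by
    rintro ⟨a, i⟩ ⟨b, j⟩ h
    simp only [Prod.mk.injEq] at h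
    rw [h.2, Option.map_injective (fun x y hxy => add_left_cancel hxy) h.1]
  have h1 : (OQ w α D).map (sh z) = OQ w α D := by
    unfold OQ
    exact Measure.map_infinitePi_infinitePi_of_inj (P := fun _ : Ix D => mcLaw w α D) hinj
  have hm : Measurable (sh z : OConf D → OConf D) := measurable_pi_lambda _ fun _ => measurable_pi_apply _
  have h0 : OQ w α D {c | Ent Set.univ 0 c 0 (some (y - z), 0)} =
      OQ w α D (sh z ⁻¹' {c | Ent Set.univ 0 c 0 (some (y - z), 0)}) := by
    rw [← Measure.map_apply hm (ind_meas_ent _ _ _ _), h1]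
  unfold actM
  rw [h0]
  refine measure_mono fun c hc => ?_
  have h2 : Ent Set.univ z c 0 (some y, 0) := Ent.mono hc (Set.subset_univ _) le_rfl
  obtain ⟨e', h3, h4⟩ := sh_ent z c h2
  show Ent Set.univ 0 (sh z c) 0 (some (y - z), 0)
  obtain ⟨a, i⟩ := e'
  simp only [Prod.mk.injEq] at h3
  cases a with
  | none => simp at h3
  | some x =>
    have h5 : y = z + x := by simpa using h3.1
    have h6 : 0 = i := h3.2
    rw [h5, add_sub_cancel_left, h6]
    rw [← h6]
    rw [← h6] at h4
    exact h4

end FDr.MT
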