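import Pool.Agent.Lib.MP_e029a2_pr.M.TD

/-!
# Transience with macro cells, part E: the bound of the expected number of cells which visit the origin
-/

set_option autoImplicit false

namespace FDr.MT

open MeasureTheory ProbabilityTheory
open scoped ENNReal
open FDr.M
open FDr.TR (ind ind_true ind_false ind_mono ind_and ind_congr measurable_ind lintegral_ind tsum_ind_and tsum_opt
  lintegral_mul_of_disj lintegral_reindex lintegral_coord)

variable {D : ℕ} (w α : Set.Ioo (0 : ℝ) 1)

/-- The mean of `s ^ displacement` of a macro cell. -/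
noncomputable def kapM (D : ℕ) (s : ℝ) : ℝ≥0∞ := ∫⁻ a, ENNReal.ofReal (s ^ (mvec a).1) ∂mcLaw w α D

/-- The generating function of the activated sites of the process of the first macro cells. -/
noncomputable def UgM (D : ℕ) [NeZero D] (s : ℝ) : ℝ≥0∞ := ∑' h : Site D, actM w α h * ENNReal.ofReal (s ^ h.1)

/-- The mean of the sum of `s ^ (place of the exit)`. -/
noncomputable def mfunM (D : ℕ) [NeZero D] (s : ℝ) : ℝ≥0∞ := kapM w α D s * (1 + UgM w α D s)

theorem ofReal_zpow_add {s : ℝ} (hs : 0 < s) (a b : ℤ) :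
    ENNReal.ofReal (s ^ (a + b)) = ENNReal.ofReal (s ^ a) * ENNReal.ofReal (s ^ b) := by
  rw [zpow_add₀ hs.ne', ENNReal.ofReal_mul (zpow_pos hs a).le]

variable [NeZero D]

theorem actM_le {s : ℝ} (hs : 0 < s) (h : Site D) : actM w α h ≤ UgM w α D s * ENNReal.ofReal (s ^ (-h.1)) := by
  have h1 : actM w α h * ENNReal.ofReal (s ^ h.1) ≤ UgM w α D s := ENNReal.le_tsum h
  have h2 : ENNReal.ofReal (s ^ h.1) * ENNReal.ofReal (s ^ (-h.1)) = 1 := by
    rw [← ofReal_zpow_add hs, add_neg_cancel, zpow_zero, ENNReal.ofReal_one]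
  calc actM w α h = actM w α h * ENNReal.ofReal (s ^ h.1) * ENNReal.ofReal (s ^ (-h.1)) := by
        rw [mul_assoc, h2, mul_one]
    _ ≤ _ := mul_le_mul_left h1 _

/-- A site which is visited by the first frog is activated. -/
theorem vis_le_actM (h : Site D) : mcLaw w α D {a | h ∈ mvis a} ≤ actM w α h := by
  have h1 : mcLaw w α D {a | h ∈ mvis a} = OQ w α D {c | h ∈ mvis (c (none, 0))} := by
    have h0 : Measure.map (fun c : OConf D => c (none, 0)) (OQ w α D) = mcLaw w α D :=
      Measure.infinitePi_map_eval (fun _ : Ix D => mcLaw w α D) (none, 0)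
    have hm : MeasurableSet {a : MC D | h ∈ mvis a} := measurableSet_setOfPred.2 (measurable_of_countable _)
    have h2 : OQ w α D {c | h ∈ mvis (c (none, 0))} =
        Measure.map (fun c : OConf D => c (none, 0)) (OQ w α D) {a | h ∈ mvis a} := by
      rw [Measure.map_apply (measurable_pi_apply (X := fun _ : Ix D => MC D) ((none, 0) : Ix D)) hm]
      rfl
    rw [h2, h0]
  rw [h1]
  unfold actM
  refine measure_mono fun c hc => ?_
  refine Ent.wake 0 (none, 0) h (Ent.src 0) (Set.mem_univ _) ⟨h, hc, ?_⟩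
  simp [oent]

theorem sum_first_le {s : ℝ} (hs : 0 < s) (F : Set (Site D)) (z : Site D) :
    ∑' y : Site D, OQ w α D {c | Ent F z c 0 (some y, 0)} * ENNReal.ofReal (s ^ y.1) ≤
      ENNReal.ofReal (s ^ z.1) * UgM w α D s := by
  have h1 : ∀ y : Site D, OQ w α D {c | Ent F z c 0 (some y, 0)} * ENNReal.ofReal (s ^ y.1) ≤
      actM w α (y - z) * ENNReal.ofReal (s ^ y.1) :=
    fun y => mul_le_mul_left (prob_first_le w α F z y) _
  refine (ENNReal.tsum_le_tsum h1).trans ?_
  rw [← (Equiv.addRight z).tsum_eq]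
  have h3 : ∀ h : Site D, actM w α (Equiv.addRight z h - z) * ENNReal.ofReal (s ^ (Equiv.addRight z h).1) =
      ENNReal.ofReal (s ^ z.1) * (actM w α h * ENNReal.ofReal (s ^ h.1)) := by
    intro h
    rw [Equiv.coe_addRight, add_sub_cancel_right, Prod.fst_add, ofReal_zpow_add hs]
    ring
  rw [tsum_congr h3, ENNReal.tsum_mul_left]
  rfl

/-- The exits from the first line. -/
theorem exits_le {s : ℝ} (hs : 0 < s) (F : Set (Site D)) (z : Site D) :
    ∫⁻ c, ∑' o : Option (Site D), ind (Ent F z c 0 (o, 0)) * ENNReal.ofReal (s ^ (oent z c o 1).1) ∂OQ w α D ≤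
      ENNReal.ofReal (s ^ z.1) * mfunM w α D s := by
  have h1 : ∀ (c : OConf D) (o : Option (Site D)), ENNReal.ofReal (s ^ (oent z c o 1).1) =
      ENNReal.ofReal (s ^ (o.getD z).1) * ENNReal.ofReal (s ^ (mvec (c (o, 0))).1) := by
    intro c o
    simp only [oent, Finset.sum_range_one, Prod.fst_add]
    exact ofReal_zpow_add hs _ _
  have h2 : ∀ o : Option (Site D), ∫⁻ a, ENNReal.ofReal (s ^ (o.getD z).1) * ENNReal.ofReal (s ^ (mvec a).1)
      ∂mcLaw w α D = ENNReal.ofReal (s ^ (o.getD z).1) * kapM w α D s := by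
    intro o
    rw [lintegral_const_mul _ (measurable_of_countable _)]
    rfl
  have h0 := lintegral_first w α F z fun (o : Option (Site D)) (a : MC D) =>
    ENNReal.ofReal (s ^ (o.getD z).1) * ENNReal.ofReal (s ^ (mvec a).1)
  simp only [h1]
  rw [h0]
  simp only [h2]
  have h3 := sum_first_le w α hs F z
  calc ENNReal.ofReal (s ^ z.1) * kapM w α D s + ∑' y : Site D, OQ w α D {c | Ent F z c 0 (some y, 0)} *
        (ENNReal.ofReal (s ^ y.1) * kapM w α D s)
      = ENNReal.ofReal (s ^ z.1) * kapM w α D s + (∑' y : Site D, OQ w α D {c | Ent F z c 0 (some y, 0)} *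
        ENNReal.ofReal (s ^ y.1)) * kapM w α D s := by
        rw [← ENNReal.tsum_mul_right]
        congr 1
        exact tsum_congr fun y => (mul_assoc _ _ _).symm
    _ ≤ ENNReal.ofReal (s ^ z.1) * kapM w α D s + (ENNReal.ofReal (s ^ z.1) * UgM w α D s) * kapM w α D s := by
        gcongr
    _ = _ := by
        unfold mfunM
        ring

/-- The visits to the origin on the first line. -/
theorem visits_le {s : ℝ} (hs : 0 < s) (F : Set (Site D)) (z : Site D) :
    ∫⁻ c, N0 F z c ∂OQ w α D ≤ UgM w α D s * (1 + UgM w α D s) * ENNReal.ofReal (s ^ z.1) := by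
  have h1 : ∀ c : OConf D, N0 F z c ≤ ∑' o : Option (Site D), ind (Ent F z c 0 (o, 0)) *
      ind (-(o.getD z) ∈ mvis (c (o, 0))) := by
    intro c
    refine ENNReal.tsum_le_tsum fun o => ?_
    rw [← ind_and]
    refine ind_mono fun h => ⟨h.1, ?_⟩
    obtain ⟨h', hh, h2⟩ := h.2
    have h3 : o.getD z + h' = 0 := by
      simpa [oent] using h2
    have h5 : -(o.getD z) = h' := by
      rw [neg_eq_iff_add_eq_zero]
      exact h3
    rw [h5]
    exact hh
  refine (lintegral_mono h1).trans ?_
  rw [lintegral_first w α F z fun (o : Option (Site D)) (a : MC D) => ind (-(o.getD z) ∈ mvis a)]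
  have h2 : ∀ o : Option (Site D), ∫⁻ a, ind (-(o.getD z) ∈ mvis a) ∂mcLaw w α D ≤
      UgM w α D s * ENNReal.ofReal (s ^ (o.getD z).1) := by
    intro o
    rw [lintegral_ind _ (measurable_of_countable _)]
    refine (vis_le_actM w α _).trans ((actM_le w α hs _).trans ?_)
    rw [Prod.fst_neg, neg_neg]
  have h3 := sum_first_le w α hs F z
  calc _ ≤ UgM w α D s * ENNReal.ofReal (s ^ z.1) + ∑' y : Site D, OQ w α D {c | Ent F z c 0 (some y, 0)} *
        (UgM w α D s * ENNReal.ofReal (s ^ y.1)) :=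
        add_le_add (h2 none) (ENNReal.tsum_le_tsum fun y => mul_le_mul_right (h2 (some y)) _)
    _ = UgM w α D s * ENNReal.ofReal (s ^ z.1) + UgM w α D s * ∑' y : Site D, OQ w α D {c | Ent F z c 0 (some y, 0)} *
        ENNReal.ofReal (s ^ y.1) := by
        rw [← ENNReal.tsum_mul_left]
        congr 1
        refine tsum_congr fun y => ?_
        ring
    _ ≤ UgM w α D s * ENNReal.ofReal (s ^ z.1) + UgM w α D s * (ENNReal.ofReal (s ^ z.1) * UgM w α D s) := by gcongr
    _ = _ := by ring

end FDr.MT
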