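import Pool.Agent.Lib.MP_e029a2_pr.M.Mc

/-!
# The columns of the process with macro cells: the deterministic part
-/

set_option autoImplicit false

namespace FDr.MT

open MeasureTheory ProbabilityTheory
open scoped ENNReal
open FDr.M

/-- the signed height -/
def ht (s : Bool) (y : Site 1) : ℤ := sg s * y.2 0

/-- the site of the column `x` with the signed height `h` -/
def sst (s : Bool) (x h : ℤ) : Site 1 := (x, fun _ => sg s * h)

theorem sgsg (s : Bool) (h : ℤ) : sg s * (sg s * h) = h := by
  cases s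
  · show (-1 : ℤ) * (-1 * h) = h
    ring
  · show (1 : ℤ) * (1 * h) = h
    ring

theorem ht_sst (s : Bool) (x h : ℤ) : ht s (sst s x h) = h := sgsg s h

theorem sst_ht (s : Bool) (y : Site 1) : sst s y.1 (ht s y) = y := by
  refine Prod.ext rfl ?_
  funext t
  show sg s * (sg s * y.2 0) = y.2 t
  rw [sgsg, Subsingleton.elim t 0]

theorem sst_inj {s : Bool} {x h h' : ℤ} (he : sst s x h = sst s x h') : h = h' := by
  have h1 := congrArg (ht s) he
  rwa [ht_sst, ht_sst] at h1

theorem ht_zero (s : Bool) : ht s 0 = 0 := by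
  show sg s * 0 = 0
  rw [mul_zero]

theorem ht_add (s : Bool) (y : Site 1) (a : MC 1) : ht s (y + mdsp a) = ht s y + sg s * vs a := by
  show sg s * (y.2 0 + (mdsp a).2 0) = sg s * y.2 0 + sg s * (mdsp a).2 0
  ring

theorem ovis_iff {c : OConf 1} {o : Option (Site 1)} {y : Site 1} :
    OVis 0 c (o, 0) y ↔ ∃ a1 a2, c (o, 0) = a1 ++ a2 ∧ o.getD 0 + mdsp a1 = y := by
  have h0 : oent 0 c o 0 = o.getD 0 := by
    unfold oent
    rw [Finset.sum_range_zero, add_zero]
  constructor
  · rintro ⟨_, ⟨i, h1, rfl⟩, h2⟩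
    refine ⟨(c (o, 0)).take i, (c (o, 0)).drop i, (List.take_append_drop i _).symm, ?_⟩
    rw [← h2]
    simp only
    rw [h0]
  · rintro ⟨a1, a2, h1, h2⟩
    refine ⟨mdsp a1, ⟨a1.length, ?_, ?_⟩, ?_⟩
    · rw [h1, List.length_append]
      exact Nat.le_add_right _ _
    · rw [h1, List.take_left]
    · simp only
      rw [h0]
      exact h2

theorem ent_zero_snd {F : Set (Site 1)} {c : OConf 1} {e : Ix 1} (h : Ent F 0 c 0 e) : e = (e.1, 0) :=
  Prod.ext rfl (Nat.le_zero.1 h.frog.2)

/-- the sites on the left of the column `x` -/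
def lf (x : ℤ) : Set (Site 1) := {y | y.1 < x}

theorem ent_lf {c : OConf 1} {x : ℤ} {n : ℕ} {e : Ix 1} (h : Ent Set.univ 0 c n e) (h0 : n = 0)
    (hx : e.1 = none ∨ (e.1.getD 0).1 < x) : Ent (lf x) 0 c 0 e := by
  induction h with
  | src n => exact Ent.src _
  | cont n o j _ _ => exact absurd h0 (Nat.succ_ne_zero n)
  | wake n e y he _ hv ih =>
    subst h0
    have hy : y.1 < x := by
      rcases hx with h1 | h1
      · simp at h1
      · simpa using h1
    rw [ent_zero_snd he] at hv
    obtain ⟨a1, a2, h1, h2⟩ := ovis_iff.1 hv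
    refine Ent.wake _ e _ (ih rfl ?_) hy (by rw [ent_zero_snd he]; exact hv)
    right
    have h3 := mdsp_fst_nonneg a1
    have h4 : (e.1.getD 0).1 + (mdsp a1).1 = y.1 := by
      rw [← h2]
      rfl
    omega

/-- the columns are nonnegative -/
theorem ent_col {F : Set (Site 1)} {c : OConf 1} {n : ℕ} {e : Ix 1} (h : Ent F 0 c n e) (h0 : n = 0) :
    0 ≤ (e.1.getD 0).1 := by
  induction h with
  | src n => exact le_rfl
  | cont n o j _ _ => exact absurd h0 (Nat.succ_ne_zero n)
  | wake n e y he _ hv ih =>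
    subst h0
    rw [ent_zero_snd he] at hv
    obtain ⟨a1, a2, h1, h2⟩ := ovis_iff.1 hv
    have h3 := mdsp_fst_nonneg a1
    have h4 : (e.1.getD 0).1 + (mdsp a1).1 = y.1 := by
      rw [← h2]
      rfl
    have h5 := ih rfl
    show 0 ≤ y.1
    omega

/-- a frog enters the column `x` at a height at least `g` -/
def Uv (s : Bool) (x g : ℤ) (c : OConf 1) : Prop :=
  (x = 0 ∧ g ≤ 0) ∨ ∃ (o : Option (Site 1)) (l1 l2 : MC 1), Ent (lf x) 0 c 0 (o, 0) ∧ c (o, 0) = l1 ++ none :: l2 ∧
    (o.getD 0 + mdsp (l1 ++ [none])).1 = x ∧ g ≤ ht s (o.getD 0 + mdsp (l1 ++ [none]))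

/-- the environment without a window of the column `x` -/
def Fw (s : Bool) (x g h : ℤ) : Set (Site 1) := {y | ¬ (y.1 = x ∧ g ≤ ht s y ∧ ht s y < h)}

/-- the last part of a path to the column `x` -/
theorem path_end {y0 y : Site 1} {a1 : MC 1} (h : y0 + mdsp a1 = y) :
    (y0.1 = y.1 ∧ ∀ x ∈ a1, x ≠ none) ∨ ∃ l1 l3, a1 = l1 ++ none :: l3 ∧ (∀ x ∈ l3, x ≠ none) ∧
      (y0 + mdsp (l1 ++ [none])).1 = y.1 ∧ y0.1 < y.1 ∧ y = y0 + mdsp (l1 ++ [none]) + mdsp l3 := by
  rcases split_last a1 with h1 | ⟨l1, l3, h1, h2⟩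
  · left
    refine ⟨?_, h1⟩
    rw [← h, Prod.fst_add, mdsp_fst_zero a1 h1, add_zero]
  · right
    have h3 : a1 = (l1 ++ [none]) ++ l3 := by
      rw [h1, List.append_assoc]
      rfl
    have h4 : y = y0 + mdsp (l1 ++ [none]) + mdsp l3 := by
      rw [← h, h3, mdsp_append (l1 ++ [none]) l3, add_assoc]
    have h5 : (y0 + mdsp (l1 ++ [none])).1 = y.1 := by
      rw [h4, Prod.fst_add (y0 + _), mdsp_fst_zero l3 h2, add_zero]
    refine ⟨l1, l3, h1, h2, h5, ?_, h4⟩
    rw [← h5, mdsp_append, Prod.fst_add, Prod.fst_add]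
    have h6 := mdsp_fst_nonneg l1
    have h7 : (mdsp ([none] : MC 1)).1 = 1 := rfl
    omega

/-- vertical steps pass through all the heights -/
theorem pass {s : Bool} {p : Site 1} {l3 : MC 1} {m : ℤ} (h3 : ∀ x ∈ l3, x ≠ none) (h1 : ht s p ≤ m)
    (h2 : m ≤ ht s (p + mdsp l3)) :
    ∃ l31 l32, l3 = l31 ++ l32 ∧ (∀ x ∈ l31, x ≠ none) ∧ vs l31 = sg s * (m - ht s p) ∧
      p + mdsp l31 = sst s p.1 m := by
  rw [ht_add] at h2
  obtain ⟨l31, l32, h4, h5⟩ := ivt l3 (sg s * (m - ht s p)) (by
    cases s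
    · have e : sg false = -1 := rfl
      rw [e] at h2 ⊢
      right
      constructor <;> linarith
    · have e : sg true = 1 := rfl
      rw [e] at h2 ⊢
      left
      constructor <;> linarith)
  have h6 : ∀ x ∈ l31, x ≠ none := fun x hx => h3 x (by rw [h4]; exact List.mem_append_left _ hx)
  refine ⟨l31, l32, h4, h6, h5, ?_⟩
  have h7 : ht s (p + mdsp l31) = m := by
    rw [ht_add, h5, sgsg]
    ring
  have h8 := sst_ht s (p + mdsp l31)
  rw [h7, Prod.fst_add, mdsp_fst_zero l31 h6, add_zero] at h8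
  exact h8.symm

/-- the site `(x, g)` is visited without the window -/
def Vw (s : Bool) (x g h : ℤ) (c : OConf 1) : Prop :=
  ∃ e, Ent (Fw s x g h) 0 c 0 e ∧ OVis 0 c e (sst s x g)

theorem claimA {c : OConf 1} {s : Bool} {x g h : ℤ} (hU : ¬ Uv s x g c) {n : ℕ} {e : Ix 1}
    (he : Ent Set.univ 0 c n e) (hn : n = 0) (hx : (e.1.getD 0).1 ≤ x) :
    (Ent (Fw s x g h) 0 c 0 e ∧ ((e.1.getD 0).1 < x ∨ ht s (e.1.getD 0) < g)) ∨ Vw s x g h c := by
  induction he with
  | src n =>
    left
    refine ⟨Ent.src _, ?_⟩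
    have hx' : (0 : ℤ) ≤ x := hx
    rcases eq_or_lt_of_le hx' with h1 | h1
    · right
      show ht s 0 < g
      rw [ht_zero]
      by_contra h2
      exact hU (Or.inl ⟨h1.symm, not_lt.1 h2⟩)
    · left
      exact h1
  | cont n o j _ _ => exact absurd hn (Nat.succ_ne_zero n)
  | wake n e y he _ hv ih =>
    subst hn
    have hx' : y.1 ≤ x := hx
    have he0 := ent_zero_snd he
    rw [he0] at hv
    obtain ⟨a1, a2, h1, h2⟩ := ovis_iff.1 hv
    have hcol : (e.1.getD 0).1 ≤ y.1 := by
      rw [← h2, Prod.fst_add]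
      have := mdsp_fst_nonneg a1
      omega
    rcases ih rfl (hcol.trans hx') with ⟨h3, h4⟩ | h3
    · have hy : y ∈ Fw s x g h → (y.1 < x ∨ ht s y < g) → (Ent (Fw s x g h) 0 c 0 (some y, 0) ∧
          ((y.1 < x) ∨ ht s y < g)) := fun h5 h6 => ⟨Ent.wake _ e _ h3 h5 (by rw [he0]; exact hv), h6⟩
      rcases lt_or_eq_of_le hx' with h5 | h5
      · left
        refine hy ?_ (Or.inl h5)
        rintro ⟨h6, -⟩
        omega
      · by_cases h6 : ht s y < g
        · left
          refine hy ?_ (Or.inr h6)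
          rintro ⟨-, h7, -⟩
          omega
        · right
          rw [not_lt] at h6
          rcases path_end h2 with ⟨h7, h8⟩ | ⟨l1, l3, h7, h8, h9, h10, h11⟩
          · have h9 : ht s (e.1.getD 0) < g := by
              rcases h4 with h4 | h4
              · omega
              · exact h4
            obtain ⟨l31, l32, h10, -, -, h12⟩ := pass (s := s) (p := e.1.getD 0) (m := g) h8 h9.le (by rw [h2]; exact h6)
            refine ⟨e, h3, ?_⟩
            rw [he0]
            refine ovis_iff.2 ⟨l31, l32 ++ a2, ?_, ?_⟩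
            · rw [h1, h10, List.append_assoc]
            · rw [h12, h7, h5]
          · have h12 : ht s (e.1.getD 0 + mdsp (l1 ++ [none])) < g := by
              by_contra h13
              refine hU (Or.inr ⟨e.1, l1, l3 ++ a2, ?_, ?_, ?_, not_lt.1 h13⟩)
              · rw [← he0]
                exact ent_lf he rfl (Or.inr (by omega))
              · rw [h1, h7, List.append_assoc]
                rfl
              · rw [h9, h5]
            obtain ⟨l31, l32, h13, -, -, h15⟩ := pass (s := s) (p := e.1.getD 0 + mdsp (l1 ++ [none])) (m := g) h8 h12.le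
              (by rw [← h11]; exact h6)
            refine ⟨e, h3, ?_⟩
            rw [he0]
            refine ovis_iff.2 ⟨(l1 ++ [none]) ++ l31, l32 ++ a2, ?_, ?_⟩
            · rw [h1, h7, h13]
              simp
            · rw [mdsp_append (l1 ++ [none]) l31, ← add_assoc, h15, h9, h5]
    · exact Or.inr h3

/-- a frog enters the column `x` below `g`, and then reaches the height `h` -/
def I1 (s : Bool) (x g h : ℤ) (c : OConf 1) : Prop :=
  ∃ (o : Option (Site 1)) (l1 l2 : MC 1), Ent (lf x) 0 c 0 (o, 0) ∧ c (o, 0) = l1 ++ none :: l2 ∧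
    (o.getD 0 + mdsp (l1 ++ [none])).1 = x ∧ ht s (o.getD 0 + mdsp (l1 ++ [none])) < g ∧
    RV l2 (sg s * (h - ht s (o.getD 0 + mdsp (l1 ++ [none]))))

/-- the first frog reaches the height `h` of its column -/
def I0 (s : Bool) (x g h : ℤ) (c : OConf 1) : Prop := x = 0 ∧ 0 < g ∧ RV (c (none, 0)) (sg s * h)

/-- a frog of the column `x`, below `g`, reaches the height `h` -/
def I2 (s : Bool) (x g h : ℤ) (c : OConf 1) : Prop :=
  ∃ h' : ℤ, h' < g ∧ Ent Set.univ 0 c 0 (some (sst s x h'), 0) ∧ RV (c (some (sst s x h'), 0)) (sg s * (h - h'))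

/-- a frog of the window reaches the height `h` -/
def I3 (s : Bool) (x g h : ℤ) (c : OConf 1) : Prop :=
  ∃ h' : ℤ, g ≤ h' ∧ h' < h ∧ RV (c (some (sst s x h'), 0)) (sg s * (h - h'))

theorem claimB {c : OConf 1} {s : Bool} {x g h : ℤ} (hgh : g ≤ h) (hU : ¬ Uv s x g c) {n : ℕ} {e : Ix 1}
    (he : Ent Set.univ 0 c n e) (hn : n = 0) (hx : (e.1.getD 0).1 ≤ x) :
    ((e.1.getD 0).1 < x ∨ ht s (e.1.getD 0) < h) ∨ I1 s x g h c ∨ I0 s x g h c ∨ I2 s x g h c ∨ I3 s x g h c := by
  induction he with
  | src n =>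
    left
    have hx' : (0 : ℤ) ≤ x := hx
    rcases eq_or_lt_of_le hx' with h1 | h1
    · right
      show ht s 0 < h
      rw [ht_zero]
      by_contra h2
      exact hU (Or.inl ⟨h1.symm, by omega⟩)
    · left
      exact h1
  | cont n o j _ _ => exact absurd hn (Nat.succ_ne_zero n)
  | wake n e y he _ hv ih =>
    subst hn
    have hx' : y.1 ≤ x := hx
    have he0 := ent_zero_snd he
    rw [he0] at hv
    obtain ⟨a1, a2, h1, h2⟩ := ovis_iff.1 hv
    have hcol : (e.1.getD 0).1 ≤ y.1 := by
      rw [← h2, Prod.fst_add]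
      have := mdsp_fst_nonneg a1
      omega
    rcases ih rfl (hcol.trans hx') with h4 | h4
    · rcases lt_or_eq_of_le hx' with h5 | h5
      · exact Or.inl (Or.inl h5)
      · by_cases h6 : ht s y < h
        · exact Or.inl (Or.inr h6)
        · right
          rw [not_lt] at h6
          rcases path_end h2 with ⟨h7, h8⟩ | ⟨l1, l3, h7, h8, h9, h10, h11⟩
          · have h9 : ht s (e.1.getD 0) < h := by
              rcases h4 with h4 | h4
              · omega
              · exact h4
            obtain ⟨l31, l32, h10, h13, h14, -⟩ := pass (s := s) (p := e.1.getD 0) (m := h) h8 h9.le (by rw [h2]; exact h6)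
            have hrv : RV (c (e.1, 0)) (sg s * (h - ht s (e.1.getD 0))) :=
              ⟨l31, l32 ++ a2, by rw [h1, h10, List.append_assoc], h13, h14⟩
            right
            cases ho : e.1 with
            | none =>
              left
              rw [ho] at hrv h7 hcol
              have h15 : x = 0 := by
                rw [← h5, ← h7]
                rfl
              refine ⟨h15, ?_, ?_⟩
              · by_contra h16
                exact hU (Or.inl ⟨h15, not_lt.1 h16⟩)
              · rw [Option.getD_none, ht_zero, sub_zero] at hrv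
                exact hrv
            | some y0 =>
              right
              rw [ho] at hrv h7 h9
              rw [Option.getD_some] at hrv h7 h9
              have h15 : sst s x (ht s y0) = y0 := by
                rw [← h5, ← h7]
                exact sst_ht s y0
              by_cases h16 : ht s y0 < g
              · left
                refine ⟨ht s y0, h16, ?_, ?_⟩
                · rw [h15, ← ho, ← he0]
                  exact he
                · rw [h15]
                  exact hrv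
              · right
                refine ⟨ht s y0, not_lt.1 h16, h9, ?_⟩
                rw [h15]
                exact hrv
          · have hent : Ent (lf x) 0 c 0 (e.1, 0) := by
              rw [← he0]
              exact ent_lf he rfl (Or.inr (by omega))
            have h12 : ht s (e.1.getD 0 + mdsp (l1 ++ [none])) < g := by
              by_contra h13
              refine hU (Or.inr ⟨e.1, l1, l3 ++ a2, hent, ?_, ?_, not_lt.1 h13⟩)
              · rw [h1, h7, List.append_assoc]
                rfl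
              · rw [h9, h5]
            obtain ⟨l31, l32, h13, h14, h15, -⟩ := pass (s := s) (p := e.1.getD 0 + mdsp (l1 ++ [none])) (m := h) h8
              (by omega) (by rw [← h11]; exact h6)
            left
            refine ⟨e.1, l1, l3 ++ a2, hent, ?_, ?_, h12, l31, l32 ++ a2, ?_, h14, h15⟩
            · rw [h1, h7, List.append_assoc]
              rfl
            · rw [h9, h5]
            · rw [h13, List.append_assoc]
    · exact Or.inr h4

/-- **The decomposition.** -/
theorem decomp {c : OConf 1} {s : Bool} {x g h : ℤ} (hgh : g ≤ h) (hU : ¬ Uv s x g c)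
    (hV : Ent Set.univ 0 c 0 (some (sst s x h), 0)) :
    I1 s x g h c ∨ I0 s x g h c ∨ I2 s x g h c ∨ (I3 s x g h c ∧ (Vw s x g h c ∧ ¬ Uv s x g c)) := by
  have hx : ((some (sst s x h)).getD 0).1 ≤ x := le_rfl
  have hA := claimA (h := h) hU hV rfl hx
  have hB := claimB hgh hU hV rfl hx
  have h1 : ((some (sst s x h)).getD 0).1 = x := rfl
  have h2 : ht s ((some (sst s x h)).getD 0) = h := ht_sst s x h
  rw [h1, h2] at hA hB
  have hV' : Vw s x g h c := by
    rcases hA with ⟨-, h3 | h3⟩ | h3
    · exact absurd h3 (lt_irrefl _)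
    · exact absurd h3 (not_lt.2 hgh)
    · exact h3
  rcases hB with (h3 | h3) | h3 | h3 | h3 | h3
  · exact absurd h3 (lt_irrefl _)
  · exact absurd h3 (lt_irrefl _)
  · exact Or.inl h3
  · exact Or.inr (Or.inl h3)
  · exact Or.inr (Or.inr (Or.inl h3))
  · exact Or.inr (Or.inr (Or.inr ⟨h3, hV', hU⟩))

/-- the site `(x, g)` is visited -/
theorem vw_v {c : OConf 1} {s : Bool} {x g h : ℤ} (hV : Vw s x g h c) : Ent Set.univ 0 c 0 (some (sst s x g), 0) := by
  obtain ⟨e, h1, h2⟩ := hV
  exact Ent.wake _ e _ (h1.mono (Set.subset_univ _) le_rfl) (Set.mem_univ _) h2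

/-- a site at a height at least `g ≥ 1` is visited: then the height `g` is visited, in a column on the left -/
theorem reach_height {c : OConf 1} {s : Bool} {g : ℤ} (hg : 1 ≤ g) {n : ℕ} {e : Ix 1}
    (he : Ent Set.univ 0 c n e) (hn : n = 0) : ht s (e.1.getD 0) < g ∨
      ∃ x', x' ≤ (e.1.getD 0).1 ∧ Ent Set.univ 0 c 0 (some (sst s x' g), 0) := by
  induction he with
  | src n =>
    left
    show ht s 0 < g
    rw [ht_zero]
    omega
  | cont n o j _ _ => exact absurd hn (Nat.succ_ne_zero n)
  | wake n e y he _ hv ih =>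
    subst hn
    have he0 := ent_zero_snd he
    rw [he0] at hv
    obtain ⟨a1, a2, h1, h2⟩ := ovis_iff.1 hv
    have hcol : (e.1.getD 0).1 ≤ y.1 := by
      rw [← h2, Prod.fst_add]
      have := mdsp_fst_nonneg a1
      omega
    by_cases h6 : ht s y < g
    · exact Or.inl h6
    · right
      rw [not_lt] at h6
      rcases ih rfl with h3 | ⟨x', h3, h4⟩
      · obtain ⟨l1, l2, h4, h5⟩ := ivt a1 (sg s * (g - ht s (e.1.getD 0))) (by
          rw [← h2, ht_add] at h6
          cases s
          · have e : sg false = -1 := rfl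
            rw [e] at h6 ⊢
            right
            constructor <;> linarith
          · have e : sg true = 1 := rfl
            rw [e] at h6 ⊢
            left
            constructor <;> linarith)
        have h7 : ht s (e.1.getD 0 + mdsp l1) = g := by
          rw [ht_add, h5, sgsg]
          ring
        have h8 := sst_ht s (e.1.getD 0 + mdsp l1)
        rw [h7] at h8
        refine ⟨(e.1.getD 0 + mdsp l1).1, ?_, ?_⟩
        · show (e.1.getD 0 + mdsp l1).1 ≤ y.1
          rw [← h2, h4, mdsp_append, Prod.fst_add, Prod.fst_add, Prod.fst_add]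
          have := mdsp_fst_nonneg l2
          omega
        · rw [h8]
          refine Ent.wake _ e _ he (Set.mem_univ _) ?_
          rw [he0]
          exact ovis_iff.2 ⟨l1, l2 ++ a2, by rw [h1, h4, List.append_assoc], rfl⟩
      · exact ⟨x', h3.trans hcol, h4⟩

theorem uv_reach {c : OConf 1} {s : Bool} {x g : ℤ} (hg : 1 ≤ g) (h : Uv s x g c) :
    ∃ x', 0 ≤ x' ∧ x' < x ∧ Ent Set.univ 0 c 0 (some (sst s x' g), 0) := by
  rcases h with ⟨-, h1⟩ | ⟨o, l1, l2, h1, h2, h3, h4⟩
  · omega
  · -- the site before the last step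
    have h5 : Ent Set.univ 0 c 0 (some (o.getD 0 + mdsp l1), 0) := by
      refine Ent.wake _ (o, 0) _ (h1.mono (Set.subset_univ _) le_rfl) (Set.mem_univ _) ?_
      exact ovis_iff.2 ⟨l1, none :: l2, h2, rfl⟩
    have h6 : ht s (o.getD 0 + mdsp (l1 ++ [none])) = ht s (o.getD 0 + mdsp l1) := by
      rw [ht_add, ht_add, vs_append]
      have : vs ([none] : MC 1) = 0 := rfl
      rw [this, add_zero]
    have h7 : (o.getD 0 + mdsp (l1 ++ [none])).1 = (o.getD 0 + mdsp l1).1 + 1 := by
      rw [mdsp_append, ← add_assoc]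
      rfl
    rcases reach_height (s := s) hg h5 rfl with h8 | ⟨x', h8, h9⟩
    · have h10 : ht s (o.getD 0 + mdsp l1) < g := h8
      omega
    · have h10 : x' ≤ (o.getD 0 + mdsp l1).1 := h8
      exact ⟨x', ent_col h9 rfl, by omega, h9⟩

theorem uv_anti {c : OConf 1} {s : Bool} {x g g' : ℤ} (h : g ≤ g') (hU : Uv s x g' c) : Uv s x g c := by
  rcases hU with ⟨h1, h2⟩ | ⟨o, l1, l2, h1, h2, h3, h4⟩
  · exact Or.inl ⟨h1, h.trans h2⟩
  · exact Or.inr ⟨o, l1, l2, h1, h2, h3, h.trans h4⟩

end FDr.MT
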