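import Pool.Agent.Lib.MP_e029a2_pr.M.UA
import Pool.Agent.Lib.MP_e029a2_pr.M.TE
import Pool.Agent.Lib.MP_e029a2_pr.CB.Est

/-!
# The columns of the process with macro cells: probabilities
-/

set_option autoImplicit false

namespace FDr.MT

open MeasureTheory ProbabilityTheory
open scoped ENNReal
open FDr.M
open FDr.TR (ind ind_true ind_false ind_mono ind_and ind_congr measurable_ind lintegral_ind tsum_ind_and tsum_opt
  lintegral_mul_of_disj lintegral_reindex lintegral_coord)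

/-! ### Measurability -/

theorem meas_cell (i : Ix 1) (B : MC 1 → Prop) : Measurable fun c : OConf 1 => B (c i) :=
  (measurable_of_countable B).comp (measurable_pi_apply i)

theorem meas_uv (s : Bool) (x g : ℤ) : Measurable fun c : OConf 1 => Uv s x g c := by
  unfold Uv
  refine Measurable.or measurable_const (Measurable.exists fun o => Measurable.exists fun l1 => Measurable.exists fun l2 => ?_)
  exact (measurable_ent _ _ _ _).and ((meas_cell _ fun a => a = l1 ++ none :: l2).and measurable_const)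

theorem meas_vw (s : Bool) (x g h : ℤ) : Measurable fun c : OConf 1 => Vw s x g h c := by
  unfold Vw
  exact Measurable.exists fun e => (measurable_ent _ _ _ _).and (measurable_ovis _ _ _)

theorem meas_i3 (s : Bool) (x g h : ℤ) : Measurable fun c : OConf 1 => I3 s x g h c := by
  unfold I3
  exact Measurable.exists fun h' => measurable_const.and (measurable_const.and (meas_cell _ fun a => RV a _))

/-! ### Dependence -/

/-- the cells of the window -/
def Wn (s : Bool) (x g h : ℤ) : Set (Ix 1) := {i | ∃ h' : ℤ, g ≤ h' ∧ h' < h ∧ i = (some (sst s x h'), 0)}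

theorem uv_dep {s : Bool} {x g h G : ℤ} {c c' : OConf 1} (hc : ∀ i, i ∉ Wn s x g h → c i = c' i) (hU : Uv s x G c) :
    Uv s x G c' := by
  rcases hU with h1 | ⟨o, l1, l2, h1, h2, h3, h4⟩
  · exact Or.inl h1
  · have key : ∀ e : Ix 1, (∀ y, e.1 = some y → y ∈ lf x) → c e = c' e := by
      intro e he
      refine hc e ?_
      rintro ⟨h', -, -, h5⟩
      have h6 := he (sst s x h') (by rw [h5])
      have h7 : x < x := h6
      exact lt_irrefl _ h7
    refine Or.inr ⟨o, l1, l2, ent_congr (fun e h5 _ => key e h5) h1, ?_, h3, h4⟩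
    rw [← key (o, 0) h1.frog.1]
    exact h2

theorem vw_dep {s : Bool} {x g h : ℤ} {c c' : OConf 1} (hc : ∀ i, i ∉ Wn s x g h → c i = c' i) (hV : Vw s x g h c) :
    Vw s x g h c' := by
  obtain ⟨e, h1, h2⟩ := hV
  have key : ∀ e : Ix 1, (∀ y, e.1 = some y → y ∈ Fw s x g h) → c e = c' e := by
    intro e he
    refine hc e ?_
    rintro ⟨h', h3, h4, h5⟩
    have h6 := he (sst s x h') (by rw [h5])
    exact h6 ⟨rfl, by rw [ht_sst]; exact h3, by rw [ht_sst]; exact h4⟩
  refine ⟨e, ent_congr (fun e h5 _ => key e h5) h1, (ovis_congr (fun i _ => ?_) _).1 h2⟩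
  exact key _ h1.frog.1

theorem i3_dep {s : Bool} {x g h : ℤ} {c c' : OConf 1} (hc : ∀ i ∈ Wn s x g h, c i = c' i) (hI : I3 s x g h c) :
    I3 s x g h c' := by
  obtain ⟨h', h1, h2, h3⟩ := hI
  refine ⟨h', h1, h2, ?_⟩
  rw [← hc _ ⟨h', h1, h2, rfl⟩]
  exact h3

variable (w α : Set.Ioo (0 : ℝ) 1)

/-- the probability that the site `(x, h)` is visited -/
noncomputable def pp (s : Bool) (x h : ℤ) : ℝ≥0∞ := OQ w α 1 {c | Ent Set.univ 0 c 0 (some (sst s x h), 0)}

theorem pp_eq (s : Bool) (x h : ℤ) : pp w α s x h = actM w α (sst s x h) := rfl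

theorem pp_le_one (s : Bool) (x h : ℤ) : pp w α s x h ≤ 1 := prob_le_one

/-- the probability that `(x, h)` is visited, but no frog enters the column at a height at least `h` -/
noncomputable def qq (s : Bool) (x h : ℤ) : ℝ≥0∞ :=
  OQ w α 1 {c | Ent Set.univ 0 c 0 (some (sst s x h), 0) ∧ ¬ Uv s x h c}

theorem qq_le_one (s : Bool) (x h : ℤ) : qq w α s x h ≤ 1 := prob_le_one

/-- the probability of an entry above `g` -/
noncomputable def uu (s : Bool) (x g : ℤ) : ℝ≥0∞ := OQ w α 1 {c | Uv s x g c}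

theorem pp_le (s : Bool) (x h : ℤ) : pp w α s x h ≤ uu w α s x h + qq w α s x h := by
  refine (measure_mono ?_).trans (measure_union_le _ _)
  intro c hc
  by_cases hU : Uv s x h c
  · exact Or.inl hU
  · exact Or.inr ⟨hc, hU⟩

/-! ### The window -/

theorem i3_prob {r : ℝ} (hr0 : 0 < r) (hr1 : r < 1) (hr : (1 - w) / 2 * (1 + r ^ 2) ≤ r) (s : Bool) (x h : ℤ) (k : ℕ) :
    OQ w α 1 {c | I3 s x (h - k) h c} ≤ ENNReal.ofReal (1 - ∏ j ∈ Finset.Icc 1 k, (1 - r ^ j)) := by
  have hmi : MeasurableSet {c : OConf 1 | I3 s x (h - k) h c} := measurableSet_setOfPred.2 (meas_i3 s x (h - k) h)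
  have h1 := CB.prod_dep' (mcLaw w α 1) (Finset.Icc 1 k) (fun j : ℕ => {((some (sst s x (h - j)), 0) : Ix 1)})
    (fun j _ j' _ hne => by
      rw [Set.disjoint_singleton]
      intro h2
      have h3 : sst s x (h - j) = sst s x (h - j') := by simpa using h2
      have h4 := sst_inj h3
      omega)
    (fun (j : ℕ) (c : OConf 1) => ¬ RV (c (some (sst s x (h - j)), 0)) (sg s * j))
    (fun j _ => measurableSet_setOfPred.2 (meas_cell _ fun a => ¬ RV a (sg s * j)))
    (fun j _ c c' hc => by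
      show (¬ RV (c (some (sst s x (h - j)), 0)) (sg s * j)) = ¬ RV (c' (some (sst s x (h - j)), 0)) (sg s * j)
      rw [hc _ rfl])
  have h2 : ∀ j : ℕ, ENNReal.ofReal (1 - r ^ j) ≤ OQ w α 1 {c | ¬ RV (c (some (sst s x (h - j)), 0)) (sg s * j)} := by
    intro j
    have h3 := rv_prob w α hr0 hr (sg s * j)
    have h4 : (sg s * (j : ℤ)).natAbs = j := by
      rcases CB.sg_cases s with h5 | h5
      · rw [h5]
        omega
      · rw [h5]
        omega
    rw [h4] at h3
    have hm : MeasurableSet {a : MC 1 | RV a (sg s * j)} := MeasurableSet.of_discrete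
    have h5 : OQ w α 1 {c | ¬ RV (c (some (sst s x (h - j)), 0)) (sg s * j)} = mcLaw w α 1 {a | RV a (sg s * j)}ᶜ := by
      have h6 := lintegral_coord (mcLaw w α 1) ((some (sst s x (h - j)), 0) : Ix 1)
        (g := fun a => TR.ind (¬ RV a (sg s * j))) (measurable_of_countable _)
      rw [lintegral_ind _ (meas_cell _ fun a => ¬ RV a (sg s * j)), lintegral_ind _ (measurable_of_countable _)] at h6
      exact h6
    rw [h5, prob_compl_eq_one_sub hm, ENNReal.ofReal_sub _ (by positivity), ENNReal.ofReal_one]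
    exact tsub_le_tsub_left h3 1
  have hφ0 : 0 ≤ ∏ j ∈ Finset.Icc 1 k, (1 - r ^ j) := Finset.prod_nonneg fun j _ => by
    have := pow_le_one₀ (n := j) hr0.le hr1.le
    linarith
  have h3 : ENNReal.ofReal (∏ j ∈ Finset.Icc 1 k, (1 - r ^ j)) ≤
      OQ w α 1 {c | ∀ j ∈ Finset.Icc 1 k, ¬ RV (c (some (sst s x (h - j)), 0)) (sg s * (j : ℕ))} := by
    rw [ENNReal.ofReal_prod_of_nonneg fun j _ => by
      have := pow_le_one₀ (n := j) hr0.le hr1.le
      linarith]
    unfold OQ at h2 ⊢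
    rw [h1]
    exact Finset.prod_le_prod' fun j _ => h2 j
  have h4 : {c : OConf 1 | ∀ j ∈ Finset.Icc 1 k, ¬ RV (c (some (sst s x (h - j)), 0)) (sg s * (j : ℕ))} ⊆
      {c | I3 s x (h - k) h c}ᶜ := by
    rintro c hc ⟨h', h5, h6, h7⟩
    obtain ⟨j, hj⟩ : ∃ j : ℕ, (j : ℤ) = h - h' := ⟨(h - h').toNat, Int.toNat_of_nonneg (by omega)⟩
    refine hc j (Finset.mem_Icc.2 ⟨by omega, by omega⟩) ?_
    rw [hj, show h - (h - h') = h' by ring]
    exact h7
  have h5 := h3.trans (measure_mono h4)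
  rw [prob_compl_eq_one_sub hmi] at h5
  rw [ENNReal.ofReal_sub _ hφ0, ENNReal.ofReal_one]
  rw [ENNReal.le_sub_iff_add_le_right ENNReal.ofReal_ne_top (ENNReal.ofReal_le_one.2 (Finset.prod_le_one
    (fun j _ => by
      have := pow_le_one₀ (n := j) hr0.le hr1.le
      linarith) fun j _ => by
      have := pow_pos hr0 j
      linarith))]
  have h6 := (ENNReal.le_sub_iff_add_le_right (measure_ne_top (OQ w α 1) _) prob_le_one).1 h5
  rw [add_comm]
  exact h6

theorem win_indep (s : Bool) (x g h : ℤ) : OQ w α 1 {c | I3 s x g h c ∧ (Vw s x g h c ∧ ¬ Uv s x g c)} =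
    OQ w α 1 {c | I3 s x g h c} * OQ w α 1 {c | Vw s x g h c ∧ ¬ Uv s x g c} := by
  have hm1 := meas_i3 s x g h
  have hm2 : Measurable fun c : OConf 1 => Vw s x g h c ∧ ¬ Uv s x g c := (meas_vw s x g h).and (meas_uv s x g).not
  have h1 := lintegral_mul_of_disj (mcLaw w α 1) (Wn s x g h) (measurable_ind hm1) (measurable_ind hm2)
    (fun c c' hc => ind_congr ⟨i3_dep hc, i3_dep fun i hi => (hc i hi).symm⟩)
    (fun c c' hc => ind_congr ⟨fun h2 => ⟨vw_dep hc h2.1, fun h3 => h2.2 (uv_dep (fun i hi => (hc i hi).symm) h3)⟩,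
      fun h2 => ⟨vw_dep (fun i hi => (hc i hi).symm) h2.1, fun h3 => h2.2 (uv_dep hc h3)⟩⟩)
  rw [lintegral_ind _ hm1, lintegral_ind _ hm2] at h1
  unfold OQ
  rw [← h1, ← lintegral_ind _ (hm1.and hm2)]
  exact lintegral_congr fun c => ind_and _ _

theorem win_le {r : ℝ} (hr0 : 0 < r) (hr1 : r < 1) (hr : (1 - w) / 2 * (1 + r ^ 2) ≤ r) (s : Bool) (x h : ℤ) (k : ℕ) :
    OQ w α 1 {c | I3 s x (h - k) h c ∧ (Vw s x (h - k) h c ∧ ¬ Uv s x (h - k) c)} ≤
      ENNReal.ofReal (1 - ∏ j ∈ Finset.Icc 1 k, (1 - r ^ j)) * qq w α s x (h - k) := by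
  rw [win_indep]
  refine mul_le_mul' (i3_prob w α hr0 hr1 hr s x h k) (measure_mono ?_)
  rintro c ⟨h1, h2⟩
  exact ⟨vw_v h1, h2⟩

/-! ### The other three terms -/

/-- the probability of an event for a frog of the process and its own cell -/
theorem own_cell (F : Set (Site 1)) (y : Site 1) (B : MC 1 → Prop) :
    OQ w α 1 {c | Ent F 0 c 0 (some y, 0) ∧ B (c (some y, 0))} =
      OQ w α 1 {c | Ent F 0 c 0 (some y, 0)} * mcLaw w α 1 {a | B a} := by
  have hm1 := measurable_ent F 0 0 ((some y, 0) : Ix 1)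
  have hm2 := meas_cell ((some y, 0) : Ix 1) B
  have h1 := lintegral_mul_of_disj (mcLaw w α 1) {((some y, 0) : Ix 1)} (measurable_ind hm2) (measurable_ind hm1)
    (fun c c' hc => by rw [hc _ rfl]) (fun c c' hc => ind_congr (ent_zero_indep hc))
  have h6 := lintegral_coord (mcLaw w α 1) ((some y, 0) : Ix 1) (g := fun a => TR.ind (B a)) (measurable_of_countable _)
  rw [lintegral_ind (mcLaw w α 1) (measurable_of_countable B)] at h6
  rw [h6, lintegral_ind _ hm1] at h1
  unfold OQ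
  rw [mul_comm, ← h1, ← lintegral_ind _ (hm1.and hm2)]
  refine lintegral_congr fun c => ?_
  rw [ind_and, mul_comm]

theorem i2_prob {r : ℝ} (hr0 : 0 < r) (hr : (1 - w) / 2 * (1 + r ^ 2) ≤ r) (s : Bool) (x g h : ℤ) (hgh : g ≤ h) :
    OQ w α 1 {c | I2 s x g h c} ≤ ∑' h' : ℤ, TR.ind (h' < g) * (pp w α s x h' * ENNReal.ofReal (r ^ (h - h').toNat)) := by
  have h1 : {c : OConf 1 | I2 s x g h c} = ⋃ h' : ℤ, {c | h' < g ∧ (Ent Set.univ 0 c 0 (some (sst s x h'), 0) ∧
      RV (c (some (sst s x h'), 0)) (sg s * (h - h')))} := by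
    ext c
    rw [Set.mem_iUnion]
    rfl
  rw [h1]
  refine (measure_iUnion_le _).trans (ENNReal.tsum_le_tsum fun h' => ?_)
  by_cases h2 : h' < g
  · rw [ind_true h2, one_mul]
    have h3 : {c : OConf 1 | h' < g ∧ (Ent Set.univ 0 c 0 (some (sst s x h'), 0) ∧
        RV (c (some (sst s x h'), 0)) (sg s * (h - h')))} = {c | Ent Set.univ 0 c 0 (some (sst s x h'), 0) ∧
        RV (c (some (sst s x h'), 0)) (sg s * (h - h'))} := by
      ext c
      exact ⟨fun h => h.2, fun h => ⟨h2, h⟩⟩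
    rw [h3, own_cell w α Set.univ (sst s x h') fun a => RV a (sg s * (h - h'))]
    refine mul_le_mul' le_rfl ?_
    have h4 := rv_prob w α hr0 hr (sg s * (h - h'))
    have h5 : (sg s * (h - h')).natAbs = (h - h').toNat := by
      rcases CB.sg_cases s with h5 | h5
      · rw [h5]
        omega
      · rw [h5]
        omega
    rwa [h5] at h4
  · have h3 : {c : OConf 1 | h' < g ∧ (Ent Set.univ 0 c 0 (some (sst s x h'), 0) ∧
        RV (c (some (sst s x h'), 0)) (sg s * (h - h')))} = ∅ :=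
      Set.eq_empty_iff_forall_notMem.2 fun c hc => h2 hc.1
    rw [h3, measure_empty]
    exact zero_le

theorem i0_prob {r : ℝ} (hr0 : 0 < r) (hr : (1 - w) / 2 * (1 + r ^ 2) ≤ r) (s : Bool) (x g h : ℤ) (hgh : g ≤ h) :
    OQ w α 1 {c | I0 s x g h c} ≤ ENNReal.ofReal (r ^ h.toNat) := by
  by_cases h2 : 0 < g
  · have h3 : {c : OConf 1 | I0 s x g h c} ⊆ {c | RV (c (none, 0)) (sg s * h)} := fun c hc => hc.2.2
    refine (measure_mono h3).trans ?_
    have h6 := lintegral_coord (mcLaw w α 1) ((none, 0) : Ix 1) (g := fun a => TR.ind (RV a (sg s * h)))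
      (measurable_of_countable _)
    rw [lintegral_ind _ (meas_cell _ fun a => RV a (sg s * h)), lintegral_ind _ (measurable_of_countable _)] at h6
    unfold OQ
    rw [h6]
    have h4 := rv_prob w α hr0 hr (sg s * h)
    have h5 : (sg s * h).natAbs = h.toNat := by
      rcases CB.sg_cases s with h5 | h5
      · rw [h5]
        omega
      · rw [h5]
        omega
    rwa [h5] at h4
  · have h3 : {c : OConf 1 | I0 s x g h c} = ∅ := Set.eq_empty_iff_forall_notMem.2 fun c hc => h2 hc.2.1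
    rw [h3, measure_empty]
    exact zero_le

/-- the probability that the frog `o` belongs to the process on the left of the column `x` -/
noncomputable def pl (x : ℤ) (o : Option (Site 1)) : ℝ≥0∞ := OQ w α 1 {c | Ent (lf x) 0 c 0 (o, 0)}

theorem i1_prob {r : ℝ} (hr0 : 0 < r) (hr : (1 - w) / 2 * (1 + r ^ 2) ≤ r) (s : Bool) (x g h : ℤ) (hgh : g ≤ h) :
    OQ w α 1 {c | I1 s x g h c} ≤ ∑' (o : Option (Site 1)), ∑' (l1 : MC 1),
      TR.ind ((o.getD 0 + mdsp (l1 ++ [none])).1 = x ∧ ht s (o.getD 0 + mdsp (l1 ++ [none])) < g) *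
        (pl w α x o * (M.pw w α (l1 ++ [none] : MC 1) * ENNReal.ofReal (r ^ (h - ht s (o.getD 0 + mdsp (l1 ++ [none]))).toNat))) := by
  have h1 : {c : OConf 1 | I1 s x g h c} ⊆ ⋃ (o : Option (Site 1)), ⋃ (l1 : MC 1),
      {c | ((o.getD 0 + mdsp (l1 ++ [none])).1 = x ∧ ht s (o.getD 0 + mdsp (l1 ++ [none])) < g) ∧
        (Ent (lf x) 0 c 0 (o, 0) ∧ ∃ l2, c (o, 0) = (l1 ++ [none]) ++ l2 ∧
          RV l2 (sg s * (h - ht s (o.getD 0 + mdsp (l1 ++ [none])))))} := by
    rintro c ⟨o, l1, l2, h2, h3, h4, h5, h6⟩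
    refine Set.mem_iUnion.2 ⟨o, Set.mem_iUnion.2 ⟨l1, ⟨h4, h5⟩, h2, l2, ?_, h6⟩⟩
    rw [h3, List.append_assoc]
    rfl
  refine (measure_mono h1).trans ((measure_iUnion_le _).trans (ENNReal.tsum_le_tsum fun o =>
    (measure_iUnion_le _).trans (ENNReal.tsum_le_tsum fun l1 => ?_)))
  by_cases h2 : (o.getD 0 + mdsp (l1 ++ [none])).1 = x ∧ ht s (o.getD 0 + mdsp (l1 ++ [none])) < g
  · rw [ind_true h2, one_mul]
    obtain ⟨m, hm⟩ : ∃ m, m = sg s * (h - ht s (o.getD 0 + mdsp (l1 ++ [none]))) := ⟨_, rfl⟩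
    rw [← hm]
    have h3 : {c : OConf 1 | ((o.getD 0 + mdsp (l1 ++ [none])).1 = x ∧ ht s (o.getD 0 + mdsp (l1 ++ [none])) < g) ∧
        (Ent (lf x) 0 c 0 (o, 0) ∧ ∃ l2, c (o, 0) = (l1 ++ [none]) ++ l2 ∧ RV l2 m)} =
        {c | Ent (lf x) 0 c 0 (o, 0) ∧ ∃ l2, c (o, 0) = (l1 ++ [none]) ++ l2 ∧ RV l2 m} := by
      ext c
      exact ⟨fun h => h.2, fun h => ⟨h2, h⟩⟩
    rw [h3]
    have h4 := rv_prob w α hr0 hr m
    have h5 : m.natAbs = (h - ht s (o.getD 0 + mdsp (l1 ++ [none]))).toNat := by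
      rw [hm]
      obtain ⟨-, h6⟩ := h2
      rcases CB.sg_cases s with h5 | h5
      · rw [h5]
        omega
      · rw [h5]
        omega
    rw [h5] at h4
    have h6 := mc_prefix w α (l1 ++ [none] : MC 1) fun l2 => RV l2 m
    cases o with
    | some y =>
      rw [own_cell w α (lf x) y fun a => ∃ l2, a = (l1 ++ [none]) ++ l2 ∧ RV l2 m, h6]
      exact mul_le_mul' le_rfl (mul_le_mul' le_rfl h4)
    | none =>
      have h7 : OQ w α 1 {c | Ent (lf x) 0 c 0 (none, 0) ∧ ∃ l2, c (none, 0) = (l1 ++ [none]) ++ l2 ∧ RV l2 m} ≤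
          mcLaw w α 1 {a | ∃ l2, a = (l1 ++ [none]) ++ l2 ∧ RV l2 m} := by
        have h8 := lintegral_coord (mcLaw w α 1) ((none, 0) : Ix 1)
          (g := fun a => TR.ind (∃ l2, a = (l1 ++ [none]) ++ l2 ∧ RV l2 m)) (measurable_of_countable _)
        rw [lintegral_ind _ (meas_cell _ fun a => ∃ l2, a = (l1 ++ [none]) ++ l2 ∧ RV l2 m),
          lintegral_ind _ (measurable_of_countable _)] at h8
        unfold OQ
        rw [← h8]
        exact measure_mono fun c hc => hc.2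
      have h8 : pl w α x none = 1 := by
        unfold pl
        have h9 : {c : OConf 1 | Ent (lf x) 0 c 0 (none, 0)} = Set.univ := Set.eq_univ_of_forall fun c => Ent.src _
        rw [h9, measure_univ]
      rw [h8, one_mul]
      refine h7.trans ?_
      rw [h6]
      exact mul_le_mul' le_rfl h4
  · have h3 : {c : OConf 1 | ((o.getD 0 + mdsp (l1 ++ [none])).1 = x ∧ ht s (o.getD 0 + mdsp (l1 ++ [none])) < g) ∧
        (Ent (lf x) 0 c 0 (o, 0) ∧ ∃ l2, c (o, 0) = (l1 ++ [none]) ++ l2 ∧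
          RV l2 (sg s * (h - ht s (o.getD 0 + mdsp (l1 ++ [none])))))} = ∅ :=
      Set.eq_empty_iff_forall_notMem.2 fun c hc => h2 hc.1
    rw [h3, measure_empty]
    exact zero_le

end FDr.MT
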