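import Pool.Agent.Lib.MP_e029a2_pr.M.UB

/-!
# The columns of the process with macro cells: the sums
-/

set_option autoImplicit false

namespace FDr.MT

open MeasureTheory ProbabilityTheory
open scoped ENNReal
open FDr.M
open FDr.TR (ind ind_true ind_false ind_mono ind_and ind_congr measurable_ind lintegral_ind tsum_ind_and tsum_opt
  lintegral_mul_of_disj lintegral_reindex lintegral_coord)

/-! ### Sums -/

theorem tsum_inj_le {A B : Type*} (F : B → ℝ≥0∞) (P : A → Prop) (φ : A → B)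
    (hinj : ∀ a a', P a → P a' → φ a = φ a' → a = a') : ∑' a, TR.ind (P a) * F (φ a) ≤ ∑' b, F b := by
  classical
  have h1 : ∑' a, TR.ind (P a) * F (φ a) = ∑' a : {a | P a}, F (φ a) := by
    rw [tsum_subtype {a | P a} fun a => F (φ a)]
    refine tsum_congr fun a => ?_
    by_cases h : P a
    · rw [ind_true h, one_mul, Set.indicator_of_mem (show a ∈ {a | P a} from h)]
    · rw [ind_false h, zero_mul, Set.indicator_of_notMem (show a ∉ {a | P a} from h)]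
  rw [h1]
  have h2 : Function.Injective fun a : {a | P a} => φ a := fun a a' h => Subtype.ext (hinj _ _ a.2 a'.2 h)
  exact ENNReal.tsum_comp_le_tsum_of_injective h2 F

theorem tsum_geo {r : ℝ} (hr0 : 0 < r) (hr1 : r < 1) (m : ℕ) :
    ∑' j : ℕ, ENNReal.ofReal (r ^ (m + j)) = ENNReal.ofReal (r ^ m / (1 - r)) := by
  have h1 : (fun j : ℕ => r ^ (m + j)) = fun j => r ^ m * r ^ j := funext fun j => pow_add r m j
  have hs : Summable fun j : ℕ => r ^ (m + j) := by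
    rw [h1]
    exact (summable_geometric_of_lt_one hr0.le hr1).mul_left _
  rw [← ENNReal.ofReal_tsum_of_nonneg (fun j => (pow_pos hr0 _).le) hs, h1, tsum_mul_left,
    tsum_geometric_of_lt_one hr0.le hr1, div_eq_mul_inv]

theorem sum_range_ind (n : ℕ) (f : ℕ → ℝ≥0∞) : ∑ i ∈ Finset.range n, f i = ∑' i, TR.ind (i < n) * f i := by
  classical
  rw [tsum_eq_sum (s := Finset.range n)]
  · refine Finset.sum_congr rfl fun i hi => ?_
    rw [ind_true (Finset.mem_range.1 hi), one_mul]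
  · intro i hi
    rw [ind_false fun h => hi (Finset.mem_range.2 h), zero_mul]

theorem sum_tsum {A : Type*} (n : ℕ) (f : ℕ → A → ℝ≥0∞) :
    ∑ i ∈ Finset.range n, ∑' a, f i a = ∑' a, ∑ i ∈ Finset.range n, f i a :=
  (Summable.tsum_finsetSum fun _ _ => ENNReal.summable).symm

/-- the windows above the height `p` -/
theorem geo1 {r : ℝ} (hr0 : 0 < r) (hr1 : r < 1) (n k : ℕ) (p : ℤ) :
    ∑ i ∈ Finset.range n, TR.ind (p < (i : ℤ) + 1) * ENNReal.ofReal (r ^ ((i : ℤ) + 1 + k - p).toNat) ≤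
      ENNReal.ofReal (r ^ (k + 1) / (1 - r)) := by
  rw [← tsum_geo hr0 hr1 (k + 1)]
  refine (ENNReal.sum_le_tsum (Finset.range n)).trans ?_
  have h1 : ∀ i : ℕ, TR.ind (p < (i : ℤ) + 1) * ENNReal.ofReal (r ^ ((i : ℤ) + 1 + k - p).toNat) =
      TR.ind (p < (i : ℤ) + 1) * (fun j : ℕ => ENNReal.ofReal (r ^ (k + 1 + j))) ((i - p).toNat) := by
    intro i
    by_cases h : p < (i : ℤ) + 1
    · have h2 : ((i : ℤ) + 1 + k - p).toNat = k + 1 + (i - p).toNat := by omega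
      rw [h2]
    · rw [ind_false h, zero_mul, zero_mul]
  rw [tsum_congr h1]
  exact tsum_inj_le _ _ _ fun i i' h h' he => by omega

theorem geo0 {r : ℝ} (hr0 : 0 < r) (hr1 : r < 1) (n k : ℕ) {p : ℤ} (hp : p ≤ 0) :
    ∑ i ∈ Finset.range n, TR.ind (p < (i : ℤ) + 1) * ENNReal.ofReal (r ^ ((i : ℤ) + 1 + k - p).toNat) ≤
      ENNReal.ofReal (r ^ (k + 1) / (1 - r)) * ENNReal.ofReal (r ^ (-p).toNat) := by
  rw [← tsum_geo hr0 hr1 (k + 1), ← ENNReal.tsum_mul_right]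
  refine (ENNReal.sum_le_tsum (Finset.range n)).trans (ENNReal.tsum_le_tsum fun i => ?_)
  have h2 : ((i : ℤ) + 1 + k - p).toNat = k + 1 + i + (-p).toNat := by omega
  rw [ind_true (by omega), one_mul, h2, pow_add _ (k + 1 + i), ENNReal.ofReal_mul (pow_pos hr0 _).le]

variable (w α : Set.Ioo (0 : ℝ) 1)

section col

variable {r : ℝ} (hr0 : 0 < r) (hr1 : r < 1) (hr : (1 - w) / 2 * (1 + r ^ 2) ≤ r) (s : Bool) (x : ℤ) (n k : ℕ)

include hr0 hr1 hr

theorem sum_i0 : ∑ i ∈ Finset.range n, OQ w α 1 {c | I0 s x ((i : ℤ) + 1) ((i : ℤ) + 1 + k) c} ≤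
    ENNReal.ofReal (r ^ (k + 1) / (1 - r)) := by
  rw [← tsum_geo hr0 hr1 (k + 1)]
  refine (Finset.sum_le_sum fun (i : ℕ) _ => i0_prob w α hr0 hr s x ((i : ℤ) + 1) ((i : ℤ) + 1 + k) (by omega)).trans ?_
  refine (ENNReal.sum_le_tsum (Finset.range n)).trans (ENNReal.tsum_le_tsum fun i => ?_)
  have h2 : ((i : ℤ) + 1 + k).toNat = k + 1 + i := by omega
  rw [h2]

theorem sum_i1 : ∑ i ∈ Finset.range n, OQ w α 1 {c | I1 s x ((i : ℤ) + 1) ((i : ℤ) + 1 + k) c} ≤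
    ENNReal.ofReal (r ^ (k + 1) / (1 - r)) * ∑' o : Option (Site 1), pl w α x o := by
  refine (Finset.sum_le_sum fun (i : ℕ) _ => i1_prob w α hr0 hr s x ((i : ℤ) + 1) ((i : ℤ) + 1 + k) (by omega)).trans ?_
  rw [sum_tsum, ← ENNReal.tsum_mul_left]
  refine ENNReal.tsum_le_tsum fun o => ?_
  rw [sum_tsum]
  have h1 : ∀ l1 : MC 1, ∑ i ∈ Finset.range n,
      TR.ind ((o.getD 0 + mdsp (l1 ++ [none])).1 = x ∧ ht s (o.getD 0 + mdsp (l1 ++ [none])) < (i : ℤ) + 1) *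
        (pl w α x o * (M.pw w α (l1 ++ [none] : MC 1) *
          ENNReal.ofReal (r ^ ((i : ℤ) + 1 + k - ht s (o.getD 0 + mdsp (l1 ++ [none]))).toNat))) ≤
      ENNReal.ofReal (r ^ (k + 1) / (1 - r)) * pl w α x o *
        (TR.ind ((mdsp l1).1 = x - (o.getD 0).1 - 1) * M.pw w α (l1 ++ [none] : MC 1)) := by
    intro l1
    have h2 : ((o.getD 0 + mdsp (l1 ++ [none])).1 = x) ↔ ((mdsp l1).1 = x - (o.getD 0).1 - 1) := by
      rw [mdsp_append, Prod.fst_add, Prod.fst_add, mdsp_cons, vec_none, mdsp_nil, add_zero]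
      constructor <;> intro h <;> omega
    have h3 := geo1 hr0 hr1 n k (ht s (o.getD 0 + mdsp (l1 ++ [none])))
    calc _ = TR.ind ((mdsp l1).1 = x - (o.getD 0).1 - 1) * (pl w α x o * M.pw w α (l1 ++ [none] : MC 1)) *
          ∑ i ∈ Finset.range n, TR.ind (ht s (o.getD 0 + mdsp (l1 ++ [none])) < (i : ℤ) + 1) *
            ENNReal.ofReal (r ^ ((i : ℤ) + 1 + k - ht s (o.getD 0 + mdsp (l1 ++ [none]))).toNat) := by
          rw [Finset.mul_sum]
          refine Finset.sum_congr rfl fun i _ => ?_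
          rw [ind_and, ind_congr h2]
          ring
      _ ≤ TR.ind ((mdsp l1).1 = x - (o.getD 0).1 - 1) * (pl w α x o * M.pw w α (l1 ++ [none] : MC 1)) *
          ENNReal.ofReal (r ^ (k + 1) / (1 - r)) := mul_le_mul' le_rfl h3
      _ = _ := by ring
  refine (ENNReal.tsum_le_tsum h1).trans ?_
  rw [ENNReal.tsum_mul_left]
  calc _ ≤ ENNReal.ofReal (r ^ (k + 1) / (1 - r)) * pl w α x o * 1 :=
        mul_le_mul' le_rfl (sum_pw_le w α (D := 1) (x - (o.getD 0).1 - 1))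
    _ = _ := mul_one _

theorem sum_i2 : ∑ i ∈ Finset.range n, OQ w α 1 {c | I2 s x ((i : ℤ) + 1) ((i : ℤ) + 1 + k) c} ≤
    ENNReal.ofReal (r ^ (k + 1) / (1 - r)) * (ENNReal.ofReal (1 / (1 - r)) +
      ∑ j ∈ Finset.range n, pp w α s x ((j : ℤ) + 1)) := by
  refine (Finset.sum_le_sum fun (i : ℕ) _ => i2_prob w α hr0 hr s x ((i : ℤ) + 1) ((i : ℤ) + 1 + k) (by omega)).trans ?_
  rw [sum_tsum]
  have h1 : ∀ h' : ℤ, ∑ i ∈ Finset.range n, TR.ind (h' < (i : ℤ) + 1) * (pp w α s x h' *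
      ENNReal.ofReal (r ^ ((i : ℤ) + 1 + k - h').toNat)) ≤ ENNReal.ofReal (r ^ (k + 1) / (1 - r)) *
      (TR.ind (h' ≤ 0) * (fun j : ℕ => ENNReal.ofReal (r ^ (0 + j))) ((-h').toNat) +
        TR.ind (0 < h' ∧ h' ≤ n) * (fun j : ℕ => TR.ind (j < n) * pp w α s x ((j : ℤ) + 1)) ((h' - 1).toNat)) := by
    intro h'
    have h2 : ∑ i ∈ Finset.range n, TR.ind (h' < (i : ℤ) + 1) * (pp w α s x h' *
        ENNReal.ofReal (r ^ ((i : ℤ) + 1 + k - h').toNat)) = pp w α s x h' *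
        ∑ i ∈ Finset.range n, TR.ind (h' < (i : ℤ) + 1) * ENNReal.ofReal (r ^ ((i : ℤ) + 1 + k - h').toNat) := by
      rw [Finset.mul_sum]
      refine Finset.sum_congr rfl fun i _ => ?_
      ring
    rw [h2]
    rcases le_or_gt h' 0 with h3 | h3
    · rw [ind_true h3, one_mul, mul_add]
      refine le_add_right ?_
      calc _ ≤ 1 * (ENNReal.ofReal (r ^ (k + 1) / (1 - r)) * ENNReal.ofReal (r ^ (-h').toNat)) :=
            mul_le_mul' (pp_le_one w α s x h') (geo0 hr0 hr1 n k h3)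
        _ = _ := by
          rw [one_mul]
          show _ = _ * ENNReal.ofReal (r ^ (0 + (-h').toNat))
          rw [zero_add]
    · by_cases h4 : h' ≤ n
      · rw [ind_true (⟨h3, h4⟩ : 0 < h' ∧ h' ≤ n), one_mul, mul_add]
        refine le_add_left ?_
        have h5 : (((h' - 1).toNat : ℕ) : ℤ) + 1 = h' := by omega
        show _ ≤ _ * (TR.ind ((h' - 1).toNat < n) * pp w α s x ((((h' - 1).toNat : ℕ) : ℤ) + 1))
        rw [h5, ind_true (by omega), one_mul, mul_comm]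
        exact mul_le_mul' (geo1 hr0 hr1 n k h') le_rfl
      · have h5 : ∑ i ∈ Finset.range n, TR.ind (h' < (i : ℤ) + 1) *
            ENNReal.ofReal (r ^ ((i : ℤ) + 1 + k - h').toNat) = 0 := by
          refine Finset.sum_eq_zero fun i hi => ?_
          rw [Finset.mem_range] at hi
          rw [ind_false (by omega), zero_mul]
        rw [h5, mul_zero]
        exact zero_le
  refine (ENNReal.tsum_le_tsum h1).trans ?_
  rw [ENNReal.tsum_mul_left, ENNReal.tsum_add]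
  refine mul_le_mul' le_rfl (add_le_add ?_ ?_)
  · have h2 := tsum_inj_le (fun j : ℕ => ENNReal.ofReal (r ^ (0 + j))) (fun h' : ℤ => h' ≤ 0) (fun h' => (-h').toNat)
      fun i i' h h' he => by omega
    rw [tsum_geo hr0 hr1 0, pow_zero] at h2
    exact h2
  · rw [sum_range_ind]
    exact tsum_inj_le (fun j : ℕ => TR.ind (j < n) * pp w α s x ((j : ℤ) + 1)) (fun h' : ℤ => 0 < h' ∧ h' ≤ n)
      (fun h' => (h' - 1).toNat) fun i i' h h' he => by omega

end col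

/-! ### The entries -/

/-- the probability of an entry above `g` but not above `h` -/
noncomputable def dd (s : Bool) (x g h : ℤ) : ℝ≥0∞ := OQ w α 1 {c | Uv s x g c ∧ ¬ Uv s x h c}

theorem uu_le_one (s : Bool) (x g : ℤ) : uu w α s x g ≤ 1 := prob_le_one

theorem uu_add (s : Bool) (x : ℤ) {g h : ℤ} (hgh : g ≤ h) : uu w α s x h + dd w α s x g h = uu w α s x g := by
  unfold uu dd
  have hm : MeasurableSet {c : OConf 1 | Uv s x g c ∧ ¬ Uv s x h c} :=
    measurableSet_setOfPred.2 ((meas_uv s x g).and (meas_uv s x h).not)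
  rw [← measure_union _ hm]
  · congr 1
    ext c
    constructor
    · rintro (h1 | h1)
      · exact uv_anti hgh h1
      · exact h1.1
    · intro h1
      by_cases h2 : Uv s x h c
      · exact Or.inl h2
      · exact Or.inr ⟨h1, h2⟩
  · rw [Set.disjoint_left]
    exact fun c h1 h2 => h2.2 h1

theorem sum_dd (s : Bool) (x : ℤ) (n k : ℕ) :
    ∑ i ∈ Finset.range n, dd w α s x ((i : ℤ) + 1) ((i : ℤ) + 1 + k) ≤ k := by
  have h1 : ∑ i ∈ Finset.range n, uu w α s x ((i : ℤ) + 1 + k) +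
      ∑ i ∈ Finset.range n, dd w α s x ((i : ℤ) + 1) ((i : ℤ) + 1 + k) = ∑ i ∈ Finset.range n, uu w α s x ((i : ℤ) + 1) := by
    rw [← Finset.sum_add_distrib]
    exact Finset.sum_congr rfl fun i _ => uu_add w α s x (by omega)
  have h2 : ∑ i ∈ Finset.range n, uu w α s x ((i : ℤ) + 1) ≤ ∑ i ∈ Finset.range (k + n), uu w α s x ((i : ℤ) + 1) :=
    Finset.sum_le_sum_of_subset (Finset.range_subset_range.2 (by omega))
  rw [Finset.sum_range_add] at h2
  have h3 : ∑ i ∈ Finset.range k, uu w α s x ((i : ℤ) + 1) ≤ k := by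
    calc ∑ i ∈ Finset.range k, uu w α s x ((i : ℤ) + 1) ≤ ∑ i ∈ Finset.range k, (1 : ℝ≥0∞) :=
          Finset.sum_le_sum fun i _ => uu_le_one w α s x _
      _ = k := by simp
  have h4 : ∑ i ∈ Finset.range n, uu w α s x (((k + i : ℕ) : ℤ) + 1) =
      ∑ i ∈ Finset.range n, uu w α s x ((i : ℤ) + 1 + k) := by
    refine Finset.sum_congr rfl fun i _ => ?_
    congr 1
    push_cast
    ring
  have h5 : ∑ i ∈ Finset.range n, uu w α s x ((i : ℤ) + 1 + k) ≠ ∞ := by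
    have h6 : ∑ i ∈ Finset.range n, uu w α s x ((i : ℤ) + 1 + k) ≤ n := by
      calc _ ≤ ∑ i ∈ Finset.range n, (1 : ℝ≥0∞) := Finset.sum_le_sum fun i _ => uu_le_one w α s x _
        _ = n := by simp
    exact ne_top_of_le_ne_top (ENNReal.natCast_ne_top n) h6
  rw [h4, ← h1, add_comm] at h2
  exact (ENNReal.add_le_add_iff_right h5).1 (h2.trans (add_le_add h3 le_rfl))

/-! ### The recursion for one column -/

theorem real_bound {T N u : ℝ} {k ρ g φ : ℝ} (hT : 0 ≤ T) (hN : 0 ≤ N) (hu : 0 ≤ u) (hg : 0 ≤ g) (hρ : ρ ≤ φ / 2)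
    (hφ : 0 < φ) (h : T ≤ k + (k + (ρ * N + (ρ + (ρ * (g + (u + T)) + (1 - φ) * T))))) :
    T ≤ 4 * k / φ + 1 + g + N + u := by
  have h1 : φ * T ≤ 2 * k + (φ / 2) * (N + 1 + g + u + T) := by
    nlinarith [mul_le_mul_of_nonneg_right hρ (by positivity : 0 ≤ N + 1 + g + u + T)]
  have h2 : φ * T ≤ φ * (4 * k / φ + 1 + g + N + u) := by
    have h3 : φ * (4 * k / φ + 1 + g + N + u) = 4 * k + φ * (1 + g + N + u) := by
      have : φ * (4 * k / φ) = 4 * k := by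
        field_simp
      linarith
    rw [h3]
    nlinarith
  exact le_of_mul_le_mul_left h2 hφ

theorem enn_bound {T N u : ℝ≥0∞} {k ρ g φ : ℝ} (hT : T ≠ ∞) (hN : N ≠ ∞) (hu : u ≠ ∞) (hk : 0 ≤ k) (hρ0 : 0 ≤ ρ)
    (hg : 0 ≤ g) (hρ : ρ ≤ φ / 2) (hφ : 0 < φ) (hφ1 : φ ≤ 1)
    (h : T ≤ ENNReal.ofReal k + (ENNReal.ofReal k + (ENNReal.ofReal ρ * N + (ENNReal.ofReal ρ +
      (ENNReal.ofReal ρ * (ENNReal.ofReal g + (u + T)) + ENNReal.ofReal (1 - φ) * T))))) :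
    T ≤ ENNReal.ofReal (4 * k / φ + 1 + g) + N + u := by
  obtain ⟨t, ht, rfl⟩ : ∃ t : ℝ, 0 ≤ t ∧ T = ENNReal.ofReal t := ⟨T.toReal, ENNReal.toReal_nonneg, (ENNReal.ofReal_toReal hT).symm⟩
  obtain ⟨m, hm, rfl⟩ : ∃ t : ℝ, 0 ≤ t ∧ N = ENNReal.ofReal t := ⟨N.toReal, ENNReal.toReal_nonneg, (ENNReal.ofReal_toReal hN).symm⟩
  obtain ⟨v, hv, rfl⟩ : ∃ t : ℝ, 0 ≤ t ∧ u = ENNReal.ofReal t := ⟨u.toReal, ENNReal.toReal_nonneg, (ENNReal.ofReal_toReal hu).symm⟩
  have hφ2 : 0 ≤ 1 - φ := by linarith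
  have h4 : 0 ≤ 4 * k / φ := by positivity
  rw [← ENNReal.ofReal_add hv ht, ← ENNReal.ofReal_add hg (by positivity), ← ENNReal.ofReal_mul hρ0,
    ← ENNReal.ofReal_mul hρ0, ← ENNReal.ofReal_mul hφ2, ← ENNReal.ofReal_add (by positivity) (by positivity),
    ← ENNReal.ofReal_add hρ0 (by positivity), ← ENNReal.ofReal_add (by positivity) (by positivity),
    ← ENNReal.ofReal_add hk (by positivity), ← ENNReal.ofReal_add hk (by positivity),
    ENNReal.ofReal_le_ofReal_iff (by positivity)] at h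
  rw [← ENNReal.ofReal_add (by positivity) hm, ← ENNReal.ofReal_add (by positivity) hv]
  exact ENNReal.ofReal_le_ofReal (real_bound ht hm hv hg hρ hφ h)

section col2

variable {r : ℝ} (hr0 : 0 < r) (hr1 : r < 1) (hr : (1 - w) / 2 * (1 + r ^ 2) ≤ r) {k : ℕ}
  (hk : r ^ (k + 1) / (1 - r) ≤ (∏ j ∈ Finset.Icc 1 k, (1 - r ^ j)) / 2) (s : Bool) (x : ℤ)

include hr0 hr1 hr hk

omit hk in
theorem qq_step (i : ℕ) : qq w α s x ((i : ℤ) + 1 + k) ≤ dd w α s x ((i : ℤ) + 1) ((i : ℤ) + 1 + k) +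
    (OQ w α 1 {c | I1 s x ((i : ℤ) + 1) ((i : ℤ) + 1 + k) c} + (OQ w α 1 {c | I0 s x ((i : ℤ) + 1) ((i : ℤ) + 1 + k) c} +
      (OQ w α 1 {c | I2 s x ((i : ℤ) + 1) ((i : ℤ) + 1 + k) c} +
        ENNReal.ofReal (1 - ∏ j ∈ Finset.Icc 1 k, (1 - r ^ j)) * qq w α s x ((i : ℤ) + 1)))) := by
  have h1 := win_le w α hr0 hr1 hr s x ((i : ℤ) + 1 + k) k
  rw [show ((i : ℤ) + 1 + k - k) = (i : ℤ) + 1 by ring] at h1
  refine le_trans ?_ (add_le_add le_rfl (add_le_add le_rfl (add_le_add le_rfl (add_le_add le_rfl h1))))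
  refine le_trans ?_ (add_le_add le_rfl (add_le_add le_rfl (add_le_add le_rfl (measure_union_le _ _))))
  refine le_trans ?_ (add_le_add le_rfl (add_le_add le_rfl (measure_union_le _ _)))
  refine le_trans ?_ (add_le_add le_rfl (measure_union_le _ _))
  refine le_trans ?_ (measure_union_le _ _)
  refine measure_mono ?_
  rintro c ⟨h2, h3⟩
  by_cases h4 : Uv s x ((i : ℤ) + 1) c
  · exact Or.inl ⟨h4, h3⟩
  · rcases decomp (by omega) h4 h2 with h5 | h5 | h5 | h5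
    · exact Or.inr (Or.inl h5)
    · exact Or.inr (Or.inr (Or.inl h5))
    · exact Or.inr (Or.inr (Or.inr (Or.inl h5)))
    · exact Or.inr (Or.inr (Or.inr (Or.inr h5)))

theorem tt_bound {N u : ℝ≥0∞} (hN : ∑' o : Option (Site 1), pl w α x o ≤ N) (hN' : N ≠ ∞)
    (hu : ∑' j : ℕ, uu w α s x ((j : ℤ) + 1) ≤ u) (hu' : u ≠ ∞) (n : ℕ) :
    ∑ i ∈ Finset.range n, qq w α s x ((i : ℤ) + 1) ≤
      ENNReal.ofReal (4 * k / (∏ j ∈ Finset.Icc 1 k, (1 - r ^ j)) + 1 + 1 / (1 - r)) + N + u := by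
  obtain ⟨φ, hφ⟩ : ∃ φ, φ = ∏ j ∈ Finset.Icc 1 k, (1 - r ^ j) := ⟨_, rfl⟩
  obtain ⟨ρ, hρ⟩ : ∃ ρ, ρ = r ^ (k + 1) / (1 - r) := ⟨_, rfl⟩
  have hr2 : 0 < 1 - r := by linarith
  have hρ0 : 0 < ρ := by
    rw [hρ]
    positivity
  have hk2 : ρ ≤ φ / 2 := by
    rw [hρ, hφ]
    exact hk
  have hφ1 : φ ≤ 1 := by
    rw [hφ]
    exact Finset.prod_le_one (fun j _ => by
      have := pow_le_one₀ (n := j) hr0.le hr1.le
      linarith) fun j _ => by
      have := pow_pos hr0 j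
      linarith
  have hfin : ∑ i ∈ Finset.range n, qq w α s x ((i : ℤ) + 1) ≠ ∞ := by
    have h6 : ∑ i ∈ Finset.range n, qq w α s x ((i : ℤ) + 1) ≤ n := by
      calc _ ≤ ∑ i ∈ Finset.range n, (1 : ℝ≥0∞) := Finset.sum_le_sum fun i _ => qq_le_one w α s x _
        _ = n := by simp
    exact ne_top_of_le_ne_top (ENNReal.natCast_ne_top n) h6
  rw [← hφ]
  refine enn_bound hfin hN' hu' (Nat.cast_nonneg k) hρ0.le (by positivity) hk2 (by linarith) hφ1 ?_
  have h1 : ∑ i ∈ Finset.range n, qq w α s x ((i : ℤ) + 1) ≤ ∑ i ∈ Finset.range (k + n), qq w α s x ((i : ℤ) + 1) :=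
    Finset.sum_le_sum_of_subset (Finset.range_subset_range.2 (by omega))
  rw [Finset.sum_range_add] at h1
  have h3 : ∑ i ∈ Finset.range k, qq w α s x ((i : ℤ) + 1) ≤ ENNReal.ofReal k := by
    rw [ENNReal.ofReal_natCast]
    calc ∑ i ∈ Finset.range k, qq w α s x ((i : ℤ) + 1) ≤ ∑ i ∈ Finset.range k, (1 : ℝ≥0∞) :=
          Finset.sum_le_sum fun i _ => qq_le_one w α s x _
      _ = k := by simp
  have h4 : ∑ i ∈ Finset.range n, qq w α s x (((k + i : ℕ) : ℤ) + 1) =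
      ∑ i ∈ Finset.range n, qq w α s x ((i : ℤ) + 1 + k) := by
    refine Finset.sum_congr rfl fun i _ => ?_
    congr 1
    push_cast
    ring
  rw [h4] at h1
  refine h1.trans (add_le_add h3 ?_)
  refine (Finset.sum_le_sum fun i _ => qq_step w α hr0 hr1 hr s x i).trans ?_
  rw [Finset.sum_add_distrib, Finset.sum_add_distrib, Finset.sum_add_distrib, Finset.sum_add_distrib, ← hφ,
    ← Finset.mul_sum]
  have h5 := sum_dd w α s x n k
  rw [← ENNReal.ofReal_natCast k] at h5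
  have h6 := sum_i1 w α hr0 hr1 hr s x n k
  have h7 := sum_i0 w α hr0 hr1 hr s x n k
  have h8 := sum_i2 w α hr0 hr1 hr s x n k
  rw [← hρ] at h6 h7 h8
  refine add_le_add h5 (add_le_add (h6.trans (mul_le_mul' le_rfl hN)) (add_le_add h7 (add_le_add (h8.trans ?_) le_rfl)))
  refine mul_le_mul' le_rfl (add_le_add le_rfl ?_)
  refine (Finset.sum_le_sum fun (j : ℕ) _ => pp_le w α s x ((j : ℤ) + 1)).trans ?_
  rw [Finset.sum_add_distrib]
  exact add_le_add ((ENNReal.sum_le_tsum (Finset.range n)).trans hu) le_rfl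

theorem pp_bound {N u : ℝ≥0∞} (hN : ∑' o : Option (Site 1), pl w α x o ≤ N) (hN' : N ≠ ∞)
    (hu : ∑' j : ℕ, uu w α s x ((j : ℤ) + 1) ≤ u) (hu' : u ≠ ∞) :
    ∑' j : ℕ, pp w α s x ((j : ℤ) + 1) ≤
      ENNReal.ofReal (4 * k / (∏ j ∈ Finset.Icc 1 k, (1 - r ^ j)) + 1 + 1 / (1 - r)) + N + u + u := by
  refine ENNReal.tsum_le_of_sum_range_le fun n => ?_
  refine (Finset.sum_le_sum fun (j : ℕ) _ => pp_le w α s x ((j : ℤ) + 1)).trans ?_
  rw [Finset.sum_add_distrib, add_comm]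
  exact add_le_add (tt_bound w α hr0 hr1 hr hk s x hN hN' hu hu' n) ((ENNReal.sum_le_tsum (Finset.range n)).trans hu)

end col2

end FDr.MT
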