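import Pool.Agent.Lib.MP_e029a2_pr.M.UC

/-!
# The columns of the process with macro cells: the bound of the generating function
-/

set_option autoImplicit false

namespace FDr.MT

open MeasureTheory ProbabilityTheory
open scoped ENNReal
open FDr.M
open FDr.TR (ind ind_true ind_false ind_mono ind_and ind_congr measurable_ind lintegral_ind tsum_ind_and tsum_opt
  lintegral_mul_of_disj lintegral_reindex lintegral_coord)

variable (w α : Set.Ioo (0 : ℝ) 1)

/-- the expected number of visited sites of a column -/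
noncomputable def aa (x : ℤ) : ℝ≥0∞ := ∑' v : Fin 1 → ℤ, actM w α ((x, v) : Site 1)

/-- the part of a column above the axis, or below it -/
noncomputable def SS (s : Bool) (x : ℤ) : ℝ≥0∞ := ∑' j : ℕ, pp w α s x ((j : ℤ) + 1)

theorem tsum_int (f : ℤ → ℝ≥0∞) : ∑' h : ℤ, f h = f 0 + ∑' j : ℕ, f ((j : ℤ) + 1) + ∑' j : ℕ, f (-((j : ℤ) + 1)) := by
  have h1 : HasSum f (∑' n : ℕ, f (n : ℤ) + ∑' n : ℕ, f (-((n : ℤ) + 1))) :=
    HasSum.of_nat_of_neg_add_one ENNReal.summable.hasSum ENNReal.summable.hasSum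
  rw [h1.tsum_eq, tsum_eq_zero_add' (f := fun n : ℕ => f (n : ℤ)) ENNReal.summable]
  simp only [Nat.cast_zero, Nat.cast_add, Nat.cast_one]

theorem aa_eq (x : ℤ) : aa w α x = pp w α true x 0 + SS w α true x + SS w α false x := by
  unfold aa SS
  rw [← (Equiv.funUnique (Fin 1) ℤ).symm.tsum_eq, tsum_int]
  have e : ∀ (s : Bool) (h h' : ℤ), sg s * h = h' → actM w α ((x, (Equiv.funUnique (Fin 1) ℤ).symm h') : Site 1) =
      pp w α s x h := by
    intro s h h' he
    rw [pp_eq]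
    congr 1
    unfold sst
    rw [he]
    rfl
  have e1 : sg true = 1 := rfl
  have e2 : sg false = -1 := rfl
  rw [e true 0 0 (by rw [e1]; ring)]
  congr 1
  · congr 1
    exact tsum_congr fun j => e true _ _ (by rw [e1]; ring)
  · exact tsum_congr fun j => e false _ _ (by rw [e2]; ring)

theorem actM_neg {x : ℤ} (hx : x < 0) (v : Fin 1 → ℤ) : actM w α ((x, v) : Site 1) = 0 := by
  unfold actM
  have h1 : {c : OConf 1 | Ent Set.univ 0 c 0 (some ((x, v) : Site 1), 0)} = ∅ :=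
    Set.eq_empty_iff_forall_notMem.2 fun c hc => by
      have h2 : 0 ≤ x := ent_col hc rfl
      omega
  rw [h1, measure_empty]

theorem aa_neg {x : ℤ} (hx : x < 0) : aa w α x = 0 := by
  unfold aa
  rw [ENNReal.tsum_eq_zero]
  exact fun v => actM_neg w α hx v

/-! ### The entries of a column are visits of the columns on the left -/

theorem uu_le (s : Bool) (x : ℕ) {g : ℤ} (hg : 1 ≤ g) : uu w α s x g ≤ ∑ m ∈ Finset.range x, pp w α s m g := by
  unfold uu pp
  refine (measure_mono ?_).trans (measure_biUnion_finset_le (Finset.range x)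
    fun m : ℕ => {c | Ent Set.univ 0 c 0 (some (sst s m g), 0)})
  intro c hc
  obtain ⟨x', h1, h2, h3⟩ := uv_reach hg hc
  obtain ⟨m, rfl⟩ : ∃ m : ℕ, (m : ℤ) = x' := ⟨x'.toNat, Int.toNat_of_nonneg h1⟩
  exact Set.mem_biUnion (Finset.mem_coe.2 (Finset.mem_range.2 (by exact_mod_cast h2))) h3

theorem sum_uu (s : Bool) (x : ℕ) : ∑' j : ℕ, uu w α s x ((j : ℤ) + 1) ≤ ∑ m ∈ Finset.range x, SS w α s m := by
  refine (ENNReal.tsum_le_tsum fun j => uu_le w α s x (by omega)).trans ?_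
  unfold SS
  rw [sum_tsum]

theorem sum_pl (x : ℕ) : ∑' o : Option (Site 1), pl w α x o ≤ 1 + ∑ m ∈ Finset.range x, aa w α m := by
  rw [tsum_opt]
  refine add_le_add prob_le_one ?_
  have h1 : ∀ y : Site 1, pl w α x (some y) ≤ TR.ind (0 ≤ y.1 ∧ y.1 < x) * actM w α y := by
    intro y
    by_cases h : 0 ≤ y.1 ∧ y.1 < x
    · rw [ind_true h, one_mul]
      exact measure_mono fun c hc => Ent.mono hc (Set.subset_univ _) le_rfl
    · have h2 : {c : OConf 1 | Ent (lf x) 0 c 0 (some y, 0)} = ∅ :=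
        Set.eq_empty_iff_forall_notMem.2 fun c hc => h ⟨ent_col hc rfl, (hc.frog).1 y rfl⟩
      unfold pl
      rw [h2, measure_empty]
      exact zero_le
  refine (ENNReal.tsum_le_tsum h1).trans ?_
  rw [ENNReal.tsum_prod (f := fun (a : ℤ) (v : Fin 1 → ℤ) => TR.ind (0 ≤ a ∧ a < x) * actM w α ((a, v) : Site 1))]
  have h3 : ∀ a : ℤ, ∑' v : Fin 1 → ℤ, TR.ind (0 ≤ a ∧ a < x) * actM w α ((a, v) : Site 1) =
      TR.ind (0 ≤ a ∧ a < x) * (fun m : ℕ => TR.ind (m < x) * aa w α m) a.toNat := by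
    intro a
    rw [ENNReal.tsum_mul_left]
    by_cases h : 0 ≤ a ∧ a < x
    · rw [ind_true h, one_mul, one_mul]
      show _ = TR.ind (a.toNat < x) * aa w α ((a.toNat : ℕ) : ℤ)
      rw [ind_true (by omega), one_mul, Int.toNat_of_nonneg h.1]
      rfl
    · rw [ind_false h, zero_mul, zero_mul]
  rw [tsum_congr h3, sum_range_ind]
  exact tsum_inj_le _ _ _ fun i i' h h' he => by omega

/-! ### The induction over the columns -/

section ind

variable {r : ℝ} (hr0 : 0 < r) (hr1 : r < 1) (hr : (1 - w) / 2 * (1 + r ^ 2) ≤ r) {k : ℕ}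
  (hk : r ^ (k + 1) / (1 - r) ≤ (∏ j ∈ Finset.Icc 1 k, (1 - r ^ j)) / 2)

include hr0 hr1 hr hk

theorem aa_step (x : ℕ) (hf : ∑ m ∈ Finset.range x, aa w α m ≠ ∞) :
    aa w α x ≤ ENNReal.ofReal (5 + 8 * k / (∏ j ∈ Finset.Icc 1 k, (1 - r ^ j)) + 2 / (1 - r)) +
      4 * ∑ m ∈ Finset.range x, aa w α m := by
  obtain ⟨Z, hZ⟩ : ∃ Z, Z = ∑ m ∈ Finset.range x, aa w α m := ⟨_, rfl⟩
  have hS : ∑ m ∈ Finset.range x, SS w α true m + ∑ m ∈ Finset.range x, SS w α false m ≤ Z := by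
    rw [hZ, ← Finset.sum_add_distrib]
    refine Finset.sum_le_sum fun m _ => ?_
    rw [aa_eq, add_assoc]
    exact le_add_left le_rfl
  rw [← hZ] at hf ⊢
  have hSt : ∑ m ∈ Finset.range x, SS w α true m ≠ ∞ := ne_top_of_le_ne_top hf ((le_add_right le_rfl).trans hS)
  have hSf : ∑ m ∈ Finset.range x, SS w α false m ≠ ∞ := ne_top_of_le_ne_top hf ((le_add_left le_rfl).trans hS)
  have hN := sum_pl w α x
  rw [← hZ] at hN
  have hN' : 1 + Z ≠ ∞ := ENNReal.add_ne_top.2 ⟨ENNReal.one_ne_top, hf⟩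
  have h1 := pp_bound w α hr0 hr1 hr hk true x hN hN' (sum_uu w α true x) hSt
  have h2 := pp_bound w α hr0 hr1 hr hk false x hN hN' (sum_uu w α false x) hSf
  obtain ⟨B, hB⟩ : ∃ B, B = 4 * k / (∏ j ∈ Finset.Icc 1 k, (1 - r ^ j)) + 1 + 1 / (1 - r) := ⟨_, rfl⟩
  have hB0 : 0 ≤ B := by
    rw [hB]
    have h3 : 0 ≤ ∏ j ∈ Finset.Icc 1 k, (1 - r ^ j) := Finset.prod_nonneg fun j _ => by
      have := pow_le_one₀ (n := j) hr0.le hr1.le
      linarith
    have h4 : 0 < 1 - r := by linarith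
    positivity
  rw [← hB] at h1 h2
  have hB2 : 5 + 8 * k / (∏ j ∈ Finset.Icc 1 k, (1 - r ^ j)) + 2 / (1 - r) = 3 + (B + B) := by
    rw [hB]
    ring
  rw [hB2, ENNReal.ofReal_add (by norm_num) (by positivity), ENNReal.ofReal_add hB0 hB0]
  have h3 : ENNReal.ofReal 3 = 1 + 1 + 1 := by
    rw [← ENNReal.ofReal_one, ← ENNReal.ofReal_add (by norm_num) (by norm_num),
      ← ENNReal.ofReal_add (by norm_num) (by norm_num)]
    norm_num
  rw [aa_eq, h3]
  calc pp w α true x 0 + SS w α true x + SS w α false x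
      ≤ 1 + (ENNReal.ofReal B + (1 + Z) + ∑ m ∈ Finset.range x, SS w α true m + ∑ m ∈ Finset.range x, SS w α true m) +
        (ENNReal.ofReal B + (1 + Z) + ∑ m ∈ Finset.range x, SS w α false m + ∑ m ∈ Finset.range x, SS w α false m) :=
        add_le_add (add_le_add (pp_le_one w α true x 0) h1) h2
    _ = 1 + 1 + 1 + (ENNReal.ofReal B + ENNReal.ofReal B) + (2 * Z + 2 * (∑ m ∈ Finset.range x, SS w α true m +
        ∑ m ∈ Finset.range x, SS w α false m)) := by ring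
    _ ≤ 1 + 1 + 1 + (ENNReal.ofReal B + ENNReal.ofReal B) + (2 * Z + 2 * Z) := by gcongr
    _ = _ := by ring

theorem aa_le (x : ℕ) : aa w α x ≤
    ENNReal.ofReal ((5 + 8 * k / (∏ j ∈ Finset.Icc 1 k, (1 - r ^ j)) + 2 / (1 - r)) * 5 ^ x) := by
  obtain ⟨c, hc⟩ : ∃ c, c = 5 + 8 * k / (∏ j ∈ Finset.Icc 1 k, (1 - r ^ j)) + 2 / (1 - r) := ⟨_, rfl⟩
  have hc0 : 0 ≤ c := by
    rw [hc]
    have h3 : 0 ≤ ∏ j ∈ Finset.Icc 1 k, (1 - r ^ j) := Finset.prod_nonneg fun j _ => by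
      have := pow_le_one₀ (n := j) hr0.le hr1.le
      linarith
    have h4 : 0 < 1 - r := by linarith
    positivity
  rw [← hc]
  induction x using Nat.strong_induction_on with
  | _ x ih =>
    have hs : ∑ m ∈ Finset.range x, aa w α m ≤ ENNReal.ofReal (∑ m ∈ Finset.range x, c * 5 ^ m) := by
      rw [ENNReal.ofReal_sum_of_nonneg fun m _ => by positivity]
      exact Finset.sum_le_sum fun m hm => ih m (Finset.mem_range.1 hm)
    have hf : ∑ m ∈ Finset.range x, aa w α m ≠ ∞ := ne_top_of_le_ne_top ENNReal.ofReal_ne_top hs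
    refine (aa_step w α hr0 hr1 hr hk x hf).trans ?_
    rw [← hc]
    calc ENNReal.ofReal c + 4 * ∑ m ∈ Finset.range x, aa w α m
        ≤ ENNReal.ofReal c + ENNReal.ofReal 4 * ENNReal.ofReal (∑ m ∈ Finset.range x, c * 5 ^ m) := by
          have h4 : ENNReal.ofReal 4 = 4 := by norm_num
          rw [h4]
          gcongr
      _ = ENNReal.ofReal (c + 4 * ∑ m ∈ Finset.range x, c * 5 ^ m) := by
          rw [← ENNReal.ofReal_mul (by norm_num), ENNReal.ofReal_add hc0 (by positivity)]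
      _ = ENNReal.ofReal (c * 5 ^ x) := by
          congr 1
          rw [← Finset.mul_sum, geom_sum_eq (by norm_num)]
          ring

theorem Ug_le : UgM w α 1 (1 / 10) ≤
    ENNReal.ofReal (2 * (5 + 8 * k / (∏ j ∈ Finset.Icc 1 k, (1 - r ^ j)) + 2 / (1 - r))) := by
  obtain ⟨c, hc⟩ : ∃ c, c = 5 + 8 * k / (∏ j ∈ Finset.Icc 1 k, (1 - r ^ j)) + 2 / (1 - r) := ⟨_, rfl⟩
  have hc0 : 0 ≤ c := by
    rw [hc]
    have h3 : 0 ≤ ∏ j ∈ Finset.Icc 1 k, (1 - r ^ j) := Finset.prod_nonneg fun j _ => by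
      have := pow_le_one₀ (n := j) hr0.le hr1.le
      linarith
    have h4 : 0 < 1 - r := by linarith
    positivity
  have hx := aa_le w α hr0 hr1 hr hk
  rw [← hc] at hx ⊢
  unfold UgM
  rw [ENNReal.tsum_prod (f := fun (a : ℤ) (v : Fin 1 → ℤ) => actM w α ((a, v) : Site 1) *
    ENNReal.ofReal ((1 / 10 : ℝ) ^ a))]
  have h1 : ∀ a : ℤ, ∑' v : Fin 1 → ℤ, actM w α ((a, v) : Site 1) * ENNReal.ofReal ((1 / 10 : ℝ) ^ a) ≤
      TR.ind (0 ≤ a) * (fun m : ℕ => ENNReal.ofReal (c * (1 / 2) ^ m)) a.toNat := by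
    intro a
    rw [ENNReal.tsum_mul_right]
    change aa w α a * _ ≤ _
    by_cases h : 0 ≤ a
    · obtain ⟨m, rfl⟩ : ∃ m : ℕ, (m : ℤ) = a := ⟨a.toNat, Int.toNat_of_nonneg h⟩
      rw [ind_true h, one_mul]
      show _ ≤ ENNReal.ofReal (c * (1 / 2) ^ ((m : ℤ).toNat))
      rw [Int.toNat_natCast, zpow_natCast]
      refine (mul_le_mul' (hx m) le_rfl).trans ?_
      rw [← ENNReal.ofReal_mul (by positivity)]
      refine ENNReal.ofReal_le_ofReal (le_of_eq ?_)
      rw [mul_assoc, ← mul_pow]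
      norm_num
    · rw [aa_neg w α (not_le.1 h), zero_mul]
      exact zero_le
  refine (ENNReal.tsum_le_tsum h1).trans ((tsum_inj_le (fun m : ℕ => ENNReal.ofReal (c * (1 / 2) ^ m))
    (fun a : ℤ => 0 ≤ a) (fun a => a.toNat) fun i i' h h' he => by omega).trans ?_)
  have hs : Summable fun m : ℕ => c * (1 / 2 : ℝ) ^ m := (summable_geometric_of_lt_one (by norm_num) (by norm_num)).mul_left _
  rw [← ENNReal.ofReal_tsum_of_nonneg (fun m => by positivity) hs, tsum_mul_left,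
    tsum_geometric_of_lt_one (by norm_num) (by norm_num)]
  refine ENNReal.ofReal_le_ofReal (le_of_eq ?_)
  norm_num
  ring

end ind

end FDr.MT
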